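import Mathlib
import Pool.Agent.W629.Rad

set_option autoImplicit false

/-!
# Basic lemmas: commuting conjugates in exponent three, lifting of conjugacy
-/

namespace Pool.Agent.W629.Tw

open Pool.Agent.W629

universe u

variable {G : Type u} [Group G]

theorem rel3 {x c : G} (hc : c ^ 3 = 1) (h : (x * c) ^ 3 = 1) :
    x * (c * x * c⁻¹) * (c⁻¹ * x * c) = 1 := by
  have hc2 : c⁻¹ = c * c := by
    rw [inv_eq_iff_mul_eq_one, ← mul_assoc]
    simpa [pow_succ] using hc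
  rw [← h]
  calc x * (c * x * c⁻¹) * (c⁻¹ * x * c) = x * (c * x * c⁻¹) * (c * c * x * c) := by
        conv_lhs => rw [show c⁻¹ * x * c = c * c * x * c by rw [← hc2]]
    _ = (x * c) ^ 3 := by
        simp only [pow_succ, pow_zero, one_mul]
        group

/-- in a group of exponent three an element commuting with `b` commutes with the conjugates
of `b` -/
theorem comm_conj {a b c : G} (hc : c ^ 3 = 1) (hb : (b * c) ^ 3 = 1) (ha : (a * c) ^ 3 = 1)
    (hab : (a * b * c) ^ 3 = 1) (h : Commute a b) : Commute a (c⁻¹ * b * c) := by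
  have ra := rel3 hc ha
  have rb := rel3 hc hb
  have rab := rel3 hc hab
  set a1 := c * a * c⁻¹ with ha1
  set a2 := c⁻¹ * a * c with ha2
  set b1 := c * b * c⁻¹ with hb1
  set b2 := c⁻¹ * b * c with hb2
  have e1 : c * (a * b) * c⁻¹ = a1 * b1 := by rw [ha1, hb1]; group
  have e2 : c⁻¹ * (a * b) * c = a2 * b2 := by rw [ha2, hb2]; group
  rw [e1, e2] at rab
  have c2 : Commute a2 b2 := by
    change a2 * b2 = b2 * a2
    rw [← e2, h.eq, ha2, hb2]
    group
  have qa : a1 = a⁻¹ * a2⁻¹ := by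
    have : a * a1 = a2⁻¹ := mul_eq_one_iff_eq_inv.1 ra
    rw [← this]
    group
  have qb : b1 = b⁻¹ * b2⁻¹ := by
    have : b * b1 = b2⁻¹ := mul_eq_one_iff_eq_inv.1 rb
    rw [← this]
    group
  have h3 : Commute a2 (b⁻¹ * b2⁻¹) := by
    have h4 : a * b * (a1 * b1) = (a2 * b2)⁻¹ := mul_eq_one_iff_eq_inv.1 rab
    rw [qa, qb, c2.eq, h.eq, mul_inv_rev b2 a2] at h4
    -- b * a * (a⁻¹ * a2⁻¹ * (b⁻¹ * b2⁻¹)) = a2⁻¹ * b2⁻¹
    have h5 : a2⁻¹ * (b⁻¹ * b2⁻¹) = b⁻¹ * (a2⁻¹ * b2⁻¹) := by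
      rw [← h4]
      group
    have h6 : a2⁻¹ * b2⁻¹ = b2⁻¹ * a2⁻¹ := (c2.inv_inv).eq
    have h7 : Commute a2⁻¹ (b⁻¹ * b2⁻¹) := by
      change a2⁻¹ * (b⁻¹ * b2⁻¹) = b⁻¹ * b2⁻¹ * a2⁻¹
      rw [h5, h6, mul_assoc]
    exact (Commute.inv_left_iff).1 h7
  have h8 : Commute a2 b := by
    have h9 : Commute a2 (b⁻¹ * b2⁻¹ * b2) := h3.mul_right c2
    rw [inv_mul_cancel_right] at h9
    exact (Commute.inv_right_iff).1 h9
  have h10 : Commute a b1 := by
    have h11 : c * a2 * c⁻¹ = a := by rw [ha2]; group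
    change a * b1 = b1 * a
    rw [← h11, hb1]
    have := h8.eq
    calc c * a2 * c⁻¹ * (c * b * c⁻¹) = c * (a2 * b) * c⁻¹ := by group
      _ = c * (b * a2) * c⁻¹ := by rw [this]
      _ = c * b * c⁻¹ * (c * a2 * c⁻¹) := by group
  rw [qb] at h10
  have h12 : Commute a (b * (b⁻¹ * b2⁻¹)) := h.mul_right h10
  rw [mul_inv_cancel_left] at h12
  exact (Commute.inv_right_iff).1 h12

theorem not_dvd_card {p r : ℕ} (hp : p.Prime) (hr : Nat.Coprime p r) (N : Subgroup G) [Finite N]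
    (h : ∀ x ∈ N, x ^ r = 1) : ¬ p ∣ Nat.card N := by
  intro hd
  have := Fact.mk hp
  obtain ⟨x, hx⟩ := exists_prime_orderOf_dvd_card' p hd
  have h1 : orderOf x ∣ r := orderOf_dvd_of_pow_eq_one (Subtype.ext (by simpa using h x x.2))
  rw [hx] at h1
  exact hp.one_lt.ne' (Nat.Coprime.eq_one_of_dvd hr h1)

/-- two `p`-elements which agree modulo a finite `p'`-subgroup `N` are conjugate by an element
of `N` -/
theorem conj_lift {p k : ℕ} (hp : p.Prime) (N : Subgroup G) [Finite N] (hN : ¬ p ∣ Nat.card N)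
    {s s' : G} (hs : s ^ p ^ k = 1) (hs' : s' ^ p ^ k = 1) (hn : ∀ n ∈ N, s * n * s⁻¹ ∈ N)
    (h : s' * s⁻¹ ∈ N) : ∃ n ∈ N, s' = n * s * n⁻¹ := by
  classical
  have := Fact.mk hp
  let φ : N → N := fun n => ⟨s' * n * s⁻¹, by
    have : s' * (n : G) * s⁻¹ = (s' * s⁻¹) * (s * n * s⁻¹) := by group
    rw [this]
    exact mul_mem h (hn n n.2)⟩
  have hinj : Function.Injective φ := by
    intro a b hab
    have := congrArg Subtype.val hab
    simpa [φ] using this
  let σ : Equiv.Perm N := Equiv.ofBijective φ (Finite.injective_iff_bijective.1 hinj)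
  have hσ : ∀ m : ℕ, ∀ n : N, (((σ ^ m) n : N) : G) = s' ^ m * n * (s ^ m)⁻¹ := by
    intro m
    induction m with
    | zero => intro n; simp
    | succ m ih =>
      intro n
      rw [pow_succ', Equiv.Perm.mul_apply]
      change s' * _ * s⁻¹ = _
      rw [ih, pow_succ', pow_succ']
      simp only [mul_inv_rev, mul_assoc]
  have hσp : σ ^ p ^ k = 1 := by
    ext n
    rw [hσ, hs, hs']
    simp
  have := Fintype.ofFinite N
  obtain ⟨n, hn'⟩ := Equiv.Perm.exists_fixed_point_of_prime (α := N)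
    (by rwa [← Nat.card_eq_fintype_card]) hσp
  refine ⟨n, n.2, ?_⟩
  have h1 : s' * (n : G) * s⁻¹ = n := congrArg Subtype.val hn'
  rw [mul_inv_eq_iff_eq_mul] at h1
  rw [← h1]
  group

/-- lifting of conjugacy through a normal `p'`-subgroup -/
theorem lift_conj {p k : ℕ} (hp : p.Prime) (N : Subgroup G) [N.Normal] [Finite N]
    (hN : ¬ p ∣ Nat.card N) {s s' : G} (hs : s ^ p ^ k = 1) (hs' : s' ^ p ^ k = 1) {u : G ⧸ N}
    (h : u⁻¹ * (s : G ⧸ N) * u = s') : ∃ w : G, w⁻¹ * s * w = s' ∧ (w : G ⧸ N) = u := by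
  obtain ⟨w, rfl⟩ := QuotientGroup.mk_surjective u
  obtain ⟨n, hn, hn'⟩ := conj_lift (s := w⁻¹ * s * w) (s' := s') (k := k) hp N hN
    (conj_pow_one' hs) hs'
    (fun n hn => by
      have : N.Normal := inferInstance
      exact this.conj_mem n hn _)
    (by
      rw [← QuotientGroup.eq_one_iff, QuotientGroup.mk_mul, QuotientGroup.mk_inv, ← h]
      simp only [QuotientGroup.mk_mul, QuotientGroup.mk_inv]
      group)
  refine ⟨w * n⁻¹, ?_, ?_⟩
  · rw [hn']
    group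
  · rw [QuotientGroup.mk_mul, QuotientGroup.mk_inv, (QuotientGroup.eq_one_iff n).2 hn]
    group

theorem lift_comm {p k : ℕ} (hp : p.Prime) (N : Subgroup G) [N.Normal] [Finite N]
    (hN : ¬ p ∣ Nat.card N) {s : G} (hs : s ^ p ^ k = 1) {u : G ⧸ N}
    (h : Commute u (s : G ⧸ N)) : ∃ w : G, Commute w s ∧ (w : G ⧸ N) = u := by
  obtain ⟨w, h1, h2⟩ := lift_conj (s' := s) hp N hN hs hs (u := u) (by
    rw [mul_assoc, ← h.eq]
    group)
  refine ⟨w, ?_, h2⟩
  change w * s = s * w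
  calc w * s = w * (w⁻¹ * s * w) := by rw [h1]
    _ = s * w := by group

/-- criterion for membership in the radical -/
theorem mem_rad_of {a b : ℕ} (hab : Nat.Coprime a b) (hG : ∀ x : G, x ^ (a * b) = 1)
    (hs : Group.IsSolvable G) {x : G} (hx : x ^ a = 1)
    (h : ∀ u ∈ Rad b (G ⧸ Rad a G), Commute (x : G ⧸ Rad a G) u) : x ∈ Rad a G := by
  have hsQ : Group.IsSolvable (G ⧸ Rad a G) :=
    Group.isSolvable_of_surjective (QuotientGroup.mk'_surjective (Rad a G))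
  have h1 := hall_higman hab (exp_quot hG (Rad a G)) hsQ (rad_quot hab hG) (fun e he => (h e he).eq)
  rw [← QuotientGroup.eq_one_iff]
  refine eq_one_of_coprime hab ?_ h1.1
  rw [← QuotientGroup.mk_pow, hx]
  rfl

theorem conj_mem_rad {r : ℕ} {x : G} (hx : x ∈ Rad r G) (g : G) : g * x * g⁻¹ ∈ Rad r G :=
  (rad_normal r).conj_mem x hx g

theorem conj_mem_rad' {r : ℕ} {x : G} (hx : x ∈ Rad r G) (g : G) : g⁻¹ * x * g ∈ Rad r G := by
  have := conj_mem_rad hx g⁻¹
  rwa [inv_inv] at this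

/-- two elements of `Rad 3` : commuting with conjugates -/
theorem comm_conj_rad {a b c : G} (ha : a ^ 3 = 1) (hb : b ^ 3 = 1) (h : Commute a b)
    (hc : c ∈ Rad 3 G) : Commute a (c⁻¹ * b * c) :=
  comm_conj hc.1 (rad_mul' hc hb) (rad_mul' hc ha)
    (rad_mul' hc (by rw [h.mul_pow, ha, hb, one_mul])) h

/-- `A × B` lemma, exponent three -/
theorem ab3 {g e : G} (hg : g ^ 3 = 1) (he : e ^ 4 = 1) (hge : Commute g e)
    (h : ∀ u ∈ Rad 3 G, Commute u g → Commute u e) : ∀ u ∈ Rad 3 G, Commute u e := by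
  intro u hu
  have h1 : Commute g (u⁻¹ * g * u) := comm_conj_rad hg hg (Commute.refl g) hu
  have hw : g⁻¹ * (u⁻¹ * g * u) ∈ Rad 3 G := by
    have : g⁻¹ * (u⁻¹ * g * u) = (g⁻¹ * u⁻¹ * g) * u := by group
    rw [this]
    exact mul_mem (conj_mem_rad' (inv_mem hu) g) hu
  have h2 : Commute (g⁻¹ * (u⁻¹ * g * u)) e := by
    apply h _ hw
    exact ((Commute.refl g).inv_right.mul_right h1).symm
  have h3 : Commute (u⁻¹ * g * u) e := by
    have := hge.mul_left h2
    rwa [mul_inv_cancel_left] at this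
  have h4 : Commute g (u * e * u⁻¹) := by
    change g * (u * e * u⁻¹) = u * e * u⁻¹ * g
    have := h3.eq
    calc g * (u * e * u⁻¹) = u * ((u⁻¹ * g * u) * e) * u⁻¹ := by group
      _ = u * (e * (u⁻¹ * g * u)) * u⁻¹ := by rw [this]
      _ = u * e * u⁻¹ * g := by group
  have hv : u * e * u⁻¹ * e⁻¹ ∈ Rad 3 G := by
    have : u * e * u⁻¹ * e⁻¹ = u * (e * u⁻¹ * e⁻¹) := by group
    rw [this]
    exact mul_mem hu (conj_mem_rad (inv_mem hu) e)
  have h5 : Commute (u * e * u⁻¹ * e⁻¹) e := by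
    apply h _ hv
    exact (h4.mul_right hge.inv_right).symm
  have h6 : (u * e * u⁻¹ * e⁻¹) ^ 4 = 1 := by
    have h7 : (u * e * u⁻¹ * e⁻¹ * e) ^ 4 = 1 := by
      rw [inv_mul_cancel_right]
      exact conj_pow_one he
    rw [h5.mul_pow, he, mul_one] at h7
    exact h7
  have h8 : u * e * u⁻¹ * e⁻¹ = 1 := eq_one_of_coprime (by norm_num) h6 hv.1
  rw [mul_inv_eq_one, mul_inv_eq_iff_eq_mul] at h8
  exact h8

theorem ab4_step {a e : G} (ha : a ^ 2 = 1) (he : e ^ 3 = 1) (hae : Commute a e)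
    (h : ∀ u ∈ Rad 4 G, Commute u a → Commute u e) {q : G} (hq : q ∈ Rad 4 G)
    (hw : Commute (q⁻¹ * (a * q * a)) e) : Commute q e := by
  have haa : a * a = 1 := by rw [← pow_two, ha]
  have hv : q * e * q⁻¹ * e⁻¹ ∈ Rad 4 G := by
    have : q * e * q⁻¹ * e⁻¹ = q * (e * q⁻¹ * e⁻¹) := by group
    rw [this]
    exact mul_mem hq (conj_mem_rad (inv_mem hq) e)
  have h1 : a * q * a = q * (q⁻¹ * (a * q * a)) := by group
  set w := q⁻¹ * (a * q * a) with hwdef
  have h2 : Commute (q * e * q⁻¹ * e⁻¹) a := by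
    have e1 : a * (q * e * q⁻¹ * e⁻¹) * a = (a * q * a) * e * (a * q * a)⁻¹ * e⁻¹ := by
      have ha' : a⁻¹ = a := by rw [inv_eq_iff_mul_eq_one, haa]
      have h3 : a * e * a = e := by rw [hae.eq, mul_assoc, haa, mul_one]
      have h4 : a * e⁻¹ * a = e⁻¹ := by rw [hae.inv_right.eq, mul_assoc, haa, mul_one]
      calc a * (q * e * q⁻¹ * e⁻¹) * a
          = a * q * (a * a) * e * (a * a) * q⁻¹ * (a * a) * e⁻¹ * a := by
            rw [haa]; simp only [mul_one, mul_assoc]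
        _ = (a * q * a) * (a * e * a) * (a * q⁻¹ * a) * (a * e⁻¹ * a) := by
            simp only [mul_assoc]
        _ = (a * q * a) * e * (a * q⁻¹ * a) * e⁻¹ := by rw [h3, h4]
        _ = (a * q * a) * e * (a * q * a)⁻¹ * e⁻¹ := by
            rw [mul_inv_rev, mul_inv_rev, ha']
            simp only [mul_assoc]
    have e2 : (a * q * a) * e * (a * q * a)⁻¹ * e⁻¹ = q * e * q⁻¹ * e⁻¹ := by
      rw [h1]
      have := hw.eq
      calc q * w * e * (q * w)⁻¹ * e⁻¹ = q * (w * e) * w⁻¹ * q⁻¹ * e⁻¹ := by group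
        _ = q * (e * w) * w⁻¹ * q⁻¹ * e⁻¹ := by rw [this]
        _ = q * e * q⁻¹ * e⁻¹ := by group
    rw [e2] at e1
    change q * e * q⁻¹ * e⁻¹ * a = a * (q * e * q⁻¹ * e⁻¹)
    calc q * e * q⁻¹ * e⁻¹ * a = a * (q * e * q⁻¹ * e⁻¹) * a * a := by rw [e1]
      _ = a * (q * e * q⁻¹ * e⁻¹) := by rw [mul_assoc _ a a, haa, mul_one]
  have h5 : Commute (q * e * q⁻¹ * e⁻¹) e := h _ hv h2
  have h6 : (q * e * q⁻¹ * e⁻¹) ^ 3 = 1 := by
    have h7 : (q * e * q⁻¹ * e⁻¹ * e) ^ 3 = 1 := by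
      rw [inv_mul_cancel_right]
      exact conj_pow_one he
    rw [h5.mul_pow, he, mul_one] at h7
    exact h7
  have h8 : q * e * q⁻¹ * e⁻¹ = 1 := eq_one_of_coprime (by norm_num) h6 hv.1
  rw [mul_inv_eq_one, mul_inv_eq_iff_eq_mul] at h8
  exact h8

/-- `A × B` lemma, exponent four and an involution -/
theorem ab4 {a e : G} (ha : a ^ 2 = 1) (he : e ^ 3 = 1) (hae : Commute a e)
    (h : ∀ u ∈ Rad 4 G, Commute u a → Commute u e) : ∀ u ∈ Rad 4 G, Commute u e := by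
  intro q hq
  have haa : a * a = 1 := by rw [← pow_two, ha]
  have ha' : a⁻¹ = a := by rw [inv_eq_iff_mul_eq_one, haa]
  apply ab4_step ha he hae h hq
  have hw : q⁻¹ * (a * q * a) ∈ Rad 4 G := by
    have := conj_mem_rad hq a
    rw [ha'] at this
    exact mul_mem (inv_mem hq) this
  have hinv : a * (q⁻¹ * (a * q * a)) * a = (q⁻¹ * (a * q * a))⁻¹ := by
    rw [mul_inv_rev, mul_inv_rev, mul_inv_rev, ha', inv_inv]
    calc a * (q⁻¹ * (a * q * a)) * a = a * q⁻¹ * a * q * (a * a) := by simp only [mul_assoc]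
      _ = a * (q⁻¹ * a) * q := by rw [haa, mul_one]; simp only [mul_assoc]
  set w := q⁻¹ * (a * q * a) with hwdef
  apply ab4_step ha he hae h hw
  have h1 : w⁻¹ * (a * w * a) = (w ^ 2)⁻¹ := by
    rw [hinv, pow_two, mul_inv_rev w w]
  rw [h1]
  apply Commute.inv_left
  apply h _ (pow_mem hw 2)
  have h2 : a * w ^ 2 * a = w ^ 2 := by
    have : a * w ^ 2 * a = (a * w * a) * (a * w * a) := by
      rw [pow_two]
      calc a * (w * w) * a = a * w * (a * a) * w * a := by rw [haa]; simp only [mul_one, mul_assoc]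
        _ = (a * w * a) * (a * w * a) := by simp only [mul_assoc]
    rw [this, hinv, ← mul_inv_rev, ← pow_two, inv_eq_iff_mul_eq_one, ← pow_add]
    exact hw.1
  change w ^ 2 * a = a * w ^ 2
  calc w ^ 2 * a = a * w ^ 2 * a * a := by rw [h2]
    _ = a * w ^ 2 := by rw [mul_assoc _ a a, haa, mul_one]

end Pool.Agent.W629.Tw
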