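import Mathlib
import Pool.Agent.W629.Tw.Basic
import Pool.Agent.W629.TwiceLF

set_option autoImplicit false

/-!
# Groups of exponent twelve with finite two-generator subgroups: centralisers
-/

namespace Pool.Agent.W629.Tw

open Pool.Agent.W629 Subgroup

/-- all two-generator subgroups are finite -/
def BF (G : Type) [Group G] : Prop := ∀ x y : G, Finite (closure {x, y})

/-- exponent dividing twelve -/
def E12 (G : Type) [Group G] : Prop := ∀ x : G, x ^ 12 = 1

variable {G : Type} [Group G]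

theorem E12.sub (h : E12 G) (K : Subgroup G) : E12 K := exp_sub h K
theorem E12.quo (h : E12 G) (N : Subgroup G) [N.Normal] : E12 (G ⧸ N) := exp_quot h N

theorem E12.h43 (h : E12 G) : ∀ x : G, x ^ (4 * 3) = 1 := h
theorem E12.h34 (h : E12 G) : ∀ x : G, x ^ (3 * 4) = 1 := h

theorem E12.solv (h : E12 G) [Finite G] : Group.IsSolvable G :=
  solv_of_exp 2 3 2 1 Nat.prime_two Nat.prime_three h

theorem cop43 : Nat.Coprime 4 3 := by norm_num
theorem cop34 : Nat.Coprime 3 4 := by norm_num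

theorem E12.p9 (h : E12 G) (x : G) : (x ^ 9) ^ 4 = 1 := by
  rw [← pow_mul, show 9 * 4 = 12 * 3 by norm_num, pow_mul, h, one_pow]

theorem E12.p4 (h : E12 G) (x : G) : (x ^ 4) ^ 3 = 1 := by
  rw [← pow_mul]; exact h x

theorem pow9 {x : G} (hx : x ^ 4 = 1) : x ^ 9 = x := by
  rw [show 9 = 4 * 2 + 1 by norm_num, pow_succ, pow_mul, hx, one_pow, one_mul]

theorem pow4 {x : G} (hx : x ^ 3 = 1) : x ^ 4 = x := by
  rw [show 4 = 3 + 1 by norm_num, pow_succ, hx, one_mul]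

theorem four_of_two {x : G} (hx : x ^ 2 = 1) : x ^ 4 = 1 := by
  rw [show 4 = 2 * 2 by norm_num, pow_mul, hx, one_pow]

theorem eq_one_43 {x : G} (h4 : x ^ 4 = 1) (h3 : x ^ 3 = 1) : x = 1 :=
  eq_one_of_coprime cop43 h4 h3

/-- `x ^ 4` has trivial fourth power only if... : the exponent of an element which is a
`4`-element modulo a normal subgroup of exponent `4` -/
theorem E12.four_of_mem (h : E12 G) (N : Subgroup G) (hN : ∀ x ∈ N, x ^ 4 = 1) {x : G}
    (hx : x ^ 4 ∈ N) : x ^ 4 = 1 := pow_a_of cop43 (h x) (hN _ hx)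

theorem E12.three_of_mem (h : E12 G) (N : Subgroup G) (hN : ∀ x ∈ N, x ^ 3 = 1) {x : G}
    (hx : x ^ 3 ∈ N) : x ^ 3 = 1 := pow_a_of cop34 (h x) (hN _ hx)

theorem ndvd3 (N : Subgroup G) [Finite N] (h : ∀ x ∈ N, x ^ 4 = 1) : ¬ 3 ∣ Nat.card N :=
  not_dvd_card Nat.prime_three (by norm_num) N h

theorem ndvd2 (N : Subgroup G) [Finite N] (h : ∀ x ∈ N, x ^ 3 = 1) : ¬ 2 ∣ Nat.card N :=
  not_dvd_card Nat.prime_two (by norm_num) N h

/-- membership in `Rad 4` of a finite group -/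
theorem E12.mem_rad4 [Finite G] (h : E12 G) {x : G} (hx : x ^ 4 = 1)
    (hc : ∀ u ∈ Rad 3 (G ⧸ Rad 4 G), Commute (x : G ⧸ Rad 4 G) u) : x ∈ Rad 4 G :=
  mem_rad_of cop43 h.h43 h.solv hx hc

theorem E12.mem_rad3 [Finite G] (h : E12 G) {x : G} (hx : x ^ 3 = 1)
    (hc : ∀ u ∈ Rad 4 (G ⧸ Rad 3 G), Commute (x : G ⧸ Rad 3 G) u) : x ∈ Rad 3 G :=
  mem_rad_of cop34 h.h34 h.solv hx hc

theorem mk_pow_one {N : Subgroup G} [N.Normal] {x : G} {k : ℕ} (h : x ^ k = 1) :
    (x : G ⧸ N) ^ k = 1 := by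
  rw [← QuotientGroup.mk_pow, h]; rfl

theorem mk_comm {N : Subgroup G} [N.Normal] {x y : G} (h : Commute x y) :
    Commute (x : G ⧸ N) (y : G ⧸ N) := by
  change (x : G ⧸ N) * y = y * x
  rw [← QuotientGroup.mk_mul, h.eq, QuotientGroup.mk_mul]

/-- lifting of elements commuting with a `3`-element modulo a normal `2`-subgroup -/
theorem lift3 (N : Subgroup G) [N.Normal] [Finite N] (hN : ∀ x ∈ N, x ^ 4 = 1) {s : G}
    (hs : s ^ 3 = 1) {u : G ⧸ N} (h : Commute u (s : G ⧸ N)) :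
    ∃ w : G, Commute w s ∧ (w : G ⧸ N) = u :=
  lift_comm (k := 1) Nat.prime_three N (ndvd3 N hN) (by simpa using hs) h

theorem lift3c (N : Subgroup G) [N.Normal] [Finite N] (hN : ∀ x ∈ N, x ^ 4 = 1) {s s' : G}
    (hs : s ^ 3 = 1) (hs' : s' ^ 3 = 1) {u : G ⧸ N} (h : u⁻¹ * (s : G ⧸ N) * u = s') :
    ∃ w : G, w⁻¹ * s * w = s' ∧ (w : G ⧸ N) = u :=
  lift_conj (k := 1) Nat.prime_three N (ndvd3 N hN) (by simpa using hs) (by simpa using hs') h

theorem lift2 (N : Subgroup G) [N.Normal] [Finite N] (hN : ∀ x ∈ N, x ^ 3 = 1) {s : G}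
    (hs : s ^ 2 = 1) {u : G ⧸ N} (h : Commute u (s : G ⧸ N)) :
    ∃ w : G, Commute w s ∧ (w : G ⧸ N) = u :=
  lift_comm (k := 1) Nat.prime_two N (ndvd2 N hN) (by simpa using hs) h

theorem lift2c (N : Subgroup G) [N.Normal] [Finite N] (hN : ∀ x ∈ N, x ^ 3 = 1) {s s' : G}
    (hs : s ^ 2 = 1) (hs' : s' ^ 2 = 1) {u : G ⧸ N} (h : u⁻¹ * (s : G ⧸ N) * u = s') :
    ∃ w : G, w⁻¹ * s * w = s' ∧ (w : G ⧸ N) = u :=
  lift_conj (k := 1) Nat.prime_two N (ndvd2 N hN) (by simpa using hs) (by simpa using hs') h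

/-! ### Relative radicals -/

/-- the radical of a subgroup as a subgroup of the whole group -/
def RK (r : ℕ) (K : Subgroup G) : Subgroup G := (Rad r K).map K.subtype

theorem mem_RK {r : ℕ} {K : Subgroup G} {x : G} :
    x ∈ RK r K ↔ ∃ hx : x ∈ K, (⟨x, hx⟩ : K) ∈ Rad r K := by
  constructor
  · rintro ⟨y, hy, rfl⟩
    exact ⟨y.2, hy⟩
  · rintro ⟨hx, h⟩
    exact ⟨⟨x, hx⟩, h, rfl⟩

theorem RK_le {r : ℕ} {K : Subgroup G} : RK r K ≤ K := by
  rintro x hx
  exact (mem_RK.1 hx).1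

theorem RK_pow {r : ℕ} {K : Subgroup G} {x : G} (hx : x ∈ RK r K) : x ^ r = 1 := by
  obtain ⟨hx, h⟩ := mem_RK.1 hx
  have := congrArg Subtype.val h.1
  simpa using this

theorem RK_mul {r : ℕ} {K : Subgroup G} {x z : G} (hx : x ∈ RK r K) (hz : z ∈ K)
    (hz' : z ^ r = 1) : (x * z) ^ r = 1 := by
  obtain ⟨hx, h⟩ := mem_RK.1 hx
  have := congrArg Subtype.val (h.2 ⟨z, hz⟩ (Subtype.ext (by simpa using hz')))
  simpa using this

theorem RK_conj {r : ℕ} {K : Subgroup G} {x g : G} (hx : x ∈ RK r K) (hg : g ∈ K) :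
    g * x * g⁻¹ ∈ RK r K := by
  obtain ⟨hx, h⟩ := mem_RK.1 hx
  exact mem_RK.2 ⟨mul_mem (mul_mem hg hx) (inv_mem hg), conj_mem_rad h ⟨g, hg⟩⟩

theorem RK_conj' {r : ℕ} {K : Subgroup G} {x g : G} (hx : x ∈ RK r K) (hg : g ∈ K) :
    g⁻¹ * x * g ∈ RK r K := by
  have := RK_conj hx (inv_mem hg)
  rwa [inv_inv] at this

/-- an element of `K` outside the radical of `G` because of an element of `K` -/
theorem mem_RK_top {r : ℕ} {x : G} : x ∈ RK r (⊤ : Subgroup G) ↔ x ∈ Rad r G := by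
  constructor
  · intro hx
    exact ⟨RK_pow hx, fun z hz => RK_mul hx (mem_top z) hz⟩
  · intro hx
    exact mem_RK.2 ⟨mem_top x, rad_sub ⊤ ⟨x, mem_top x⟩ hx⟩

/-! ### The theorem on centralisers -/

theorem mem_of_mul_pow {K : Subgroup G} {g e : G} (hg : g ^ 3 = 1) (he : e ^ 4 = 1)
    (hge : Commute g e) (h : g * e ∈ K) : g ∈ K ∧ e ∈ K := by
  constructor
  · have h1 : (g * e) ^ 4 ∈ K := pow_mem h 4
    rwa [hge.mul_pow, he, mul_one, pow4 hg] at h1
  · have h1 : (g * e) ^ 9 ∈ K := pow_mem h 9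
    rwa [hge.mul_pow, pow9 he, show 9 = 3 * 3 by norm_num, pow_mul, hg, one_pow, one_mul] at h1

theorem comm_of_pow {r t : ℕ} (hrt : Nat.Coprime r t) {E W : G} (hW : W ∈ Rad r G)
    (h1 : (E⁻¹ * (W⁻¹ * E * W)) ^ t = 1) : Commute W E := by
  have h2 : E⁻¹ * (W⁻¹ * E * W) ∈ Rad r G := by
    have : E⁻¹ * (W⁻¹ * E * W) = (E⁻¹ * W⁻¹ * E) * W := by group
    rw [this]
    exact mul_mem (conj_mem_rad' (inv_mem hW) _) hW
  have h3 := eq_one_of_coprime hrt h2.1 h1
  rw [inv_mul_eq_one] at h3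
  change W * E = E * W
  calc W * E = W * (W⁻¹ * E * W) := by rw [← h3]
    _ = E * W := by group

/-- the finite form: `e` is a `2`-element commuting with the `3`-element `g` -/
theorem T3a_fin [Finite G] (h : E12 G) {g e : G} (hg : g ^ 3 = 1) (he : e ^ 4 = 1)
    (hge : Commute g e) (hc : ∀ x : G, Commute x g → (e⁻¹ * (x⁻¹ * e * x)) ^ 4 = 1) :
    e ∈ Rad 4 G := by
  refine h.mem_rad4 he fun u hu => ?_
  refine (ab3 (mk_pow_one hg) (mk_pow_one he) (mk_comm hge) (fun u hu hug => ?_) u hu).symm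
  obtain ⟨w, hw, rfl⟩ := lift3 (Rad 4 G) (fun x hx => hx.1) hg hug
  refine comm_of_pow cop34 hu ?_
  have := mk_pow_one (N := Rad 4 G) (hc w hw)
  simpa only [QuotientGroup.mk_mul, QuotientGroup.mk_inv] using this

/-- the finite form: `e` is a `3`-element commuting with the involution `a` -/
theorem T3b_fin [Finite G] (h : E12 G) {a e : G} (ha : a ^ 2 = 1) (he : e ^ 3 = 1)
    (hae : Commute a e) (hc : ∀ x : G, Commute x a → (e⁻¹ * (x⁻¹ * e * x)) ^ 3 = 1) :
    e ∈ Rad 3 G := by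
  refine h.mem_rad3 he fun u hu => ?_
  refine (ab4 (mk_pow_one ha) (mk_pow_one he) (mk_comm hae) (fun u hu hug => ?_) u hu).symm
  obtain ⟨w, hw, rfl⟩ := lift2 (Rad 3 G) (fun x hx => hx.1) ha hug
  refine comm_of_pow cop43 hu ?_
  have := mk_pow_one (N := Rad 3 G) (hc w hw)
  simpa only [QuotientGroup.mk_mul, QuotientGroup.mk_inv] using this

/-- commutators in the radical of a centraliser -/
theorem cent_comm {r : ℕ} {g e x : G} (he : e ∈ RK r (centralizer {g})) (hx : Commute x g) :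
    (e⁻¹ * (x⁻¹ * e * x)) ^ r = 1 := by
  have hx' : x ∈ centralizer {g} := by
    rw [mem_centralizer_singleton_iff]
    exact hx.eq
  have h2 : e⁻¹ * (x⁻¹ * e * x) ∈ RK r (centralizer {g}) := mul_mem (inv_mem he) (RK_conj' he hx')
  exact RK_pow h2

theorem mem_cent {g x : G} : x ∈ centralizer {g} ↔ Commute x g := by
  rw [mem_centralizer_singleton_iff]
  exact Iff.rfl

/-- `Rad 4` of the centraliser of a `3`-element lies in `Rad 4 G` -/
theorem T3a (hB : BF G) (h : E12 G) {g e : G} (hg : g ^ 3 = 1)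
    (he : e ∈ RK 4 (centralizer {g})) : e ∈ Rad 4 G := by
  have he4 := RK_pow he
  have hge : Commute g e := (mem_cent.1 (RK_le he)).symm
  refine ⟨he4, fun z hz => ?_⟩
  have hK : Finite (closure {g * e, z}) := hB _ _
  set K : Subgroup G := closure {g * e, z} with hKdef
  have h1 : g * e ∈ K := subset_closure (by simp)
  have hzK : z ∈ K := subset_closure (by simp)
  obtain ⟨hgK, heK⟩ := mem_of_mul_pow hg he4 hge h1
  have h2 : (⟨e, heK⟩ : K) ∈ Rad 4 K := by
    refine T3a_fin (h.sub K) (g := ⟨g, hgK⟩) (Subtype.ext (by simpa using hg))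
      (Subtype.ext (by simpa using he4)) (Subtype.ext hge.eq) ?_
    rintro ⟨x, hx⟩ hxg
    have hxg' : Commute x g := congrArg Subtype.val hxg
    exact Subtype.ext (by simpa using cent_comm he hxg')
  exact RK_mul (mem_RK.2 ⟨heK, h2⟩) hzK hz

/-- `Rad 3` of the centraliser of an involution lies in `Rad 3 G` -/
theorem T3b (hB : BF G) (h : E12 G) {a e : G} (ha : a ^ 2 = 1)
    (he : e ∈ RK 3 (centralizer {a})) : e ∈ Rad 3 G := by
  have he3 := RK_pow he
  have hae : Commute e a := mem_cent.1 (RK_le he)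
  refine ⟨he3, fun z hz => ?_⟩
  have hK : Finite (closure {e * a, z}) := hB _ _
  set K : Subgroup G := closure {e * a, z} with hKdef
  have h1 : e * a ∈ K := subset_closure (by simp)
  have hzK : z ∈ K := subset_closure (by simp)
  obtain ⟨heK, haK⟩ := mem_of_mul_pow he3 (four_of_two ha) hae h1
  have h2 : (⟨e, heK⟩ : K) ∈ Rad 3 K := by
    refine T3b_fin (h.sub K) (a := ⟨a, haK⟩) (Subtype.ext (by simpa using ha))
      (Subtype.ext (by simpa using he3)) (Subtype.ext hae.symm.eq) ?_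
    rintro ⟨x, hx⟩ hxg
    have hxg' : Commute x a := congrArg Subtype.val hxg
    exact Subtype.ext (by simpa using cent_comm he hxg')
  exact RK_mul (mem_RK.2 ⟨heK, h2⟩) hzK hz

/-- `T4`: a `2`-element `τ` commuting with `s` which lies in `Rad 4` of all finite subgroups
containing `s` and `y` -/
theorem T4 (hB : BF G) (h : E12 G) {s y τ : G} (hs : s ^ 3 = 1) (hτ : Commute τ s)
    (hall : ∀ K : Subgroup G, Finite K → s ∈ K → y ∈ K → τ ∈ RK 4 K) : τ ∈ Rad 4 G := by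
  apply T3a hB h hs
  refine mem_RK.2 ⟨mem_cent.2 hτ, ?_, ?_⟩
  · have := RK_pow (hall (closure {s, y}) (hB _ _) (subset_closure (by simp))
      (subset_closure (by simp)))
    exact Subtype.ext (by simpa using this)
  · rintro ⟨z, hz⟩ hz4
    have hz4' : z ^ 4 = 1 := by simpa using congrArg Subtype.val hz4
    have hzs : Commute s z := (mem_cent.1 hz).symm
    have hK : Finite (closure {s * z, y}) := hB _ _
    have h1 : s * z ∈ closure {s * z, y} := subset_closure (by simp)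
    have hyK : y ∈ closure {s * z, y} := subset_closure (by simp)
    obtain ⟨hsK, hzK⟩ := mem_of_mul_pow hs hz4' hzs h1
    have := RK_mul (hall _ hK hsK hyK) hzK hz4'
    exact Subtype.ext (by simpa using this)

end Pool.Agent.W629.Tw
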