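import Mathlib
import Pool.Agent.W629.Tw.Twelve

set_option autoImplicit false

/-!
# Involutions acting on `Rad 3`, alternating groups of degree four
-/

namespace Pool.Agent.W629.Tw

open Pool.Agent.W629 Subgroup

variable {G : Type} [Group G]

theorem sq_mul {e : G} (he : e ^ 2 = 1) : e * e = 1 := by rw [← pow_two, he]

theorem sq_inv {e : G} (he : e ^ 2 = 1) : e⁻¹ = e := by
  rw [inv_eq_iff_mul_eq_one, sq_mul he]

theorem cmul {e : G} (he : e ^ 2 = 1) (x y : G) : e * (x * y) * e = (e * x * e) * (e * y * e) := by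
  calc e * (x * y) * e = e * x * (e * e) * y * e := by
        rw [sq_mul he]; simp only [mul_one, mul_assoc]
    _ = (e * x * e) * (e * y * e) := by simp only [mul_assoc]

theorem cinv {e : G} (he : e ^ 2 = 1) (x : G) : e * x⁻¹ * e = (e * x * e)⁻¹ := by
  rw [mul_inv_rev, mul_inv_rev, sq_inv he]
  simp only [mul_assoc]

theorem ccc {e : G} (he : e ^ 2 = 1) (x : G) : e * (e * x * e) * e = x := by
  calc e * (e * x * e) * e = (e * e) * x * (e * e) := by simp only [mul_assoc]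
    _ = x := by rw [sq_mul he]; simp

theorem cpow {e : G} (he : e ^ 2 = 1) (x : G) (n : ℕ) : e * x ^ n * e = (e * x * e) ^ n := by
  induction n with
  | zero => simp [sq_mul he]
  | succ n ih => rw [pow_succ, cmul he, ih, ← pow_succ]

theorem c_mem_rad {r : ℕ} {e x : G} (he : e ^ 2 = 1) (hx : x ∈ Rad r G) : e * x * e ∈ Rad r G := by
  have := conj_mem_rad hx e
  rwa [sq_inv he] at this

theorem comm_iff_c {e : G} (he : e ^ 2 = 1) {x : G} : Commute x e ↔ e * x * e = x := by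
  constructor
  · intro h
    rw [← h.eq, mul_assoc, sq_mul he, mul_one]
  · intro h
    change x * e = e * x
    calc x * e = e * x * e * e := by rw [h]
      _ = e * x := by rw [mul_assoc, sq_mul he, mul_one]

theorem cev {e : G} (he : e ^ 2 = 1) (u : G) :
    e * (u⁻¹ * (e * u * e)) * e = (u⁻¹ * (e * u * e))⁻¹ := by
  rw [cmul he, ccc he, cinv he, mul_inv_rev u⁻¹, inv_inv]

/-- eigenvectors of two commuting involutions -/
theorem ev0 {e f v : G} (he : e ^ 2 = 1) (hf : f ^ 2 = 1) (hef : Commute e f) (hv : v ∈ Rad 3 G)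
    (hev : e * v * e = v⁻¹) :
    ∃ r ∈ Rad 3 G, e * r * e = r⁻¹ ∧ f * r * f = r ∧ (r = 1 → f * v * f = v⁻¹) := by
  obtain ⟨v', hv'⟩ : ∃ v', v' = f * v * f := ⟨_, rfl⟩
  obtain ⟨c, hc⟩ : ∃ c, c = v⁻¹ * v'⁻¹ * v * v' := ⟨_, rfl⟩
  have hv'm : v' ∈ Rad 3 G := by rw [hv']; exact c_mem_rad hf hv
  have h1 : Commute v (v'⁻¹ * v * v') := comm_conj_rad hv.1 hv.1 (Commute.refl v) hv'm
  have h2 : Commute v' (v⁻¹ * v' * v) := comm_conj_rad hv'm.1 hv'm.1 (Commute.refl v') hv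
  have h3 : Commute v c := by
    have : c = v⁻¹ * (v'⁻¹ * v * v') := by rw [hc]; group
    rw [this]
    exact (Commute.refl v).inv_right.mul_right h1
  have h4 : Commute v' c := by
    have : c = (v⁻¹ * v' * v)⁻¹ * v' := by rw [hc]; group
    rw [this]
    exact h2.inv_right.mul_right (Commute.refl v')
  have hcm : c ∈ Rad 3 G := by
    rw [hc]
    exact mul_mem (mul_mem (mul_mem (inv_mem hv) (inv_mem hv'm)) hv) hv'm
  have hcc : c⁻¹ * c⁻¹ = c := by
    have := hcm.1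
    rw [← mul_inv_rev, inv_eq_iff_mul_eq_one]
    simpa [pow_succ, mul_assoc] using this
  have hvv : v * v' = v' * v * c := by rw [hc]; group
  have hev' : e * v' * e = v'⁻¹ := by
    rw [hv']
    calc e * (f * v * f) * e = (e * f) * v * (f * e) := by simp only [mul_assoc]
      _ = (f * e) * v * (e * f) := by rw [hef.eq]
      _ = f * (e * v * e) * f := by simp only [mul_assoc]
      _ = f * v⁻¹ * f := by rw [hev]
      _ = (f * v * f)⁻¹ := cinv hf v
  have hfv' : f * v' * f = v := by rw [hv', ccc hf]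
  have hec : e * c * e = c := by
    have e1 : e * c * e = v * v' * v⁻¹ * v'⁻¹ := by
      conv_lhs => rw [hc]
      rw [cmul he, cmul he, cmul he, cinv he, cinv he, hev, hev', inv_inv, inv_inv]
    rw [e1, hvv]
    calc v' * v * c * v⁻¹ * v'⁻¹ = v' * v * (c * v⁻¹) * v'⁻¹ := by simp only [mul_assoc]
      _ = v' * v * (v⁻¹ * c) * v'⁻¹ := by rw [h3.inv_left.eq]
      _ = v' * (c * v'⁻¹) := by group
      _ = v' * (v'⁻¹ * c) := by rw [h4.inv_left.eq]
      _ = c := by group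
  have hfc : f * c * f = c⁻¹ := by
    conv_lhs => rw [hc]
    rw [cmul hf, cmul hf, cmul hf, cinv hf, cinv hf, hfv', ← hv', hc]
    group
  refine ⟨v * v' * c, mul_mem (mul_mem hv hv'm) hcm, ?_, ?_, ?_⟩
  · rw [cmul he, cmul he, hev, hev', hec]
    have e1 : (v * v' * c)⁻¹ = c⁻¹ * c⁻¹ * (v⁻¹ * v'⁻¹) := by
      rw [hvv]
      group
    rw [e1, hcc]
    have h5 : Commute (v⁻¹ * v'⁻¹) c := h3.inv_left.mul_left h4.inv_left
    exact h5.eq
  · rw [cmul hf, cmul hf, ← hv', hfv', hfc]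
    have e1 : v' * v = v * v' * c⁻¹ := by rw [hvv]; group
    rw [e1, mul_assoc (v * v'), hcc]
  · intro hr
    have e1 : v' = v⁻¹ * c⁻¹ := by
      have : v * v' * c * (c⁻¹) = v * v' := by group
      rw [hr, one_mul] at this
      calc v' = v⁻¹ * (v * v') := by group
        _ = v⁻¹ * c⁻¹ := by rw [← this]
    have e2 : Commute v v' := by
      rw [e1]
      exact (Commute.refl v).inv_right.mul_right h3.inv_right
    have e3 : c = 1 := by
      rw [hc]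
      have := e2.eq
      calc v⁻¹ * v'⁻¹ * v * v' = v⁻¹ * v'⁻¹ * (v * v') := by group
        _ = v⁻¹ * v'⁻¹ * (v' * v) := by rw [this]
        _ = 1 := by group
    rw [← hv', e1, e3, inv_one, mul_one]

/-- choice of an eigenvector -/
theorem ev {e f u : G} (he : e ^ 2 = 1) (hf : f ^ 2 = 1) (hef : Commute e f) (hu : u ∈ Rad 3 G)
    (hn : ¬ Commute u e) :
    ∃ r ∈ Rad 3 G, r ≠ 1 ∧ e * r * e = r⁻¹ ∧ (f * r * f = r ∨ (e * f) * r * (e * f) = r) := by
  have hv : u⁻¹ * (e * u * e) ∈ Rad 3 G := mul_mem (inv_mem hu) (c_mem_rad he hu)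
  have hev : e * (u⁻¹ * (e * u * e)) * e = (u⁻¹ * (e * u * e))⁻¹ := cev he u
  have hv1 : u⁻¹ * (e * u * e) ≠ 1 := by
    intro h
    apply hn
    rw [comm_iff_c he]
    rw [inv_mul_eq_one] at h
    exact h.symm
  obtain ⟨r, hr, h1, h2, h3⟩ := ev0 he hf hef hv hev
  by_cases hr1 : r = 1
  · refine ⟨_, hv, hv1, hev, Or.inr ?_⟩
    have h4 := h3 hr1
    calc (e * f) * (u⁻¹ * (e * u * e)) * (e * f) = (e * f) * (u⁻¹ * (e * u * e)) * (f * e) := by
          rw [hef.eq]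
      _ = e * (f * (u⁻¹ * (e * u * e)) * f) * e := by simp only [mul_assoc]
      _ = e * (u⁻¹ * (e * u * e))⁻¹ * e := by rw [h4]
      _ = u⁻¹ * (e * u * e) := by rw [cinv he, hev, inv_inv]
  · exact ⟨r, hr, hr1, h1, Or.inl h2⟩

/-- the elements `t`, `x` satisfy the relations of the alternating group of degree four -/
def A4 (t x : G) : Prop := t ^ 2 = 1 ∧ x ^ 3 = 1 ∧ (t * x) ^ 3 = 1

theorem A4.rel {t x : G} (h : A4 t x) : t * (x * t * x⁻¹) * (x⁻¹ * t * x) = 1 := rel3 h.2.1 h.2.2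

theorem A4.sq2 {t x : G} (h : A4 t x) : (x⁻¹ * t * x) ^ 2 = 1 := conj_pow_one' h.1
theorem A4.sq3 {t x : G} (h : A4 t x) : (x * t * x⁻¹) ^ 2 = 1 := conj_pow_one h.1

theorem A4.e3 {t x : G} (h : A4 t x) : x * t * x⁻¹ = t * (x⁻¹ * t * x) := by
  have h1 := h.rel
  have h2 : t * (x * t * x⁻¹) = (x⁻¹ * t * x)⁻¹ := mul_eq_one_iff_eq_inv.1 h1
  rw [sq_inv h.sq2] at h2
  calc x * t * x⁻¹ = (t * t) * (x * t * x⁻¹) := by rw [sq_mul h.1, one_mul]
    _ = t * (t * (x * t * x⁻¹)) := by simp only [mul_assoc]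
    _ = t * (x⁻¹ * t * x) := by rw [h2]

theorem A4.comm {t x : G} (h : A4 t x) : Commute t (x⁻¹ * t * x) := by
  have h1 := h.sq3
  rw [h.e3] at h1
  exact invol_mul_comm h.1 h.sq2 h1

theorem A4.conj {t x : G} (h : A4 t x) : A4 (x⁻¹ * t * x) x := by
  refine ⟨h.sq2, h.2.1, ?_⟩
  have : x⁻¹ * t * x * x = x⁻¹ * (t * x) * x := by group
  rw [this]
  exact conj_pow_one' h.2.2

theorem A4.conj' {t x : G} (h : A4 t x) : A4 (x * t * x⁻¹) x := by
  refine ⟨h.sq3, h.2.1, ?_⟩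
  have : x * t * x⁻¹ * x = x * (t * x) * x⁻¹ := by group
  rw [this]
  exact conj_pow_one h.2.2

theorem x_inv {x : G} (hx : x ^ 3 = 1) : x⁻¹ = x * x := by
  rw [inv_eq_iff_mul_eq_one, ← mul_assoc]
  simpa [pow_succ] using hx

theorem conj_conj {x : G} (hx : x ^ 3 = 1) (t : G) : x⁻¹ * (x⁻¹ * t * x) * x = x * t * x⁻¹ := by
  have h1 := x_inv hx
  calc x⁻¹ * (x⁻¹ * t * x) * x = (x * x)⁻¹ * t * (x * x) := by group
    _ = x * t * x⁻¹ := by rw [← h1, inv_inv]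

theorem conj_conj' {x : G} (hx : x ^ 3 = 1) (t : G) : x * (x * t * x⁻¹) * x⁻¹ = x⁻¹ * t * x := by
  have h1 := x_inv hx
  calc x * (x * t * x⁻¹) * x⁻¹ = (x * x) * t * (x * x)⁻¹ := by group
    _ = x⁻¹ * t * x := by rw [← h1, inv_inv]

/-- an element of `Rad 3` fixed by one and inverted by another involution of a group `A4` -/
theorem A4.core0 {t x r : G} (h : A4 t x) (hr : r ∈ Rad 3 G) (h1 : t * r * t = r⁻¹)
    (h2 : Commute r (x⁻¹ * t * x)) : r = 1 := by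
  obtain ⟨t2, ht2⟩ : ∃ t2, t2 = x⁻¹ * t * x := ⟨_, rfl⟩
  have ht2s : t2 ^ 2 = 1 := by rw [ht2]; exact h.sq2
  rw [← ht2] at h2
  have hx3 := h.2.1
  -- `r' = x⁻¹ r x`, `r'' = x r x⁻¹`
  obtain ⟨r', hr'⟩ : ∃ r', r' = x⁻¹ * r * x := ⟨_, rfl⟩
  obtain ⟨r'', hr''⟩ : ∃ r'', r'' = x * r * x⁻¹ := ⟨_, rfl⟩
  have hr'm : r' ∈ Rad 3 G := by rw [hr']; exact conj_mem_rad' hr x
  have rel : r * r'' * r' = 1 := by
    rw [hr', hr'']
    exact rel3 hx3 (rad_mul hr hx3)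
  have rel' : r * r' * r'' = 1 := by
    have h3 := rel3 (x := r) (c := x⁻¹) (by rw [inv_pow, hx3, inv_one])
      (rad_mul hr (by rw [inv_pow, hx3, inv_one]))
    rw [inv_inv] at h3
    rw [hr', hr'']
    exact h3
  -- `t` inverts `r'`: `t = t3 ^ x`, `t3` inverts `r`
  have h3 : t2 * r * t2 = r := (comm_iff_c ht2s).1 h2
  have ht3 : x * t * x⁻¹ = t * t2 := by rw [h.e3, ht2]
  have ht3r : (x * t * x⁻¹) * r * (x * t * x⁻¹) = r⁻¹ := by
    have hc : t * t2 = t2 * t := by rw [ht2]; exact h.comm.eq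
    calc (x * t * x⁻¹) * r * (x * t * x⁻¹) = (t * t2) * r * (t * t2) := by rw [ht3]
      _ = t * (t2 * r * t2) * t := by
        conv_lhs => rw [hc]
        calc t2 * t * r * (t2 * t) = t2 * t * r * (t * t2) := by rw [← hc]
          _ = t2 * (t * r * t) * t2 := by simp only [mul_assoc]
          _ = t2 * r⁻¹ * t2 := by rw [h1]
          _ = (t2 * r * t2)⁻¹ := cinv ht2s r
          _ = r⁻¹ := by rw [h3]
          _ = t * r * t := h1.symm
          _ = t * (t2 * r * t2) * t := by rw [h3]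
      _ = t * r * t := by rw [h3]
      _ = r⁻¹ := h1
  have htr' : t * r' * t = r'⁻¹ := by
    rw [hr']
    calc t * (x⁻¹ * r * x) * t = x⁻¹ * ((x * t * x⁻¹) * r * (x * t * x⁻¹)) * x := by group
      _ = x⁻¹ * r⁻¹ * x := by rw [ht3r]
      _ = (x⁻¹ * r * x)⁻¹ := by group
  have htr'' : t * r'' * t = r'' := by
    rw [hr'']
    calc t * (x * r * x⁻¹) * t = x * ((x⁻¹ * t * x) * r * (x⁻¹ * t * x)) * x⁻¹ := by group
      _ = x * r * x⁻¹ := by rw [← ht2, h3]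
  have ht2r' : t2 * r' * t2 = r'⁻¹ := by
    rw [hr', ht2]
    calc (x⁻¹ * t * x) * (x⁻¹ * r * x) * (x⁻¹ * t * x) = x⁻¹ * (t * r * t) * x := by group
      _ = x⁻¹ * r⁻¹ * x := by rw [h1]
      _ = (x⁻¹ * r * x)⁻¹ := by group
  -- `r'' = r' r` and `r'' = r'⁻¹ r⁻¹`
  have e1 : r'' = r' * r := by
    have h4 : t * (r * r' * r'') * t = 1 := by rw [rel', mul_one, sq_mul h.1]
    rw [cmul h.1, cmul h.1, h1, htr', htr''] at h4
    calc r'' = (r⁻¹ * r'⁻¹)⁻¹ * (r⁻¹ * r'⁻¹ * r'') := by group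
      _ = r' * r := by rw [h4]; group
  have e2 : r'' = r'⁻¹ * r⁻¹ := by
    calc r'' = (r * r')⁻¹ * (r * r' * r'') := by group
      _ = r'⁻¹ * r⁻¹ := by rw [rel']; group
  have e3 : r' * r' = r := by
    have h5 : r' * r = r'⁻¹ * r⁻¹ := by rw [← e1, e2]
    have h6 : r⁻¹ = r * r := x_inv hr.1
    calc r' * r' = r' * (r' * r) * r⁻¹ := by group
      _ = r' * (r'⁻¹ * r⁻¹) * r⁻¹ := by rw [h5]
      _ = r⁻¹ * r⁻¹ := by group
      _ = r⁻¹ * (r * r) := by rw [← h6]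
      _ = r := by group
  have e4 : r' = r⁻¹ := by
    rw [← e3, mul_inv_rev, x_inv hr'm.1]
    have := hr'm.1
    calc r' = r' ^ 3 * r' := by rw [this, one_mul]
      _ = r' * r' * (r' * r') := by simp only [pow_succ, pow_zero, one_mul, mul_assoc]
  have e5 : r' = r := by
    have h6 : t2 * r' * t2 = r⁻¹ := by
      rw [e4, cinv ht2s, h3]
    rw [ht2r'] at h6
    exact inv_injective h6
  have e6 : r ^ 2 = 1 := by
    rw [pow_two]
    nth_rw 1 [← e5]
    rw [e4, inv_mul_cancel]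
  exact eq_one_43 (four_of_two e6) hr.1

/-- the involutions of a group `A4` centralise `Rad 3` -/
theorem A4.core {t x : G} (h : A4 t x) {u : G} (hu : u ∈ Rad 3 G) : Commute u t := by
  rw [comm_iff_c h.1]
  have hv : u⁻¹ * (t * u * t) ∈ Rad 3 G := mul_mem (inv_mem hu) (c_mem_rad h.1 hu)
  have hev : t * (u⁻¹ * (t * u * t)) * t = (u⁻¹ * (t * u * t))⁻¹ := cev h.1 u
  set v := u⁻¹ * (t * u * t) with hvdef
  have ht2s : (x⁻¹ * t * x) ^ 2 = 1 := h.sq2
  obtain ⟨r, hr, h1, h2, h3⟩ := ev0 h.1 ht2s h.comm hv hev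
  have hr1 : r = 1 := h.core0 hr h1 ((comm_iff_c ht2s).2 h2)
  have h4 := h3 hr1
  -- `x v x⁻¹` is fixed by `t2` and inverted by `t`
  have h5 : t * (x * v * x⁻¹) * t = (x * v * x⁻¹)⁻¹ := by
    calc t * (x * v * x⁻¹) * t = x * ((x⁻¹ * t * x) * v * (x⁻¹ * t * x)) * x⁻¹ := by group
      _ = x * v⁻¹ * x⁻¹ := by rw [h4]
      _ = (x * v * x⁻¹)⁻¹ := by group
  have h6 : (x⁻¹ * t * x) * (x * v * x⁻¹) * (x⁻¹ * t * x) = x * v * x⁻¹ := by
    have e1 : x⁻¹ * (x⁻¹ * t * x) * x = x * t * x⁻¹ := conj_conj h.2.1 t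
    calc (x⁻¹ * t * x) * (x * v * x⁻¹) * (x⁻¹ * t * x)
        = x * ((x⁻¹ * (x⁻¹ * t * x) * x) * v * (x⁻¹ * (x⁻¹ * t * x) * x)) * x⁻¹ := by group
      _ = x * ((x * t * x⁻¹) * v * (x * t * x⁻¹)) * x⁻¹ := by rw [e1]
      _ = x * ((t * (x⁻¹ * t * x)) * v * (t * (x⁻¹ * t * x))) * x⁻¹ := by rw [h.e3]
      _ = x * (t * ((x⁻¹ * t * x) * v * (x⁻¹ * t * x)) * t) * x⁻¹ := by
        have hc := h.comm.eq
        have e2 : t * (x⁻¹ * t * x) * v * (t * (x⁻¹ * t * x)) =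
            t * ((x⁻¹ * t * x) * v * (x⁻¹ * t * x)) * t := by
          calc t * (x⁻¹ * t * x) * v * (t * (x⁻¹ * t * x))
              = t * (x⁻¹ * t * x) * v * ((x⁻¹ * t * x) * t) := by rw [hc]
            _ = t * ((x⁻¹ * t * x) * v * (x⁻¹ * t * x)) * t := by simp only [mul_assoc]
        rw [e2]
      _ = x * (t * v⁻¹ * t) * x⁻¹ := by rw [h4]
      _ = x * v * x⁻¹ := by rw [cinv h.1, hev, inv_inv]
  have h7 : x * v * x⁻¹ = 1 :=
    h.core0 (conj_mem_rad hv x) h5 ((comm_iff_c ht2s).2 h6)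
  have h8 : v = 1 := by
    calc v = x⁻¹ * (x * v * x⁻¹) * x := by group
      _ = 1 := by rw [h7]; group
  rw [hvdef, inv_mul_eq_one] at h8
  exact h8.symm

theorem A4.mk {t x : G} (h : A4 t x) (N : Subgroup G) [N.Normal] :
    A4 (t : G ⧸ N) (x : G ⧸ N) :=
  ⟨mk_pow_one h.1, mk_pow_one h.2.1, by
    have := mk_pow_one (N := N) h.2.2
    rwa [QuotientGroup.mk_mul] at this⟩

/-- the four-group of a subgroup `A4` lies in `Rad 4` of finite groups -/
theorem A4.mem_rad [Finite G] (hG : E12 G) {t x : G} (h : A4 t x) : t ∈ Rad 4 G :=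
  hG.mem_rad4 (four_of_two h.1) fun _ hu => ((h.mk (Rad 4 G)).core hu).symm

theorem A4.mem_RK (hG : E12 G) {K : Subgroup G} (hK : Finite K) {t x : G} (h : A4 t x)
    (ht : t ∈ K) (hx : x ∈ K) : t ∈ RK 4 K := by
  refine Tw.mem_RK.2 ⟨ht, A4.mem_rad (hG.sub K) (x := ⟨x, hx⟩) ⟨?_, ?_, ?_⟩⟩
  · exact Subtype.ext (by simpa using h.1)
  · exact Subtype.ext (by simpa using h.2.1)
  · exact Subtype.ext (by simpa using h.2.2)

/-- the exact lift of an element inverted by an involution -/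
theorem lift_inv [Finite G] (hG : E12 G) {e : G} (he : e ^ 2 = 1) {r : G ⧸ Rad 4 G}
    (hr : r ∈ Rad 3 (G ⧸ Rad 4 G)) (h : (e : G ⧸ Rad 4 G) * r * e = r⁻¹) :
    ∃ s : G, s ^ 3 = 1 ∧ e * s * e = s⁻¹ ∧ (s : G ⧸ Rad 4 G) = r := by
  obtain ⟨w, rfl⟩ := QuotientGroup.mk_surjective r
  refine ⟨(w⁻¹ * (e * w * e)) ^ 4, hG.p4 _, ?_, ?_⟩
  · rw [cpow he, cev he, inv_pow]
  · rw [QuotientGroup.mk_pow, QuotientGroup.mk_mul, QuotientGroup.mk_mul, QuotientGroup.mk_mul,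
      QuotientGroup.mk_inv, h, ← x_inv (by rw [inv_pow, hr.1, inv_one]), inv_inv]
    exact pow4 hr.1

/-- three involutions generate a finite group -/
theorem inv3 (hB : BF G) (hG : E12 G) {a b t : G} (ha : a ^ 2 = 1) (hb : b ^ 2 = 1)
    (ht : t ^ 2 = 1) : Finite (closure {a, b, t}) := by
  have h1 := hB (a * b) (b * t)
  exact (three_invol a b t ha hb ht h1 (hG.sub _).solv).1

/-- an involution outside `Rad 4` inverts an element of order three -/
theorem L1 (hB : BF G) (hG : E12 G) {e : G} (he : e ^ 2 = 1) (h : e ∉ Rad 4 G) :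
    ∃ s : G, s ^ 3 = 1 ∧ s ≠ 1 ∧ e * s * e = s⁻¹ := by
  obtain ⟨z, hz, hz'⟩ : ∃ z : G, z ^ 4 = 1 ∧ (e * z) ^ 4 ≠ 1 := by
    by_contra hcon
    push Not at hcon
    exact h ⟨four_of_two he, hcon⟩
  have hK : Finite (closure {e, z}) := hB _ _
  set K : Subgroup G := closure {e, z} with hKdef
  have heK : e ∈ K := subset_closure (by simp)
  have hzK : z ∈ K := subset_closure (by simp)
  have he' : (⟨e, heK⟩ : K) ^ 2 = 1 := Subtype.ext (by simpa using he)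
  have h1 : (⟨e, heK⟩ : K) ∉ Rad 4 K := fun hcon =>
    hz' (RK_mul (mem_RK.2 ⟨heK, hcon⟩) hzK hz)
  have h2 : ∃ u ∈ Rad 3 (K ⧸ Rad 4 K), ¬ Commute u ((⟨e, heK⟩ : K) : K ⧸ Rad 4 K) := by
    by_contra hcon
    push Not at hcon
    exact h1 ((hG.sub K).mem_rad4 (four_of_two he') fun u hu => (hcon u hu).symm)
  obtain ⟨u, hu, hn⟩ := h2
  have he2 : ((⟨e, heK⟩ : K) : K ⧸ Rad 4 K) ^ 2 = 1 := mk_pow_one he'
  obtain ⟨r, hr, hr1, hr2, -⟩ := ev he2 he2 (Commute.refl _) hu hn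
  obtain ⟨s, hs, hs1, hs2⟩ := lift_inv (hG.sub K) he' hr hr2
  refine ⟨s, by simpa using congrArg Subtype.val hs, ?_, by simpa using congrArg Subtype.val hs1⟩
  intro hcon
  apply hr1
  rw [← hs2]
  have : s = 1 := Subtype.ext hcon
  rw [this]
  rfl

/-- `N2` -/
theorem N2 (hB : BF G) (hG : E12 G) {t x t' s : G} (h : A4 t x)
    (ht' : t' = x⁻¹ * t * x ∨ t' = x * t * x⁻¹) (hs : s ^ 3 = 1) (h1 : t * s * t = s⁻¹)
    (h2 : Commute s t') : s = 1 := by
  have ht's : t' ^ 2 = 1 := by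
    rcases ht' with rfl | rfl
    · exact h.sq2
    · exact h.sq3
  have hK : Finite (closure {x, s * t'}) := hB _ _
  set K : Subgroup G := closure {x, s * t'} with hKdef
  have hxK : x ∈ K := subset_closure (by simp)
  have h3 : s * t' ∈ K := subset_closure (by simp)
  obtain ⟨hsK, ht'K⟩ := mem_of_mul_pow hs (four_of_two ht's) h2 h3
  have htK : t ∈ K := by
    rcases ht' with h4 | h4
    · have : t = x * t' * x⁻¹ := by rw [h4]; group
      rw [this]
      exact mul_mem (mul_mem hxK ht'K) (inv_mem hxK)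
    · have : t = x⁻¹ * t' * x := by rw [h4]; group
      rw [this]
      exact mul_mem (mul_mem (inv_mem hxK) ht'K) hxK
  have h5 : t ∈ RK 4 K := h.mem_RK hG hK htK hxK
  have h6 : t * (s⁻¹ * t * s) ∈ RK 4 K := mul_mem h5 (RK_conj' h5 hsK)
  have h7 : t * (s⁻¹ * t * s) = s * s := by
    calc t * (s⁻¹ * t * s) = (t * s⁻¹ * t) * s := by simp only [mul_assoc]
      _ = s * s := by rw [cinv h.1, h1, inv_inv]
  rw [h7, ← x_inv hs] at h6
  have h8 := RK_pow h6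
  rw [inv_pow, inv_eq_one] at h8
  exact eq_one_43 h8 hs

end Pool.Agent.W629.Tw
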