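import Mathlib

set_option autoImplicit false

/-!
# The module structure of an abelian normal section
-/

namespace Pool.Agent.W629.Tw

open Subgroup
open scoped commutatorElement

theorem section_comm {F : Type} [Group F] (N B : Subgroup F) [N.Normal] [B.Normal]
    (hcomm : ⁅N, N⁆ ≤ B) (x y : N ⧸ B.subgroupOf N) : x * y = y * x := by
  obtain ⟨x, rfl⟩ := QuotientGroup.mk_surjective x
  obtain ⟨y, rfl⟩ := QuotientGroup.mk_surjective y
  rw [← QuotientGroup.mk_mul, ← QuotientGroup.mk_mul, QuotientGroup.eq]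
  rw [mem_subgroupOf]
  apply hcomm
  have h1 : ((((x * y)⁻¹ * (y * x) : N)) : F) = ⁅(y : F)⁻¹, (x : F)⁻¹⁆ := by
    rw [commutatorElement_def]
    simp only [coe_mul, coe_inv]
    group
  rw [h1]
  exact commutator_mem_commutator (inv_mem y.2) (inv_mem x.2)

/-- the action on the section -/
def secAct {F : Type} [Group F] (N B : Subgroup F) [hN : N.Normal] [hB : B.Normal] (f : F) :
    (N ⧸ B.subgroupOf N) →* (N ⧸ B.subgroupOf N) :=
  QuotientGroup.map (B.subgroupOf N) (B.subgroupOf N) (MulAut.conjNormal f).toMonoidHom (by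
    intro x hx
    rw [mem_comap, mem_subgroupOf]
    rw [mem_subgroupOf] at hx
    change ((MulAut.conjNormal f x : N) : F) ∈ B
    rw [MulAut.conjNormal_apply]
    exact hB.conj_mem _ hx f)

theorem secAct_mk {F : Type} [Group F] (N B : Subgroup F) [N.Normal] [B.Normal] (f : F) (x : N) :
    secAct N B f (x : N ⧸ B.subgroupOf N) =
      ((MulAut.conjNormal f x : N) : N ⧸ B.subgroupOf N) := rfl

theorem secAct_one {F : Type} [Group F] (N B : Subgroup F) [N.Normal] [B.Normal]
    (x : N ⧸ B.subgroupOf N) : secAct N B 1 x = x := by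
  obtain ⟨x, rfl⟩ := QuotientGroup.mk_surjective x
  rw [secAct_mk]
  simp

theorem secAct_mul {F : Type} [Group F] (N B : Subgroup F) [N.Normal] [B.Normal] (f g : F)
    (x : N ⧸ B.subgroupOf N) : secAct N B (f * g) x = secAct N B f (secAct N B g x) := by
  obtain ⟨x, rfl⟩ := QuotientGroup.mk_surjective x
  rw [secAct_mk, secAct_mk, secAct_mk, map_mul, MulAut.mul_apply]

theorem exists_module {F : Type} [Group F] (N B : Subgroup F) [N.Normal] [B.Normal]
    (hcomm : ⁅N, N⁆ ≤ B) :
    ∃ (M : Type) (_ : AddCommGroup M) (ρ : F →* AddMonoid.End M) (π : N → M),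
      Function.Surjective π ∧ (∀ x y : N, π (x * y) = π x + π y) ∧
      (∀ (f : F) (n n' : N), (n' : F) = f * n * f⁻¹ → π n' = ρ f (π n)) ∧
      (∀ n : N, π n = 0 ↔ (n : F) ∈ B) := by
  let inst : AddCommGroup (Additive (N ⧸ B.subgroupOf N)) :=
    { (inferInstance : AddGroup (Additive (N ⧸ B.subgroupOf N))) with
      add_comm := fun x y => section_comm N B hcomm x.toMul y.toMul }
  refine ⟨Additive (N ⧸ B.subgroupOf N), inst,
    { toFun := fun f =>
        { toFun := fun x => Additive.ofMul (secAct N B f x.toMul)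
          map_zero' := map_one (secAct N B f)
          map_add' := fun x y => map_mul (secAct N B f) x.toMul y.toMul }
      map_one' := ?_
      map_mul' := ?_ }, fun n => Additive.ofMul (n : N ⧸ B.subgroupOf N), ?_, ?_, ?_, ?_⟩
  · ext x
    exact secAct_one N B x
  · intro f g
    ext x
    exact secAct_mul N B f g x
  · intro m
    obtain ⟨x, hx⟩ := QuotientGroup.mk_surjective m.toMul
    exact ⟨x, congrArg Additive.ofMul hx⟩
  · intro x y
    rfl
  · intro f n n' h
    change (n' : N ⧸ B.subgroupOf N) = secAct N B f n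
    rw [secAct_mk]
    congr 1
    exact Subtype.ext (by rw [h, MulAut.conjNormal_apply])
  · intro n
    change (n : N ⧸ B.subgroupOf N) = 1 ↔ _
    rw [QuotientGroup.eq_one_iff, mem_subgroupOf]

end Pool.Agent.W629.Tw
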