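import Mathlib

set_option autoImplicit false

/-!
# Two identities in rings
-/

namespace Pool.Agent.W629.Tw

variable {R : Type} [Ring R]

theorem ringD1 {p q γ : R} (hp : p ^ 3 = 1) (hq : q ^ 3 = 1) (hpq : p * q = q * p)
    (h1 : p * γ = γ * q) (h2 : q * γ = γ * p ^ 2) (hγ : γ ^ 4 = 1)
    (hy : ∀ i j : ℕ, (γ * (p ^ i * q ^ j)) ^ 4 = 1 →
      1 + γ * (p ^ i * q ^ j) + (γ * (p ^ i * q ^ j)) ^ 2 + (γ * (p ^ i * q ^ j)) ^ 3 = 0)
    (h4 : (4 : R) = 0) : p = 1 := by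
  have c : Commute p q := hpq
  have hpi : ∀ i : ℕ, p ^ i * γ = γ * q ^ i := by
    intro i
    induction i with
    | zero => simp
    | succ i ih => rw [pow_succ', mul_assoc, ih, ← mul_assoc, h1, mul_assoc, ← pow_succ']
  have hqj : ∀ j : ℕ, q ^ j * γ = γ * p ^ (2 * j) := by
    intro j
    induction j with
    | zero => simp
    | succ j ih =>
      rw [pow_succ', mul_assoc, ih, ← mul_assoc, h2, mul_assoc, ← pow_add]
      congr 2
      ring
  have hm : ∀ i j : ℕ, p ^ i * q ^ j * γ = γ * (p ^ (2 * j) * q ^ i) := by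
    intro i j
    rw [mul_assoc, hqj, ← mul_assoc, hpi, mul_assoc, (c.pow_pow (2 * j) i).eq]
  have hmm : ∀ i j k l : ℕ, p ^ i * q ^ j * (p ^ k * q ^ l) = p ^ (i + k) * q ^ (j + l) := by
    intro i j k l
    rw [pow_add, pow_add]
    calc p ^ i * q ^ j * (p ^ k * q ^ l) = p ^ i * (q ^ j * p ^ k) * q ^ l := by
          simp only [mul_assoc]
      _ = p ^ i * (p ^ k * q ^ j) * q ^ l := by rw [(c.pow_pow k j).eq]
      _ = p ^ i * p ^ k * (q ^ j * q ^ l) := by simp only [mul_assoc]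
  have hs : ∀ i j : ℕ, (γ * (p ^ i * q ^ j)) ^ 2 = γ ^ 2 * (p ^ (2 * j + i) * q ^ (i + j)) := by
    intro i j
    rw [pow_two, pow_two]
    calc γ * (p ^ i * q ^ j) * (γ * (p ^ i * q ^ j))
        = γ * (p ^ i * q ^ j * γ) * (p ^ i * q ^ j) := by simp only [mul_assoc]
      _ = γ * γ * (p ^ (2 * j) * q ^ i * (p ^ i * q ^ j)) := by rw [hm]; simp only [mul_assoc]
      _ = γ * γ * (p ^ (2 * j + i) * q ^ (i + j)) := by rw [hmm]
  have hc : ∀ i j : ℕ, (γ * (p ^ i * q ^ j)) ^ 3 =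
      γ ^ 3 * (p ^ (2 * (i + j) + i) * q ^ (2 * j + i + j)) := by
    intro i j
    rw [pow_succ, hs]
    calc γ ^ 2 * (p ^ (2 * j + i) * q ^ (i + j)) * (γ * (p ^ i * q ^ j))
        = γ ^ 2 * (p ^ (2 * j + i) * q ^ (i + j) * γ) * (p ^ i * q ^ j) := by
          simp only [mul_assoc]
      _ = γ ^ 2 * γ * (p ^ (2 * (i + j)) * q ^ (2 * j + i) * (p ^ i * q ^ j)) := by
          rw [hm]; simp only [mul_assoc]
      _ = γ ^ 3 * (p ^ (2 * (i + j) + i) * q ^ (2 * j + i + j)) := by rw [hmm, ← pow_succ]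
  have hf : ∀ i j : ℕ, (γ * (p ^ i * q ^ j)) ^ 4 = 1 := by
    intro i j
    rw [show 4 = 2 * 2 by norm_num, pow_mul, hs]
    have e1 : ∀ k l : ℕ, p ^ k * q ^ l * γ ^ 2 = γ ^ 2 * (p ^ (2 * k) * q ^ (2 * l)) := by
      intro k l
      rw [pow_two, ← mul_assoc, hm, mul_assoc, hm]
      simp only [mul_assoc]
    rw [pow_two]
    calc γ ^ 2 * (p ^ (2 * j + i) * q ^ (i + j)) * (γ ^ 2 * (p ^ (2 * j + i) * q ^ (i + j)))
        = γ ^ 2 * (p ^ (2 * j + i) * q ^ (i + j) * γ ^ 2) * (p ^ (2 * j + i) * q ^ (i + j)) := by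
          simp only [mul_assoc]
      _ = γ ^ 2 * γ ^ 2 * (p ^ (2 * (2 * j + i)) * q ^ (2 * (i + j)) *
            (p ^ (2 * j + i) * q ^ (i + j))) := by rw [e1]; simp only [mul_assoc]
      _ = 1 := by
        rw [hmm, ← pow_add, hγ, one_mul, show 2 * (2 * j + i) + (2 * j + i) = 3 * (2 * j + i) by ring,
          show 2 * (i + j) + (i + j) = 3 * (i + j) by ring, pow_mul, pow_mul, hp, hq, one_pow,
          one_pow, one_mul]
  have key : ∀ i j : ℕ, 1 + γ * (p ^ i * q ^ j) + γ ^ 2 * (p ^ (2 * j + i) * q ^ (i + j)) +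
      γ ^ 3 * (p ^ (2 * (i + j) + i) * q ^ (2 * j + i + j)) = 0 := by
    intro i j
    have := hy i j (hf i j)
    rwa [hs, hc] at this
  have rp : ∀ k : ℕ, p ^ k = p ^ (k % 3) := by
    intro k
    conv_lhs => rw [← Nat.div_add_mod k 3, pow_add, pow_mul, hp, one_pow, one_mul]
  have rq : ∀ k : ℕ, q ^ k = q ^ (k % 3) := by
    intro k
    conv_lhs => rw [← Nat.div_add_mod k 3, pow_add, pow_mul, hq, one_pow, one_mul]
  have key' : ∀ i j : ℕ, 1 + γ * (p ^ i * q ^ j) +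
      γ ^ 2 * (p ^ ((2 * j + i) % 3) * q ^ ((i + j) % 3)) +
      γ ^ 3 * (p ^ ((2 * (i + j) + i) % 3) * q ^ ((2 * j + i + j) % 3)) = 0 := by
    intro i j
    rw [← rp, ← rq, ← rp, ← rq]
    exact key i j
  obtain ⟨S, hS⟩ : ∃ S : R, S = p ^ 0 * q ^ 0 + p ^ 0 * q ^ 1 + p ^ 0 * q ^ 2 + p ^ 1 * q ^ 0 +
      p ^ 1 * q ^ 1 + p ^ 1 * q ^ 2 + p ^ 2 * q ^ 0 + p ^ 2 * q ^ 1 + p ^ 2 * q ^ 2 := ⟨_, rfl⟩
  have hsum : 9 + γ * S + γ ^ 2 * S + γ ^ 3 * S = 0 := by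
    have k00 := key' 0 0
    have k01 := key' 0 1
    have k02 := key' 0 2
    have k10 := key' 1 0
    have k11 := key' 1 1
    have k12 := key' 1 2
    have k20 := key' 2 0
    have k21 := key' 2 1
    have k22 := key' 2 2
    norm_num only at k00 k01 k02 k10 k11 k12 k20 k21 k22
    have hall := congrArg₂ (· + ·) (congrArg₂ (· + ·) (congrArg₂ (· + ·) (congrArg₂ (· + ·)
      (congrArg₂ (· + ·) (congrArg₂ (· + ·) (congrArg₂ (· + ·) (congrArg₂ (· + ·)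
      k00 k01) k02) k10) k11) k12) k20) k21) k22
    simp only [add_zero] at hall
    rw [← hall, hS]
    simp only [mul_add]
    have h9 : (9 : R) = 1 + 1 + 1 + 1 + 1 + 1 + 1 + 1 + 1 := by norm_num
    rw [h9]
    abel
  have hSp : S * p = S := by
    have e : ∀ i j : ℕ, p ^ i * q ^ j * p = p ^ ((i + 1) % 3) * q ^ j := by
      intro i j
      rw [← rp, mul_assoc, ← (c.pow_right j).eq, ← mul_assoc, ← pow_succ]
    rw [hS]
    simp only [add_mul, e]
    norm_num only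
    abel
  have h9 : (9 : R) * p = 9 := by
    have e1 : (9 + γ * S + γ ^ 2 * S + γ ^ 3 * S) * p = 0 := by rw [hsum, zero_mul]
    have e2 : (9 + γ * S + γ ^ 2 * S + γ ^ 3 * S) * p =
        9 * p + γ * (S * p) + γ ^ 2 * (S * p) + γ ^ 3 * (S * p) := by
      noncomm_ring
    rw [e2, hSp] at e1
    have e3 : 9 * p + γ * S + γ ^ 2 * S + γ ^ 3 * S = 9 + γ * S + γ ^ 2 * S + γ ^ 3 * S := by
      rw [e1, hsum]
    have e4 := add_right_cancel (add_right_cancel (add_right_cancel e3))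
    exact e4
  have h9' : (9 : R) = 1 := by
    calc (9 : R) = 4 * 2 + 1 := by norm_num
      _ = 1 := by rw [h4]; norm_num
  rwa [h9', one_mul] at h9

end Pool.Agent.W629.Tw
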