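import Mathlib
import Pool.Agent.W629.Tw.Four
import Pool.Agent.W629.Tw.RingD
import Pool.Agent.W629.Tw.Mod

set_option autoImplicit false

/-!
# Commutators of `3`-elements centralise `2`-sections
-/

namespace Pool.Agent.W629.Tw

open Pool.Agent.W629 Subgroup

variable {G : Type} [Group G]

/-- the commutator `c = [s, s2]` commutes with `t` if `t` commutes with `s` -/
def PT (F : Type) [Group F] : Prop := ∀ s y s2 c t : F, s ^ 3 = 1 → s2 ∈ closure {s, y} →
  c ∈ closure {s, y} → t ∈ closure {s, y} → s2 ^ 3 = 1 → (s * s2) ^ 3 = 1 →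
  s2⁻¹ * s * s2 = s * c → Commute c s → t ^ 4 = 1 → Commute t s →
  (t⁻¹ * c⁻¹ * t * c) ^ 4 = 1 → Commute t c

theorem PT_core [Finite G] (hG : E12 G) {s s2 c t : G} (hs : s ^ 3 = 1) (hs2 : s2 ^ 3 = 1)
    (hss : (s * s2) ^ 3 = 1) (hc : s2⁻¹ * s * s2 = s * c) (hcs : Commute c s)
    (hts : Commute t s) (h4 : (t⁻¹ * c⁻¹ * t * c) ^ 4 = 1) : t⁻¹ * c⁻¹ * t * c ∈ Rad 4 G := by
  refine hG.mem_rad4 h4 fun u hu => ?_
  have hτs : Commute s (t⁻¹ * c⁻¹ * t * c) :=
    ((hts.symm.inv_right.mul_right hcs.symm.inv_right).mul_right hts.symm).mul_right hcs.symm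
  have hsN : (s : G ⧸ Rad 4 G) ^ 3 = 1 := mk_pow_one hs
  have hs2N : (s2 : G ⧸ Rad 4 G) ^ 3 = 1 := mk_pow_one hs2
  have hssN : ((s : G ⧸ Rad 4 G) * s2) ^ 3 = 1 := by
    rw [← QuotientGroup.mk_mul]; exact mk_pow_one hss
  have hcN : (s2 : G ⧸ Rad 4 G)⁻¹ * s * s2 = s * c := by
    rw [← QuotientGroup.mk_inv, ← QuotientGroup.mk_mul, ← QuotientGroup.mk_mul, hc,
      QuotientGroup.mk_mul]
  have key : ∀ v ∈ Rad 3 (G ⧸ Rad 4 G), Commute v (s : G ⧸ Rad 4 G) →
      Commute v (c : G ⧸ Rad 4 G) := by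
    intro v hv hvs
    have h1 := comm_conj (a := v) (b := (s : G ⧸ Rad 4 G)) (c := (s2 : G ⧸ Rad 4 G)) hs2N hssN
      (rad_mul hv hs2N) (by rw [mul_assoc]; exact rad_mul hv hssN) hvs
    rw [hcN] at h1
    have h2 := hvs.inv_right.mul_right h1
    rwa [inv_mul_cancel_left] at h2
  refine (ab3 hsN (mk_pow_one h4) (mk_comm hτs) (fun v hv hvs => ?_) u hu).symm
  have htN : Commute (t : G ⧸ Rad 4 G) (s : G ⧸ Rad 4 G) := mk_comm hts
  have h3 : Commute v (c : G ⧸ Rad 4 G) := key v hv hvs
  have h5 : Commute ((t : G ⧸ Rad 4 G) * v * (t : G ⧸ Rad 4 G)⁻¹) (c : G ⧸ Rad 4 G) :=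
    key _ (conj_mem_rad hv _) ((htN.mul_left hvs).mul_left htN.inv_left)
  simp only [QuotientGroup.mk_mul, QuotientGroup.mk_inv]
  have h6 : Commute v ((t : G ⧸ Rad 4 G)⁻¹ * (c : G ⧸ Rad 4 G)⁻¹ * t) := by
    have h7 := h5.inv_right.eq
    generalize (t : G ⧸ Rad 4 G) = T at h7 ⊢
    generalize (c : G ⧸ Rad 4 G) = C at h7 ⊢
    change v * (T⁻¹ * C⁻¹ * T) = T⁻¹ * C⁻¹ * T * v
    calc v * (T⁻¹ * C⁻¹ * T) = T⁻¹ * (T * v * T⁻¹ * C⁻¹) * T := by group
      _ = T⁻¹ * (C⁻¹ * (T * v * T⁻¹)) * T := by rw [h7]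
      _ = T⁻¹ * C⁻¹ * T * v := by group
  exact h6.mul_right h3

theorem PT_of (hB : BF G) (hG : E12 G) (hR : Rad 4 G = ⊥) : PT G := by
  intro s y s2 c t hs hs2m hcm htm hs2 hss hc hcs ht4 hts h4
  have h1 : t⁻¹ * c⁻¹ * t * c ∈ Rad 4 G := by
    refine T4 hB hG (y := y) hs ?_ ?_
    · exact ((hts.inv_left.mul_left hcs.inv_left).mul_left hts).mul_left hcs
    · intro K hK hsK hyK
      have hle : closure {s, y} ≤ K := by
        rw [closure_le]
        rintro x (rfl | hx)
        · exact hsK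
        · rw [Set.mem_singleton_iff.1 hx]; exact hyK
      have hs2K := hle hs2m
      have hcK := hle hcm
      have htK := hle htm
      refine mem_RK.2 ⟨mul_mem (mul_mem (mul_mem (inv_mem htK) (inv_mem hcK)) htK) hcK, ?_⟩
      exact PT_core (hG.sub K) (s := ⟨s, hsK⟩) (s2 := ⟨s2, hs2K⟩) (c := ⟨c, hcK⟩) (t := ⟨t, htK⟩)
        (Subtype.ext (by simpa using hs)) (Subtype.ext (by simpa using hs2))
        (Subtype.ext (by simpa using hss)) (Subtype.ext (by simpa using hc))
        (Subtype.ext hcs.eq) (Subtype.ext hts.eq) (Subtype.ext (by simpa using h4))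
  rw [hR, mem_bot] at h1
  change t * c = c * t
  calc t * c = c * t * (t⁻¹ * c⁻¹ * t * c) := by group
    _ = c * t := by rw [h1, mul_one]

theorem PT.sub (h : PT G) (K : Subgroup G) : PT K := by
  intro s y s2 c t hs hs2m hcm htm hs2 hss hc hcs ht4 hts h4
  have hm : ∀ x : K, x ∈ closure {s, y} → (x : G) ∈ closure {(s : G), (y : G)} := by
    intro x hx
    have h1 : K.subtype x ∈ (closure {s, y}).map K.subtype := mem_map_of_mem _ hx
    rw [MonoidHom.map_closure, Set.image_pair] at h1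
    exact h1
  have := h s y s2 c t (by simpa using congrArg Subtype.val hs) (hm _ hs2m) (hm _ hcm) (hm _ htm)
    (by simpa using congrArg Subtype.val hs2) (by simpa using congrArg Subtype.val hss)
    (by simpa using congrArg Subtype.val hc) (show (c : G) * s = s * c from congrArg Subtype.val hcs.eq)
    (by simpa using congrArg Subtype.val ht4) (show (t : G) * s = s * t from congrArg Subtype.val hts.eq)
    (by simpa using congrArg Subtype.val h4)
  exact Subtype.ext this.eq

section Ring2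

variable {M : Type} [AddCommGroup M]

theorem ringD2a {p q c : AddMonoid.End M} (hp : p ^ 3 = 1) (hq : q ^ 3 = 1) (hc : c ^ 3 = 1)
    (hpq : p * q = q * (p * c)) (hpc : Commute p c) (hqc : Commute q c)
    (h4 : ∀ m : M, m + m + m + m = 0) (hne : c ≠ 1) :
    ∃ z : M, z ≠ 0 ∧ p z = z ∧ z + c z + c (c z) = 0 := by
  obtain ⟨a, ha⟩ : ∃ a : M, c a ≠ a := by
    by_contra hcon
    push Not at hcon
    exact hne (AddMonoidHom.ext hcon)
  have hc3 : ∀ m : M, c (c (c m)) = m := fun m => by
    have := DFunLike.congr_fun hc m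
    simpa [pow_succ] using this
  have hp3 : ∀ m : M, p (p (p m)) = m := fun m => by
    have := DFunLike.congr_fun hp m
    simpa [pow_succ] using this
  have hq3 : ∀ m : M, q (q (q m)) = m := fun m => by
    have := DFunLike.congr_fun hq m
    simpa [pow_succ] using this
  have epq : ∀ m : M, p (q m) = q (p (c m)) := fun m => DFunLike.congr_fun hpq m
  have ecp : ∀ m : M, c (p m) = p (c m) := fun m => (DFunLike.congr_fun hpc.eq m).symm
  have ecq : ∀ m : M, c (q m) = q (c m) := fun m => (DFunLike.congr_fun hqc.eq m).symm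
  obtain ⟨b, hb⟩ : ∃ b, b = c a - a := ⟨_, rfl⟩
  have hb0 : b ≠ 0 := by rw [hb]; exact sub_ne_zero.2 ha
  have hbs : b + c b + c (c b) = 0 := by
    rw [hb]
    simp only [map_sub, hc3]
    abel
  -- one of the three sums is nonzero
  have key : ∃ x : M, x + c x + c (c x) = 0 ∧ x + p x + p (p x) ≠ 0 := by
    by_contra hcon
    push Not at hcon
    have s1 := hcon b hbs
    have s2 := hcon (q b) (by rw [ecq, ecq, ← map_add, ← map_add, hbs, map_zero])
    have s3 := hcon (q (q b)) (by
      rw [ecq, ecq, ecq, ecq, ← map_add, ← map_add, ← map_add, ← map_add, hbs, map_zero,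
        map_zero])
    simp only [epq, ecp, ecq, hc3] at s2 s3
    have s2' : b + p (c b) + p (p (c (c b))) = 0 := by
      have := congrArg (fun m => q (q m)) s2
      simpa only [map_add, hq3, map_zero] using this
    have s3' : b + p (c (c b)) + p (p (c b)) = 0 := by
      have := congrArg (fun m => q m) s3
      simpa only [map_add, hq3, map_zero] using this
    have h3 : b + b + b = 0 := by
      have e1 : p (b + c b + c (c b)) = 0 := by rw [hbs, map_zero]
      have e2 : p (p (b + c b + c (c b))) = 0 := by rw [hbs, map_zero, map_zero]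
      simp only [map_add] at e1 e2
      have e3 : b + b + b = (b + p b + p (p b)) + (b + p (c b) + p (p (c (c b)))) +
          (b + p (c (c b)) + p (p (c b))) - (p b + p (c b) + p (c (c b))) -
          (p (p b) + p (p (c b)) + p (p (c (c b)))) := by abel
      rw [e3, s1, s2', s3', e1, e2]
      simp
    have h5 := h4 b
    rw [h3, zero_add] at h5
    exact hb0 h5
  obtain ⟨x, hx, hx0⟩ := key
  refine ⟨x + p x + p (p x), hx0, ?_, ?_⟩
  · simp only [map_add, hp3]
    abel
  · have e1 : x + p x + p (p x) + c (x + p x + p (p x)) + c (c (x + p x + p (p x))) =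
        (x + c x + c (c x)) + p (x + c x + c (c x)) + p (p (x + c x + c (c x))) := by
      simp only [map_add, ecp]
      abel
    rw [e1, hx]
    simp

theorem ringD2b {p q c : AddMonoid.End M} (hc : c ^ 3 = 1)
    (hpq : p * q = q * (p * c)) (hpc : Commute p c) (hqc : Commute q c)
    {z : M} (hz : p z = z) (hz2 : z + c z + c (c z) = 0) :
    (q z + q (q z) + z) + p (q z + q (q z) + z) + p (p (q z + q (q z) + z)) = z + z + z := by
  have hc3 : ∀ m : M, c (c (c m)) = m := fun m => by
    have := DFunLike.congr_fun hc m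
    simpa [pow_succ] using this
  have epq : ∀ m : M, p (q m) = q (p (c m)) := fun m => DFunLike.congr_fun hpq m
  have ecp : ∀ m : M, c (p m) = p (c m) := fun m => (DFunLike.congr_fun hpc.eq m).symm
  have ecq : ∀ m : M, c (q m) = q (c m) := fun m => (DFunLike.congr_fun hqc.eq m).symm
  have epz : p (c z) = c z := by rw [← ecp, hz]
  have epz2 : p (c (c z)) = c (c z) := by rw [← ecp, epz]
  simp only [map_add, epq, ecp, ecq, hc3, hz, epz, epz2]
  have e1 : q z + q (c z) + q (c (c z)) = 0 := by rw [← map_add, ← map_add, hz2, map_zero]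
  have e2 : q (q z) + q (q (c z)) + q (q (c (c z))) = 0 := by
    rw [← map_add, ← map_add, ← map_add, ← map_add, hz2, map_zero, map_zero]
  have e3 : q z + q (q z) + z + (q (c z) + q (q (c (c z))) + z) +
      (q (c (c z)) + q (q (c z)) + z) = (q z + q (c z) + q (c (c z))) +
      (q (q z) + q (q (c z)) + q (q (c (c z)))) + (z + z + z) := by abel
  rw [e3, e1, e2]
  simp

end Ring2

end Pool.Agent.W629.Tw
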