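import Mathlib
import Pool.Agent.W629.Tw.PT

set_option autoImplicit false

/-!
# The commutator of two `3`-elements acts trivially on the `2`-sections
-/

namespace Pool.Agent.W629.Tw

open Pool.Agent.W629 Subgroup
open scoped commutatorElement

variable {F : Type} [Group F]

/-- the data of a section `N / B` on which `F` acts -/
structure Sec (F : Type) [Group F] where
  N : Subgroup F
  B : Subgroup F
  hN : N.Normal
  hB : B.Normal
  hNQ : N ≤ Rad 4 F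
  hBN : B ≤ N
  hNB : ⁅N, Rad 4 F⁆ ≤ B
  M : Type
  inst : AddCommGroup M
  ρ : F →* AddMonoid.End M
  π : N → M
  hs : Function.Surjective π
  hm : ∀ x y : N, π (x * y) = π x + π y
  hc : ∀ (f : F) (n n' : N), (n' : F) = f * n * f⁻¹ → π n' = ρ f (π n)
  h0 : ∀ n : N, π n = 0 ↔ (n : F) ∈ B

attribute [instance] Sec.inst

theorem exists_sec (N B : Subgroup F) (hN : N.Normal) (hB : B.Normal)
    (hNQ : N ≤ Rad 4 F) (hBN : B ≤ N) (hNB : ⁅N, Rad 4 F⁆ ≤ B) :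
    ∃ S : Sec F, S.N = N ∧ S.B = B := by
  obtain ⟨M, inst, ρ, π, h1, h2, h3, h4⟩ := exists_module N B
    (le_trans (commutator_mono le_rfl hNQ) hNB)
  exact ⟨⟨N, B, hN, hB, hNQ, hBN, hNB, M, inst, ρ, π, h1, h2, h3, h4⟩, rfl, rfl⟩

namespace Sec

variable (S : Sec F)

/-- `x ∈ N` has image `m` -/
def R (x : F) (m : S.M) : Prop := ∃ h : x ∈ S.N, S.π ⟨x, h⟩ = m

variable {S}

theorem R.mem {x : F} {m : S.M} (h : S.R x m) : x ∈ S.N := h.1

theorem R.mul {x y : F} {m n : S.M} (h : S.R x m) (h' : S.R y n) : S.R (x * y) (m + n) := by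
  obtain ⟨hx, rfl⟩ := h
  obtain ⟨hy, rfl⟩ := h'
  exact ⟨mul_mem hx hy, S.hm ⟨x, hx⟩ ⟨y, hy⟩⟩

theorem R.conj {x : F} {m : S.M} (h : S.R x m) (f : F) : S.R (f * x * f⁻¹) (S.ρ f m) := by
  obtain ⟨hx, rfl⟩ := h
  exact ⟨S.hN.conj_mem x hx f, S.hc f ⟨x, hx⟩ ⟨_, S.hN.conj_mem x hx f⟩ rfl⟩

theorem R.unique {x : F} {m n : S.M} (h : S.R x m) (h' : S.R x n) : m = n := by
  obtain ⟨hx, rfl⟩ := h
  obtain ⟨hy, rfl⟩ := h'
  rfl

theorem R.zero_iff {x : F} : S.R x 0 ↔ x ∈ S.B := by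
  constructor
  · rintro ⟨hx, h⟩
    exact (S.h0 _).1 h
  · intro h
    exact ⟨S.hBN h, (S.h0 _).2 h⟩

theorem R.one : S.R 1 0 := R.zero_iff.2 (one_mem _)

theorem R.inv {x : F} {m : S.M} (h : S.R x m) : S.R x⁻¹ (-m) := by
  obtain ⟨hx, hm⟩ := h
  refine ⟨inv_mem hx, ?_⟩
  have h1 : S.R (x⁻¹ * x) (S.π ⟨x⁻¹, inv_mem hx⟩ + m) :=
    R.mul ⟨inv_mem hx, rfl⟩ ⟨hx, hm⟩
  rw [inv_mul_cancel] at h1
  exact eq_neg_of_add_eq_zero_left (h1.unique R.one)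

theorem exists_R (m : S.M) : ∃ x : F, S.R x m := by
  obtain ⟨n, hn⟩ := S.hs m
  exact ⟨n, n.2, hn⟩

theorem R.four {x : F} {m : S.M} (h : S.R x m) : x ^ 4 = 1 := (S.hNQ h.mem).1

theorem add4 (m : S.M) : m + m + m + m = 0 := by
  obtain ⟨x, hx⟩ := S.exists_R m
  have h := ((hx.mul hx).mul hx).mul hx
  have e : x * x * x * x = 1 := by
    rw [← hx.four]
    simp only [pow_succ, pow_zero, one_mul]
  rw [e] at h
  exact h.unique R.one

theorem ρ_rad {x : F} (hx : x ∈ Rad 4 F) : S.ρ x = 1 := by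
  ext m
  obtain ⟨y, hy⟩ := S.exists_R m
  have h1 : x * y * x⁻¹ * y⁻¹ ∈ S.B := by
    have h2 : ⁅x, y⁆ ∈ ⁅Rad 4 F, S.N⁆ := commutator_mem_commutator hx hy.mem
    rw [commutator_comm] at h2
    have h3 := S.hNB h2
    rwa [commutatorElement_def] at h3
  have h2 := (hy.conj x).mul hy.inv
  have h3 := h2.unique (R.zero_iff.2 h1)
  change S.ρ x m = m
  rw [← sub_eq_zero, sub_eq_add_neg]
  exact h3

theorem ρ_eq {x y : F} (h : (x : F ⧸ Rad 4 F) = y) : S.ρ x = S.ρ y := by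
  rw [QuotientGroup.eq] at h
  have h1 : y = x * (x⁻¹ * y) := by group
  rw [h1, map_mul, ρ_rad h, mul_one]

theorem ρ_pow {x : F} {k : ℕ} (h : x ^ k = 1) : S.ρ x ^ k = 1 := by
  rw [← map_pow, h, map_one]

end Sec

theorem comm_mk_of {N : Subgroup F} [N.Normal] {x s : F} (h : s * x * s⁻¹ * x⁻¹ ∈ N) :
    Commute (x : F ⧸ N) (s : F ⧸ N) := by
  have h1 := (QuotientGroup.eq_one_iff _).2 h
  rw [QuotientGroup.mk_mul, QuotientGroup.mk_mul, QuotientGroup.mk_mul, QuotientGroup.mk_inv,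
    QuotientGroup.mk_inv, mul_inv_eq_one, mul_inv_eq_iff_eq_mul] at h1
  exact h1.symm

theorem mem_of_comm_mk {N : Subgroup F} [N.Normal] {x s : F}
    (h : Commute (x : F ⧸ N) (s : F ⧸ N)) : s * x * s⁻¹ * x⁻¹ ∈ N := by
  rw [← QuotientGroup.eq_one_iff, QuotientGroup.mk_mul, QuotientGroup.mk_mul,
    QuotientGroup.mk_mul, QuotientGroup.mk_inv, QuotientGroup.mk_inv, ← h.eq,
    mul_inv_cancel_right, mul_inv_cancel]

theorem iter_conj {y s c : F} (h1 : y⁻¹ * s * y = s * c) (h2 : y⁻¹ * c * y = c) (k : ℕ) :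
    (y ^ k)⁻¹ * s * y ^ k = s * c ^ k ∧ (y ^ k)⁻¹ * c * y ^ k = c := by
  induction k with
  | zero => simp
  | succ k ih =>
    have e : ∀ z : F, (y ^ (k + 1))⁻¹ * z * y ^ (k + 1) = y⁻¹ * ((y ^ k)⁻¹ * z * y ^ k) * y := by
      intro z
      rw [pow_succ]
      group
    have e2 : y⁻¹ * c ^ k * y = c ^ k := by
      calc y⁻¹ * c ^ k * y = (y⁻¹ * c * y) ^ k := by
            have := conj_pow (a := y⁻¹) (b := c) (i := k)
            rw [inv_inv] at this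
            exact this.symm
        _ = c ^ k := by rw [h2]
    constructor
    · rw [e, ih.1]
      calc y⁻¹ * (s * c ^ k) * y = (y⁻¹ * s * y) * (y⁻¹ * c ^ k * y) := by group
        _ = s * c * c ^ k := by rw [h1, e2]
        _ = s * c ^ (k + 1) := by rw [mul_assoc, ← pow_succ']
    · rw [e, ih.2, h2]

theorem cube_class2 {a b c : F} (ha : a ^ 3 = 1) (hb : b ^ 3 = 1) (hc : c ^ 3 = 1)
    (h : b⁻¹ * a * b = a * c) (hca : Commute c a) (hcb : Commute c b) : (a * b) ^ 3 = 1 := by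
  have h1 : b * a = a * b * c⁻¹ := by
    have : a * b = b * (a * c) := by rw [← h]; group
    rw [this]
    group
  have h2 : Commute c⁻¹ b := hcb.inv_left
  have h3 : Commute c⁻¹ a := hca.inv_left
  calc (a * b) ^ 3 = a * (b * a) * (b * a) * b := by
        simp only [pow_succ, pow_zero, one_mul, mul_assoc]
    _ = a * (a * b * c⁻¹) * (a * b * c⁻¹) * b := by rw [h1]
    _ = a * a * b * (c⁻¹ * a) * b * (c⁻¹ * b) := by simp only [mul_assoc]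
    _ = a * a * b * (a * c⁻¹) * b * (b * c⁻¹) := by rw [h2.eq, h3.eq]
    _ = a * a * (b * a) * (c⁻¹ * b) * b * c⁻¹ := by simp only [mul_assoc]
    _ = a * a * (a * b * c⁻¹) * (b * c⁻¹) * b * c⁻¹ := by rw [h1, h2.eq]
    _ = a * a * a * b * (c⁻¹ * b) * (c⁻¹ * b) * c⁻¹ := by simp only [mul_assoc]
    _ = a * a * a * b * (b * c⁻¹) * (b * c⁻¹) * c⁻¹ := by rw [h2.eq]
    _ = a * a * a * b * b * (c⁻¹ * b) * c⁻¹ * c⁻¹ := by simp only [mul_assoc]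
    _ = a * a * a * b * b * (b * c⁻¹) * c⁻¹ * c⁻¹ := by rw [h2.eq]
    _ = a ^ 3 * b ^ 3 * (c ^ 3)⁻¹ := by
        rw [← inv_pow]
        simp only [pow_succ, pow_zero, one_mul, mul_assoc]
    _ = 1 := by rw [ha, hb, hc]; simp

/-- the relations between `s`, `s2` and their commutator modulo `Rad 4` -/
theorem comm_rel {s s2 : F} (hs : (s : F ⧸ Rad 4 F) ∈ Rad 3 (F ⧸ Rad 4 F))
    (hs2 : (s2 : F ⧸ Rad 4 F) ∈ Rad 3 (F ⧸ Rad 4 F)) :
    Commute (s : F ⧸ Rad 4 F) ((s⁻¹ * s2⁻¹ * s * s2 : F) : F ⧸ Rad 4 F) ∧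
    Commute (s2 : F ⧸ Rad 4 F) ((s⁻¹ * s2⁻¹ * s * s2 : F) : F ⧸ Rad 4 F) ∧
    ((s⁻¹ * s2⁻¹ * s * s2 : F) : F ⧸ Rad 4 F) ^ 3 = 1 := by
  have e : ((s⁻¹ * s2⁻¹ * s * s2 : F) : F ⧸ Rad 4 F) =
      (s : F ⧸ Rad 4 F)⁻¹ * (s2 : F ⧸ Rad 4 F)⁻¹ * s * s2 := by
    simp only [QuotientGroup.mk_mul, QuotientGroup.mk_inv]
  rw [e]
  generalize (s : F ⧸ Rad 4 F) = a at hs ⊢
  generalize (s2 : F ⧸ Rad 4 F) = b at hs2 ⊢
  refine ⟨?_, ?_, ?_⟩
  · have h1 := comm_conj_rad hs.1 hs.1 (Commute.refl a) hs2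
    have e1 : a⁻¹ * b⁻¹ * a * b = a⁻¹ * (b⁻¹ * a * b) := by group
    rw [e1]
    exact (Commute.refl a).inv_right.mul_right h1
  · have h1 := comm_conj_rad hs2.1 hs2.1 (Commute.refl b) hs
    have e1 : a⁻¹ * b⁻¹ * a * b = (a⁻¹ * b * a)⁻¹ * b := by group
    rw [e1]
    exact h1.inv_right.mul_right (Commute.refl b)
  · exact (mul_mem (mul_mem (mul_mem (inv_mem hs) (inv_mem hs2)) hs) hs2).1

theorem ringD2_pre {S : Sec F} {s s2 : F} (hs : (s : F ⧸ Rad 4 F) ∈ Rad 3 (F ⧸ Rad 4 F))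
    (hs2 : (s2 : F ⧸ Rad 4 F) ∈ Rad 3 (F ⧸ Rad 4 F)) :
    S.ρ s * S.ρ s2 = S.ρ s2 * (S.ρ s * S.ρ (s⁻¹ * s2⁻¹ * s * s2)) ∧
    Commute (S.ρ s) (S.ρ (s⁻¹ * s2⁻¹ * s * s2)) ∧
    Commute (S.ρ s2) (S.ρ (s⁻¹ * s2⁻¹ * s * s2)) ∧
    S.ρ (s⁻¹ * s2⁻¹ * s * s2) ^ 3 = 1 := by
  obtain ⟨h1, h2, h3⟩ := comm_rel hs hs2
  refine ⟨?_, ?_, ?_, ?_⟩
  · rw [← map_mul, ← map_mul, ← map_mul]
    congr 1
    group
  · change _ * _ = _ * _
    rw [← map_mul, ← map_mul]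
    exact Sec.ρ_eq h1.eq
  · change _ * _ = _ * _
    rw [← map_mul, ← map_mul]
    exact Sec.ρ_eq h2.eq
  · rw [← map_pow]
    have : S.ρ ((s⁻¹ * s2⁻¹ * s * s2) ^ 3) = S.ρ 1 := Sec.ρ_eq h3
    rw [this, map_one]

/-- `D2` -/
theorem D2 [Finite F] (hF : E12 F) (hPT : PT F) (S : Sec F) {s s2 : F} (hs : s ^ 3 = 1)
    (hs2 : s2 ^ 3 = 1) (hsr : (s : F ⧸ Rad 4 F) ∈ Rad 3 (F ⧸ Rad 4 F))
    (hs2r : (s2 : F ⧸ Rad 4 F) ∈ Rad 3 (F ⧸ Rad 4 F)) :
    S.ρ (s⁻¹ * s2⁻¹ * s * s2) = 1 := by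
  by_contra hne
  obtain ⟨r1, r2, r3, r4⟩ := ringD2_pre (S := S) hsr hs2r
  obtain ⟨m1, m2, m3⟩ := comm_rel hsr hs2r
  obtain ⟨z, hz0, hz1, hz2⟩ := ringD2a (Sec.ρ_pow hs) (Sec.ρ_pow hs2) r4 r1 r2 r3 S.add4 hne
  -- the lift `t` of `z`
  obtain ⟨n0, hn0⟩ := S.exists_R z
  have hBn : S.B.Normal := S.hB
  have hNn : S.N.Normal := S.hN
  have hB4 : ∀ x ∈ S.B, x ^ 4 = 1 := fun x hx => (S.hNQ (S.hBN hx)).1
  have h1 : s * n0 * s⁻¹ * n0⁻¹ ∈ S.B := by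
    have := (hn0.conj s).mul hn0.inv
    rw [hz1, add_neg_cancel] at this
    exact Sec.R.zero_iff.1 this
  obtain ⟨t, hts, htn⟩ := lift3 S.B hB4 hs (comm_mk_of h1)
  have htR : S.R t z := by
    rw [eq_comm, QuotientGroup.eq] at htn
    have := hn0.mul (Sec.R.zero_iff.2 htn)
    rw [mul_inv_cancel_left, add_zero] at this
    exact this
  have ht4 : t ∈ Rad 4 F := S.hNQ htR.mem
  -- `y = s2 t`
  obtain ⟨y, hy⟩ : ∃ y, y = s2 * t := ⟨_, rfl⟩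
  have hymk : (y : F ⧸ Rad 4 F) = s2 := by
    rw [hy, QuotientGroup.mk_mul, (QuotientGroup.eq_one_iff t).2 ht4, mul_one]
  have hyR : S.R (y ^ 3) (S.ρ s2 z + S.ρ s2 (S.ρ s2 z) + z) := by
    have e1 : y ^ 3 = (s2 * t * s2⁻¹) * (s2 * (s2 * t * s2⁻¹) * s2⁻¹) * (s2 ^ 3 * t) := by
      rw [hy]
      simp only [pow_succ, pow_zero, one_mul]
      group
    rw [e1, hs2, one_mul]
    exact ((htR.conj s2).mul ((htR.conj s2).conj s2)).mul htR
  -- the element `m` of `⟨s, y⟩`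
  have hsH : s ∈ closure {s, y} := subset_closure (by simp)
  have hyH : y ∈ closure {s, y} := subset_closure (by simp)
  obtain ⟨m, hmH, hmR⟩ : ∃ m, m ∈ closure {s, y} ∧ S.R m z := by
    have h2 := (hyR.mul (hyR.conj s)).mul ((hyR.conj s).conj s)
    have e2 := ringD2b r4 r1 r2 r3 hz1 hz2
    rw [e2] at h2
    refine ⟨_, pow_mem (mul_mem (mul_mem (pow_mem hyH 3) (mul_mem (mul_mem hsH (pow_mem hyH 3))
      (inv_mem hsH))) (mul_mem (mul_mem hsH (mul_mem (mul_mem hsH (pow_mem hyH 3))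
      (inv_mem hsH))) (inv_mem hsH))) 3, ?_⟩
    have h3 := (h2.mul h2).mul h2
    have e3 : z + z + z + (z + z + z) + (z + z + z) = z := by
      have := S.add4 z
      calc z + z + z + (z + z + z) + (z + z + z) = (z + z + z + z) + (z + z + z + z) + z := by abel
        _ = z := by rw [this]; simp
    rw [e3] at h3
    convert h3 using 1
    simp only [pow_succ, pow_zero, one_mul]
  -- work in `H`
  obtain ⟨H, hH⟩ : ∃ H, H = closure {s, y} := ⟨_, rfl⟩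
  rw [← hH] at hsH hyH hmH
  have hHE : E12 H := hF.sub H
  obtain ⟨sH, hsHd⟩ : ∃ sH : H, (sH : F) = s := ⟨⟨s, hsH⟩, rfl⟩
  obtain ⟨yH, hyHd⟩ : ∃ yH : H, (yH : F) = y := ⟨⟨y, hyH⟩, rfl⟩
  obtain ⟨mH, hmHd⟩ : ∃ mH : H, (mH : F) = m := ⟨⟨m, hmH⟩, rfl⟩
  have hsH3 : sH ^ 3 = 1 := Subtype.ext (by rw [coe_pow, hsHd, hs]; rfl)
  -- the lift `t2`
  obtain ⟨t2, ht2s, ht2m⟩ := lift3 (S.B.subgroupOf H) (s := sH) (u := (mH : H ⧸ S.B.subgroupOf H))
    (fun x hx => Subtype.ext (by rw [coe_pow]; exact hB4 _ hx)) hsH3 (comm_mk_of (by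
      rw [mem_subgroupOf]
      have := (hmR.conj s).mul hmR.inv
      rw [hz1, add_neg_cancel] at this
      have h4 := Sec.R.zero_iff.1 this
      simpa [hsHd, hmHd] using h4))
  have ht2R : S.R (t2 : F) z := by
    rw [eq_comm, QuotientGroup.eq, mem_subgroupOf] at ht2m
    have h4 : m⁻¹ * (t2 : F) ∈ S.B := by simpa [hmHd] using ht2m
    have := hmR.mul (Sec.R.zero_iff.2 h4)
    rw [mul_inv_cancel_left, add_zero] at this
    exact this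
  -- modulo `Q`
  obtain ⟨Q, hQ⟩ : ∃ Q, Q = (Rad 4 F).subgroupOf H := ⟨_, rfl⟩
  have hQn : Q.Normal := by rw [hQ]; infer_instance
  have hQ4 : ∀ x ∈ Q, x ^ 4 = 1 := by
    intro x hx
    rw [hQ, mem_subgroupOf] at hx
    exact Subtype.ext (by rw [coe_pow]; exact hx.1)
  have hQmem : ∀ x : H, x ∈ Q ↔ ((x : F) : F ⧸ Rad 4 F) = 1 := by
    intro x
    rw [hQ, mem_subgroupOf, QuotientGroup.eq_one_iff]
  obtain ⟨c0, hc0⟩ : ∃ c0, c0 = sH⁻¹ * yH⁻¹ * sH * yH := ⟨_, rfl⟩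
  have hc0F : ((c0 : F) : F ⧸ Rad 4 F) = ((s⁻¹ * s2⁻¹ * s * s2 : F) : F ⧸ Rad 4 F) := by
    rw [hc0]
    simp only [coe_mul, coe_inv, hsHd, hyHd, QuotientGroup.mk_mul, QuotientGroup.mk_inv, hymk]
  have hc0s : Commute (c0 : H ⧸ Q) (sH : H ⧸ Q) := by
    apply comm_mk_of
    rw [hQmem]
    have := m1.eq
    simp only [coe_mul, coe_inv, hsHd, QuotientGroup.mk_mul, QuotientGroup.mk_inv]
    simp only [QuotientGroup.mk_mul, QuotientGroup.mk_inv] at this hc0F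
    rw [hc0F, this]
    group
  have hc0y : Commute (c0 : H ⧸ Q) (yH : H ⧸ Q) := by
    apply comm_mk_of
    rw [hQmem]
    have := m2.eq
    simp only [coe_mul, coe_inv, hyHd, QuotientGroup.mk_mul, QuotientGroup.mk_inv, hymk]
    simp only [QuotientGroup.mk_mul, QuotientGroup.mk_inv] at this hc0F
    rw [hc0F, this]
    group
  have hc03 : (c0 : H ⧸ Q) ^ 3 = 1 := by
    rw [← QuotientGroup.mk_pow, QuotientGroup.eq_one_iff, hQmem, coe_pow, QuotientGroup.mk_pow,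
      hc0F]
    exact m3
  obtain ⟨c1, hc1s, hc1m⟩ := lift3 Q hQ4 hsH3 hc0s
  obtain ⟨c', hc'⟩ : ∃ c', c' = c1 ^ 4 := ⟨_, rfl⟩
  have hc'3 : c' ^ 3 = 1 := by rw [hc']; exact hHE.p4 c1
  have hc's : Commute c' sH := by rw [hc']; exact hc1s.pow_left 4
  have hc'm : (c' : H ⧸ Q) = c0 := by
    rw [hc', QuotientGroup.mk_pow, hc1m, pow4 hc03]
  have hsc3 : (sH * c') ^ 3 = 1 := by rw [hc's.symm.mul_pow, hsH3, hc'3, one_mul]
  obtain ⟨y1, hy1, hy1m⟩ := lift3c Q hQ4 hsH3 hsc3 (u := (yH : H ⧸ Q)) (by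
    rw [QuotientGroup.mk_mul, hc'm, hc0]
    simp only [QuotientGroup.mk_mul, QuotientGroup.mk_inv]
    group)
  -- correct the action on `c'`
  obtain ⟨n, hn, hn'⟩ := conj_lift (k := 1) Nat.prime_three (Q ⊓ centralizer {sH * c'})
    (ndvd3 _ (fun x hx => hQ4 x hx.1)) (s := c') (s' := y1⁻¹ * c' * y1) (by simpa using hc'3)
    (by simpa using conj_pow_one' hc'3) (by
      intro n hn
      rw [mem_inf, mem_cent] at hn ⊢
      obtain ⟨hn1, hn2⟩ := hn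
      refine ⟨hQn.conj_mem n hn1 c', ?_⟩
      have h5 : Commute c' (sH * c') := hc's.mul_right (Commute.refl c')
      exact (h5.mul_left hn2).mul_left h5.inv_left) (by
      have h5 : Commute c' (sH * c') := hc's.mul_right (Commute.refl c')
      rw [mem_inf, mem_cent]
      constructor
      · rw [← QuotientGroup.eq_one_iff]
        simp only [QuotientGroup.mk_mul, QuotientGroup.mk_inv, hy1m, hc'm]
        rw [mul_assoc (yH : H ⧸ Q)⁻¹, hc0y.eq]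
        group
      · have h6 : Commute (y1⁻¹ * c' * y1) (sH * c') := by
          rw [← hy1]
          have h7 := hc's.eq
          change y1⁻¹ * c' * y1 * (y1⁻¹ * sH * y1) = y1⁻¹ * sH * y1 * (y1⁻¹ * c' * y1)
          calc y1⁻¹ * c' * y1 * (y1⁻¹ * sH * y1) = y1⁻¹ * (c' * sH) * y1 := by group
            _ = y1⁻¹ * (sH * c') * y1 := by rw [h7]
            _ = y1⁻¹ * sH * y1 * (y1⁻¹ * c' * y1) := by group
        exact h6.mul_left h5.inv_left)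
  rw [mem_inf, mem_cent] at hn
  obtain ⟨hnQ, hnc⟩ := hn
  obtain ⟨y2, hy2⟩ : ∃ y2, y2 = y1 * n := ⟨_, rfl⟩
  have e1 : y2⁻¹ * c' * y2 = c' := by
    calc y2⁻¹ * c' * y2 = n⁻¹ * (y1⁻¹ * c' * y1) * n := by rw [hy2]; group
      _ = n⁻¹ * (n * c' * n⁻¹) * n := by rw [hn']
      _ = c' := by group
  have e2 : y2⁻¹ * sH * y2 = sH * c' := by
    calc y2⁻¹ * sH * y2 = n⁻¹ * (y1⁻¹ * sH * y1) * n := by rw [hy2]; group
      _ = n⁻¹ * ((sH * c') * n) := by rw [hy1, mul_assoc]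
      _ = n⁻¹ * (n * (sH * c')) := by rw [hnc.eq]
      _ = sH * c' := by group
  obtain ⟨i1, i2⟩ := iter_conj e2 e1 4
  rw [pow4 hc'3] at i1
  have hcs2 : Commute c' (y2 ^ 4) := by
    change c' * y2 ^ 4 = y2 ^ 4 * c'
    calc c' * y2 ^ 4 = y2 ^ 4 * ((y2 ^ 4)⁻¹ * c' * y2 ^ 4) := by group
      _ = y2 ^ 4 * c' := by rw [i2]
  have hcube := cube_class2 hsH3 (hHE.p4 y2) hc'3 i1 hc's hcs2
  -- apply the property `PT`
  have hmem : ∀ x : H, (x : F) ∈ closure {s, y} := by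
    intro x
    rw [← hH]
    exact x.2
  have hfin : Commute (t2 : F) (c' : F) := by
    refine hPT s y ((y2 ^ 4 : H) : F) (c' : F) (t2 : F) hs (hmem _) (hmem _) (hmem _) ?_ ?_ ?_ ?_
      (S.hNQ ht2R.mem).1 ?_ ?_
    · have := congrArg Subtype.val (hHE.p4 y2)
      simpa using this
    · have := congrArg Subtype.val hcube
      simpa [hsHd] using this
    · have := congrArg Subtype.val i1
      simpa [hsHd] using this
    · have := congrArg Subtype.val hc's.eq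
      rw [coe_mul, coe_mul, hsHd] at this
      exact this
    · have := congrArg Subtype.val ht2s.eq
      rw [coe_mul, coe_mul, hsHd] at this
      exact this
    · have h6 : (t2 : F)⁻¹ * ((c' : F)⁻¹ * t2 * c') ∈ Rad 4 F :=
        mul_mem (inv_mem (S.hNQ ht2R.mem)) (conj_mem_rad' (S.hNQ ht2R.mem) _)
      have h7 := h6.1
      rwa [← mul_assoc, ← mul_assoc] at h7
  -- `c` fixes `z`
  have hcz : S.ρ (s⁻¹ * s2⁻¹ * s * s2) z = z := by
    have h6 : ((c' : F) : F ⧸ Rad 4 F) = ((s⁻¹ * s2⁻¹ * s * s2 : F) : F ⧸ Rad 4 F) := by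
      rw [← hc0F]
      rw [eq_comm, QuotientGroup.eq] at hc'm
      rw [eq_comm, QuotientGroup.eq, ← QuotientGroup.eq_one_iff]
      exact (hQmem _).1 hc'm
    rw [← Sec.ρ_eq h6]
    have h7 := ht2R.conj (c' : F)
    have h8 : (c' : F) * t2 * (c' : F)⁻¹ = t2 := by rw [← hfin.eq, mul_inv_cancel_right]
    rw [h8] at h7
    exact h7.unique ht2R
  rw [hcz, hcz] at hz2
  have h9 := S.add4 z
  rw [hz2, zero_add] at h9
  exact hz0 h9

end Pool.Agent.W629.Tw
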