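import Mathlib
import Pool.Agent.W629.Tw.D2

set_option autoImplicit false

/-!
# Elements of order three inverted by the square of a `2`-element
-/

namespace Pool.Agent.W629.Tw

open Pool.Agent.W629 Subgroup
open scoped commutatorElement

variable {F : Type} [Group F]

theorem pow9' {M : Type} [Monoid M] {x : M} (hx : x ^ 4 = 1) : x ^ 9 = x := by
  rw [show 9 = 4 * 2 + 1 by norm_num, pow_succ, pow_mul, hx, one_pow, one_mul]

theorem end_sum {M : Type} [AddCommGroup M] (η : AddMonoid.End M)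
    (h : ∀ m, m + η m + η (η m) + η (η (η m)) = 0) : 1 + η + η ^ 2 + η ^ 3 = 0 := by
  ext m
  have h1 : η ^ 2 = η * η := pow_two η
  have h2 : η ^ 3 = η * (η * η) := by rw [pow_succ', pow_two]
  rw [h1, h2]
  exact h m

theorem end_four {M : Type} [AddCommGroup M] (h : ∀ m : M, m + m + m + m = 0) :
    (4 : AddMonoid.End M) = 0 := by
  rw [show (4 : AddMonoid.End M) = 1 + 1 + 1 + 1 by norm_num]
  ext m
  exact h m

theorem norm_sum (hF : E12 F) (S : Sec F) {h : F} (h4 : h ^ 4 = 1) (m : S.M) :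
    m + S.ρ h m + S.ρ h (S.ρ h m) + S.ρ h (S.ρ h (S.ρ h m)) = 0 := by
  obtain ⟨x, hx⟩ := S.exists_R m
  have hN : S.N.Normal := S.hN
  have hN4 : ∀ x ∈ S.N, x ^ 4 = 1 := fun x hx => (S.hNQ hx).1
  have h1 : (h * x) ^ 4 = 1 := by
    apply hF.four_of_mem S.N hN4
    rw [← QuotientGroup.eq_one_iff, QuotientGroup.mk_pow, QuotientGroup.mk_mul,
      (QuotientGroup.eq_one_iff x).2 hx.mem, mul_one, ← QuotientGroup.mk_pow, h4]
    rfl
  have h2 : (h * x * h⁻¹) * (h * (h * x * h⁻¹) * h⁻¹) * (h * (h * (h * x * h⁻¹) * h⁻¹) * h⁻¹) * x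
      = 1 := by
    have hi : x = h ^ 4 * x := by rw [h4, one_mul]
    calc (h * x * h⁻¹) * (h * (h * x * h⁻¹) * h⁻¹) * (h * (h * (h * x * h⁻¹) * h⁻¹) * h⁻¹) * x
        = (h * x * h⁻¹) * (h * (h * x * h⁻¹) * h⁻¹) * (h * (h * (h * x * h⁻¹) * h⁻¹) * h⁻¹) *
            (h ^ 4 * x) := by rw [← hi]
      _ = (h * x) ^ 4 := by
          simp only [pow_succ, pow_zero, one_mul]
          group
      _ = 1 := h1
  have h3 := (((hx.conj h).mul ((hx.conj h).conj h)).mul (((hx.conj h).conj h).conj h)).mul hx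
  rw [h2] at h3
  have h5 := h3.unique Sec.R.one
  rw [← h5]
  abel

theorem D1 [Finite F] (hF : E12 F) (hPT : PT F) (S : Sec F) {s g : F} (hs : s ^ 3 = 1)
    (hg : g ^ 4 = 1) (hsg : g⁻¹ * (g⁻¹ * s * g) * g = s⁻¹)
    (hsr : (s : F ⧸ Rad 4 F) ∈ Rad 3 (F ⧸ Rad 4 F)) : S.ρ s = 1 := by
  obtain ⟨s2, hs2⟩ : ∃ s2, s2 = g⁻¹ * s * g := ⟨_, rfl⟩
  rw [← hs2] at hsg
  have hs23 : s2 ^ 3 = 1 := by rw [hs2]; exact conj_pow_one' hs
  have hs2r : (s2 : F ⧸ Rad 4 F) ∈ Rad 3 (F ⧸ Rad 4 F) := by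
    rw [hs2, QuotientGroup.mk_mul, QuotientGroup.mk_mul, QuotientGroup.mk_inv]
    exact conj_mem_rad' hsr _
  have hc := D2 hF hPT S hs hs23 hsr hs2r
  have hpq : S.ρ s * S.ρ s2 = S.ρ s2 * S.ρ s := by
    rw [← map_mul, ← map_mul]
    have : s * s2 = s2 * s * (s⁻¹ * s2⁻¹ * s * s2) := by group
    rw [this, map_mul, hc, mul_one]
  refine ringD1 (p := S.ρ s) (q := S.ρ s2) (γ := S.ρ g) (Sec.ρ_pow hs) (Sec.ρ_pow hs23) hpq
    ?_ ?_ (Sec.ρ_pow hg) ?_ ?_
  · rw [← map_mul, ← map_mul, hs2]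
    congr 1
    group
  · have : s⁻¹ = s ^ 2 := by rw [x_inv hs, pow_two]
    rw [← map_mul, ← map_pow, ← map_mul, ← this, ← hsg]
    congr 1
    group
  · intro i j h4
    have e1 : S.ρ (g * (s ^ i * s2 ^ j)) = S.ρ g * (S.ρ s ^ i * S.ρ s2 ^ j) := by
      rw [map_mul, map_mul, map_pow, map_pow]
    rw [← e1] at h4 ⊢
    have e2 : S.ρ ((g * (s ^ i * s2 ^ j)) ^ 9) = S.ρ (g * (s ^ i * s2 ^ j)) := by
      rw [map_pow]
      exact pow9' h4
    have h5 := fun m => norm_sum hF S (hF.p9 (g * (s ^ i * s2 ^ j))) m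
    rw [e2] at h5
    exact end_sum _ h5
  · exact end_four S.add4

theorem nil_aux [Finite F] (Q N : Subgroup F) (hQ : ∀ x ∈ Q, x ^ 4 = 1) (hNQ : N ≤ Q)
    (h : N ≤ ⁅N, Q⁆) : N = ⊥ := by
  have hp : IsPGroup 2 Q := by
    intro x
    refine ⟨2, Subtype.ext ?_⟩
    rw [coe_pow]
    exact hQ x x.2
  have := Fact.mk Nat.prime_two
  have hnil : Group.IsNilpotent Q := hp.isNilpotent
  obtain ⟨n, hn⟩ := (Subgroup.isNilpotent_iff_lowerCentralSeries Q).1 hnil
  have key : ∀ n, N ≤ Q.lowerCentralSeries n := by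
    intro n
    induction n with
    | zero => exact hNQ
    | succ n ih =>
      rw [Subgroup.lowerCentralSeries_succ]
      exact le_trans h (commutator_mono ih le_rfl)
  rw [eq_bot_iff, ← hn]
  exact key n

/-- the coprime action lemma: if `s` centralises `B` and acts trivially on `N / B` -/
theorem coprime_comm {B : Subgroup F} (hB : ∀ x ∈ B, x ^ 4 = 1) {s x : F} (hs : s ^ 3 = 1)
    (hBs : ∀ x ∈ B, Commute x s) (h : s * x * s⁻¹ * x⁻¹ ∈ B) : Commute x s := by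
  obtain ⟨w, hw⟩ : ∃ w, w = s * x * s⁻¹ * x⁻¹ := ⟨_, rfl⟩
  rw [← hw] at h
  have h1 : s * x * s⁻¹ = w * x := by rw [hw]; group
  have h2 := (hBs w h).eq
  have h3 : ∀ y, s * (w * y) * s⁻¹ = w * (s * y * s⁻¹) := by
    intro y
    calc s * (w * y) * s⁻¹ = (s * w) * y * s⁻¹ := by group
      _ = (w * s) * y * s⁻¹ := by rw [h2]
      _ = w * (s * y * s⁻¹) := by group
  have h4 : s * (s * (s * x * s⁻¹) * s⁻¹) * s⁻¹ = w * (w * (w * x)) := by
    rw [h1, h3, h1, h3, h3, h1]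
  have h5 : s * (s * (s * x * s⁻¹) * s⁻¹) * s⁻¹ = x := by
    calc s * (s * (s * x * s⁻¹) * s⁻¹) * s⁻¹ = s ^ 3 * x * (s ^ 3)⁻¹ := by
          simp only [pow_succ, pow_zero, one_mul]
          group
      _ = x := by rw [hs]; group
  rw [h5] at h4
  have h6 : w ^ 3 = 1 := by
    have : w * (w * (w * x)) = w ^ 3 * x := by
      simp only [pow_succ, pow_zero, one_mul, mul_assoc]
    rw [this] at h4
    exact (right_eq_mul.1 h4)
  have h7 : w = 1 := eq_one_43 (hB w h) h6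
  rw [h7, one_mul] at h1
  change x * s = s * x
  calc x * s = (s * x * s⁻¹) * s := by rw [h1]
    _ = s * x := by group

theorem lemZ [Finite F] (hF : E12 F) (hPT : PT F) {s g : F} (hs : s ^ 3 = 1)
    (hg : g ^ 4 = 1) (hsg : g⁻¹ * (g⁻¹ * s * g) * g = s⁻¹)
    (hsr : (s : F ⧸ Rad 4 F) ∈ Rad 3 (F ⧸ Rad 4 F)) : ∀ x ∈ Rad 4 F, Commute x s := by
  have key : ∀ n : ℕ, ∀ N : Subgroup F, N.Normal → N ≤ Rad 4 F → Nat.card N = n →
      ∀ x ∈ N, Commute x s := by
    intro n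
    induction n using Nat.strong_induction_on with
    | _ n ih =>
      intro N hN hNQ hcard
      by_cases hbot : N = ⊥
      · intro x hx
        rw [hbot, mem_bot] at hx
        rw [hx]
        exact Commute.one_left s
      · have hBN : ⁅N, Rad 4 F⁆ ≤ N := commutator_le_left _ _
        have hlt : Nat.card (⁅N, Rad 4 F⁆ : Subgroup F) < n := by
          rw [← hcard]
          apply lt_of_le_of_ne (Nat.card_mono (Set.toFinite _) hBN)
          intro heq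
          have : ⁅N, Rad 4 F⁆ = N := by
            exact eq_of_le_of_card_ge hBN heq.ge
          exact hbot (nil_aux (Rad 4 F) N (fun x hx => hx.1) hNQ this.ge)
        have hB : (⁅N, Rad 4 F⁆ : Subgroup F).Normal := commutator_normal _ _
        have h1 := ih _ hlt ⁅N, Rad 4 F⁆ hB (le_trans hBN hNQ) rfl
        obtain ⟨S, hSN, hSB⟩ := exists_sec N ⁅N, Rad 4 F⁆ hN hB hNQ hBN le_rfl
        have h2 := D1 hF hPT S hs hg hsg hsr
        intro x hx
        refine coprime_comm (B := ⁅N, Rad 4 F⁆) (fun x hx => (hNQ (hBN hx)).1) hs h1 ?_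
        rw [← hSN] at hx
        have h3 : S.R x (S.π ⟨x, hx⟩) := ⟨hx, rfl⟩
        have h4 := (h3.conj s).mul h3.inv
        rw [h2] at h4
        have h5 : (1 : AddMonoid.End S.M) (S.π ⟨x, hx⟩) + -S.π ⟨x, hx⟩ = 0 := by
          simp
        rw [h5] at h4
        rw [← hSB]
        exact Sec.R.zero_iff.1 h4
  exact key _ (Rad 4 F) inferInstance le_rfl rfl

end Pool.Agent.W629.Tw
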