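import Mathlib
import Pool.Agent.W629.Tw.LemZ

set_option autoImplicit false

/-!
# No alternating subgroups of degree four
-/

namespace Pool.Agent.W629.Tw

open Pool.Agent.W629 Subgroup

variable {G : Type} [Group G]

/-- there is no subgroup isomorphic to the alternating group of degree four -/
def NoA4 (G : Type) [Group G] : Prop := ∀ t x : G, A4 t x → t = 1

theorem coe_eq_one {K : Subgroup G} {x : K} {k : ℕ} (h : x ^ k = 1) : (x : G) ^ k = 1 := by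
  rw [← coe_pow, h, coe_one]

theorem exists_s1 (hG : E12 G) (K : Subgroup G) [Finite K] {e f s : G}
    (he : e ^ 2 = 1) (hf : f ^ 2 = 1) (hef : Commute e f) (heK : e ∈ K) (hfK : f ∈ K)
    (hsK : s ∈ K) (hs : s ^ 3 = 1) (hs1 : s ≠ 1) (hes : e * s * e = s⁻¹) :
    ∃ s1 : K, s1 ^ 3 = 1 ∧ (s1 : G) ≠ 1 ∧ e * s1 * e = (s1 : G)⁻¹ ∧
      (s1 : K ⧸ Rad 4 K) ∈ Rad 3 (K ⧸ Rad 4 K) ∧
      ∃ f1 : G, (f1 = f ∨ f1 = e * f) ∧ f1 * s1 * f1 * (s1 : G)⁻¹ ∈ RK 4 K := by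
  obtain ⟨e', he'⟩ : ∃ e' : K, (e' : G) = e := ⟨⟨e, heK⟩, rfl⟩
  obtain ⟨f', hf'⟩ : ∃ f' : K, (f' : G) = f := ⟨⟨f, hfK⟩, rfl⟩
  have he2 : e' ^ 2 = 1 := Subtype.ext (by rw [coe_pow, he', he]; rfl)
  have hf2 : f' ^ 2 = 1 := Subtype.ext (by rw [coe_pow, hf', hf]; rfl)
  have hef' : Commute e' f' := Subtype.ext (by rw [coe_mul, coe_mul, he', hf']; exact hef.eq)
  have hn : e' ∉ Rad 4 K := by
    intro hcon
    have h1 : e ∈ RK 4 K := mem_RK.2 ⟨heK, by
      have : (⟨e, heK⟩ : K) = e' := Subtype.ext he'.symm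
      rw [this]; exact hcon⟩
    have h2 : (e * (e * s)) ^ 4 = 1 := by
      refine RK_mul h1 (mul_mem heK hsK) (four_of_two ?_)
      rw [pow_two]
      calc e * s * (e * s) = (e * s * e) * s := by simp only [mul_assoc]
        _ = 1 := by rw [hes, inv_mul_cancel]
    rw [← mul_assoc, sq_mul he, one_mul] at h2
    exact hs1 (eq_one_43 h2 hs)
  have h2 : ∃ u ∈ Rad 3 (K ⧸ Rad 4 K), ¬ Commute u (e' : K ⧸ Rad 4 K) := by
    by_contra hcon
    push Not at hcon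
    exact hn ((hG.sub K).mem_rad4 (four_of_two he2) fun u hu => (hcon u hu).symm)
  obtain ⟨u, hu, hun⟩ := h2
  obtain ⟨r, hr, hr1, hr2, hr3⟩ := ev (mk_pow_one he2) (mk_pow_one hf2) (mk_comm hef') hu hun
  obtain ⟨s1, h3, h4, h5⟩ := lift_inv (hG.sub K) he2 hr hr2
  refine ⟨s1, h3, ?_, ?_, ?_, ?_⟩
  · intro hcon
    apply hr1
    rw [← h5]
    have : s1 = 1 := Subtype.ext hcon
    rw [this]
    rfl
  · have := congrArg Subtype.val h4
    simpa [he'] using this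
  · rw [h5]; exact hr
  · have key : ∀ f1 : K, (f1 : K ⧸ Rad 4 K) * r * f1 = r →
        (f1 : G) * s1 * f1 * (s1 : G)⁻¹ ∈ RK 4 K := by
      intro f1 h6
      refine mem_RK.2 ⟨(f1 * s1 * f1 * s1⁻¹).2, ?_⟩
      change f1 * s1 * f1 * s1⁻¹ ∈ Rad 4 K
      rw [← QuotientGroup.eq_one_iff]
      rw [QuotientGroup.mk_mul, QuotientGroup.mk_mul, QuotientGroup.mk_mul, QuotientGroup.mk_inv,
        h5, h6, mul_inv_cancel]
    rcases hr3 with h6 | h6
    · refine ⟨f, Or.inl rfl, ?_⟩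
      rw [← hf']
      exact key f' h6
    · refine ⟨e * f, Or.inr rfl, ?_⟩
      rw [← hf', ← he', ← coe_mul]
      apply key
      rw [QuotientGroup.mk_mul]
      exact h6

theorem step_a (hB : BF G) (hG : E12 G) (hR : Rad 4 G = ⊥) {t x : G} (h : A4 t x) (ht : t ≠ 1) :
    ∃ u y b : G, A4 u y ∧ u ≠ 1 ∧ b ^ 2 = 1 ∧ b * y * b = y⁻¹ ∧ b * u * b = y * u * y⁻¹ := by
  obtain ⟨s, hs, hs1, hts⟩ := L1 hB hG h.1 (by rw [hR, mem_bot]; exact ht)
  have hts2 : (t * s) ^ 2 = 1 := by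
    rw [pow_two]
    calc t * s * (t * s) = (t * s * t) * s := by simp only [mul_assoc]
      _ = 1 := by rw [hts, inv_mul_cancel]
  have hK : Finite (closure {x⁻¹ * t * x, t, t * s}) := inv3 hB hG h.sq2 h.1 hts2
  obtain ⟨K, hKd⟩ : ∃ K, K = closure {x⁻¹ * t * x, t, t * s} := ⟨_, rfl⟩
  rw [← hKd] at hK
  have hfK : x⁻¹ * t * x ∈ K := by rw [hKd]; exact subset_closure (by simp)
  have htK : t ∈ K := by rw [hKd]; exact subset_closure (by simp)
  have hsK : s ∈ K := by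
    have h1 : t * s ∈ K := by rw [hKd]; exact subset_closure (by simp)
    have h2 : s = t * (t * s) := by rw [← mul_assoc, sq_mul h.1, one_mul]
    rw [h2]
    exact mul_mem htK h1
  obtain ⟨⟨s1, hs1K⟩, h3, h4, h5, -, f1, hf1, h6⟩ := exists_s1 hG K h.1 h.sq2 h.comm htK hfK hsK hs hs1
    hts
  have h3' : s1 ^ 3 = 1 := by simpa using congrArg Subtype.val h3
  simp only at h4 h5 h6
  have hf1s : f1 ^ 2 = 1 := by
    rcases hf1 with rfl | rfl
    · exact h.sq2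
    · rw [← h.e3]; exact h.sq3
  have hf1t : Commute t f1 := by
    rcases hf1 with rfl | rfl
    · exact h.comm
    · exact (Commute.refl t).mul_right h.comm
  have hN : ¬ Commute s1 f1 := by
    intro hcon
    refine h4 (N2 hB hG h (t' := f1) ?_ h3' h5 hcon)
    rcases hf1 with rfl | rfl
    · exact Or.inl rfl
    · right; rw [← h.e3]
  -- the square
  have e1 : (f1 * t * s1) ^ 2 = f1 * s1⁻¹ * f1 * s1 := by
    calc (f1 * t * s1) ^ 2 = f1 * t * s1 * (f1 * t) * s1 := by rw [pow_two]; simp only [mul_assoc]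
      _ = f1 * t * s1 * (t * f1) * s1 := by rw [hf1t.eq]
      _ = f1 * (t * s1 * t) * f1 * s1 := by simp only [mul_assoc]
      _ = f1 * s1⁻¹ * f1 * s1 := by rw [h5]
  have e2 : (f1 * s1⁻¹ * f1 * s1) ^ 4 = 1 := by
    have h7 : f1 * s1⁻¹ * f1 * s1 = s1⁻¹ * (f1 * s1 * f1 * s1⁻¹)⁻¹ * s1 * 1 := by
      rw [mul_one]
      simp only [mul_inv_rev, inv_inv, sq_inv hf1s]
      group
    rw [h7, mul_one]
    exact conj_pow_one' (by rw [inv_pow, RK_pow h6, inv_one])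
  have e3 : (f1 * t * s1) ^ 4 = 1 := by
    refine pow_a_of cop43 (hG _) ?_
    have : ((f1 * t * s1) ^ 4) ^ 4 = (((f1 * t * s1) ^ 2) ^ 4) ^ 2 := by
      rw [← pow_mul, ← pow_mul, ← pow_mul]
    rw [this, e1, e2, one_pow]
  have e4 : (f1 * (s1⁻¹ * f1 * s1)) ^ 2 = 1 := by
    have h7 : f1 * (s1⁻¹ * f1 * s1) = (f1 * t * s1) ^ 2 := by rw [e1]; simp only [mul_assoc]
    rw [h7, ← pow_mul]
    exact e3
  obtain ⟨g2, hg2⟩ : ∃ g2, g2 = s1⁻¹ * f1 * s1 := ⟨_, rfl⟩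
  obtain ⟨g3, hg3⟩ : ∃ g3, g3 = s1 * f1 * s1⁻¹ := ⟨_, rfl⟩
  have hg2s : g2 ^ 2 = 1 := by rw [hg2]; exact conj_pow_one' hf1s
  have hg3s : g3 ^ 2 = 1 := by rw [hg3]; exact conj_pow_one hf1s
  rw [← hg2] at e4
  have c12 : Commute f1 g2 := invol_mul_comm hf1s hg2s e4
  have q1 : s1 * g2 * s1⁻¹ = f1 := by rw [hg2]; group
  have q2 : s1⁻¹ * g2 * s1 = g3 := by rw [hg2, hg3]; exact conj_conj h3' f1
  have q3 : s1⁻¹ * g3 * s1 = f1 := by rw [hg3]; group
  have c31 : Commute g3 f1 := by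
    change g3 * f1 = f1 * g3
    have := c12.eq
    calc g3 * f1 = (s1 * f1 * s1⁻¹) * (s1 * g2 * s1⁻¹) := by rw [q1, ← hg3]
      _ = s1 * (f1 * g2) * s1⁻¹ := by group
      _ = s1 * (g2 * f1) * s1⁻¹ := by rw [this]
      _ = (s1 * g2 * s1⁻¹) * (s1 * f1 * s1⁻¹) := by group
      _ = f1 * g3 := by rw [q1, ← hg3]
  have c23 : Commute g2 g3 := by
    change g2 * g3 = g3 * g2
    have := c12.eq
    calc g2 * g3 = (s1⁻¹ * f1 * s1) * (s1⁻¹ * g2 * s1) := by rw [q2, ← hg2]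
      _ = s1⁻¹ * (f1 * g2) * s1 := by group
      _ = s1⁻¹ * (g2 * f1) * s1 := by rw [this]
      _ = (s1⁻¹ * g2 * s1) * (s1⁻¹ * f1 * s1) := by group
      _ = g3 * g2 := by rw [q2, ← hg2]
  refine ⟨f1 * g2, s1, t, ⟨e4, h3', ?_⟩, ?_, h.1, h5, ?_⟩
  · have e5 : s1 * (f1 * g2) * s1⁻¹ = g3 * f1 := by
      calc s1 * (f1 * g2) * s1⁻¹ = (s1 * f1 * s1⁻¹) * (s1 * g2 * s1⁻¹) := by group
        _ = g3 * f1 := by rw [q1, ← hg3]
    have e6 : s1 * (g3 * f1) * s1⁻¹ = g2 * g3 := by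
      calc s1 * (g3 * f1) * s1⁻¹ = (s1 * g3 * s1⁻¹) * (s1 * f1 * s1⁻¹) := by group
        _ = g2 * g3 := by
          rw [← hg3]
          congr 1
          rw [hg3, conj_conj' h3', ← hg2]
    calc (f1 * g2 * s1) ^ 3 = (f1 * g2) * (s1 * (f1 * g2) * s1⁻¹) *
          (s1 * (s1 * (f1 * g2) * s1⁻¹) * s1⁻¹) * s1 ^ 3 := by
          simp only [pow_succ, pow_zero, one_mul]
          group
      _ = (f1 * g2) * (g3 * f1) * (g2 * g3) := by rw [e5, e6, h3', mul_one]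
      _ = f1 * g2 * (g3 * f1) * g2 * g3 := by simp only [mul_assoc]
      _ = f1 * g2 * (f1 * g3) * g2 * g3 := by rw [c31.eq]
      _ = f1 * (g2 * f1) * (g3 * g2) * g3 := by simp only [mul_assoc]
      _ = f1 * (f1 * g2) * (g2 * g3) * g3 := by rw [← c12.eq, ← c23.eq]
      _ = (f1 * f1) * (g2 * g2) * (g3 * g3) := by simp only [mul_assoc]
      _ = 1 := by rw [sq_mul hf1s, sq_mul hg2s, sq_mul hg3s]; simp
  · intro hcon
    apply hN
    have h7 : g2 = f1 := by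
      calc g2 = (f1 * f1) * g2 := by rw [sq_mul hf1s, one_mul]
        _ = f1 * (f1 * g2) := by simp only [mul_assoc]
        _ = f1 := by rw [hcon, mul_one]
    change s1 * f1 = f1 * s1
    calc s1 * f1 = s1 * g2 := by rw [h7]
      _ = f1 * s1 := by rw [hg2]; group
  · have h7 : t * g2 * t = g3 := by
      rw [hg2, cmul h.1, cmul h.1, cinv h.1, h5, inv_inv, (comm_iff_c h.1).1 hf1t.symm, hg3]
    rw [cmul h.1, h7, (comm_iff_c h.1).1 hf1t.symm, ← c31.eq]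
    calc g3 * f1 = (s1 * f1 * s1⁻¹) * (s1 * g2 * s1⁻¹) := by rw [q1, ← hg3]
      _ = s1 * (f1 * g2) * s1⁻¹ := by group

theorem step_b (hB : BF G) (hG : E12 G) (hR : Rad 4 G = ⊥) {v y b : G} (h : A4 v y) (hv : v ≠ 1)
    (hb : b ^ 2 = 1) (hbv : b * v * b = y * v * y⁻¹) : False := by
  obtain ⟨e, he⟩ : ∃ e, e = y⁻¹ * v * y := ⟨_, rfl⟩
  have h' : A4 e y := by rw [he]; exact h.conj
  have he1 : e ≠ 1 := by
    intro hcon
    apply hv
    calc v = y * (y⁻¹ * v * y) * y⁻¹ := by group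
      _ = 1 := by rw [← he, hcon]; group
  obtain ⟨s, hs, hs1, hts⟩ := L1 hB hG h'.1 (by rw [hR, mem_bot]; exact he1)
  have hts2 : (e * s) ^ 2 = 1 := by
    rw [pow_two]
    calc e * s * (e * s) = (e * s * e) * s := by simp only [mul_assoc]
      _ = 1 := by rw [hts, inv_mul_cancel]
  have hK : Finite (closure {v, b, e * s}) := inv3 hB hG h.1 hb hts2
  obtain ⟨K, hKd⟩ : ∃ K, K = closure {v, b, e * s} := ⟨_, rfl⟩
  rw [← hKd] at hK
  have hvK : v ∈ K := by rw [hKd]; exact subset_closure (by simp)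
  have hbK : b ∈ K := by rw [hKd]; exact subset_closure (by simp)
  -- `e = v * v3`
  have hv3 : b * v * b = v * e := by rw [hbv, h.e3, he]
  have hee : e = v * (b * v * b) := by
    rw [hv3, ← mul_assoc, sq_mul h.1, one_mul]
  have heK : e ∈ K := by
    rw [hee]
    exact mul_mem hvK (mul_mem (mul_mem hbK hvK) hbK)
  have hsK : s ∈ K := by
    have h1 : e * s ∈ K := by rw [hKd]; exact subset_closure (by simp)
    have h2 : s = e * (e * s) := by rw [← mul_assoc, sq_mul h'.1, one_mul]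
    rw [h2]
    exact mul_mem heK h1
  have hev : Commute e v := by
    have := h.comm
    rw [← he] at this
    exact this.symm
  obtain ⟨s1, h3, h4, h5, h5', f1, hf1, h6⟩ := exists_s1 hG K h'.1 h.1 hev heK hvK hsK hs hs1
    hts
  have hf1s : f1 ^ 2 = 1 := by
    rcases hf1 with rfl | rfl
    · exact h.1
    · have := h.sq3
      rwa [h.e3, ← he, ← hev.eq] at this
  have hf1K : f1 ∈ K := by
    rcases hf1 with rfl | rfl
    · exact hvK
    · exact mul_mem heK hvK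
  have hN : ¬ Commute (s1 : G) f1 := by
    intro hcon
    refine h4 (N2 hB hG h' (t' := f1) ?_ (coe_eq_one h3) h5 hcon)
    rcases hf1 with rfl | rfl
    · right; rw [he]; group
    · left; rw [he, conj_conj h.2.1, h.e3, h.comm.eq]
  -- `g = b f1`
  have hg2 : (b * f1) * (b * f1) = e := by
    have hbe : b * e * b = e := by
      nth_rw 1 [hee]
      rw [cmul hb, ccc hb, hv3]
      rw [mul_assoc, hev.eq, ← mul_assoc, sq_mul h.1, one_mul]
    rcases hf1 with rfl | rfl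
    · calc b * f1 * (b * f1) = (b * f1 * b) * f1 := by simp only [mul_assoc]
        _ = f1 * e * f1 := by rw [hv3]
        _ = e := by rw [mul_assoc, hev.eq, ← mul_assoc, sq_mul h.1, one_mul]
    · calc b * (e * v) * (b * (e * v)) = (b * (e * v) * b) * (e * v) := by simp only [mul_assoc]
        _ = (b * e * b) * (b * v * b) * (e * v) := by rw [cmul hb]
        _ = e * (v * e) * (e * v) := by rw [hbe, hv3]
        _ = e * v * (e * e) * v := by simp only [mul_assoc]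
        _ = e * (v * v) := by rw [sq_mul h'.1]; simp only [mul_one, mul_assoc]
        _ = e := by rw [sq_mul h.1, mul_one]
  obtain ⟨g, hg⟩ : ∃ g : K, (g : G) = b * f1 := ⟨⟨_, mul_mem hbK hf1K⟩, rfl⟩
  have hgg : (g : G) * g = e := by rw [hg, hg2]
  have hg4 : g ^ 4 = 1 := by
    refine Subtype.ext ?_
    rw [coe_pow]
    calc (g : G) ^ 4 = (g * g) * (g * g) := by simp only [pow_succ, pow_zero, one_mul, mul_assoc]
      _ = 1 := by rw [hgg, sq_mul h'.1]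
  have hgs : g⁻¹ * (g⁻¹ * s1 * g) * g = s1⁻¹ := by
    refine Subtype.ext ?_
    simp only [coe_mul, coe_inv]
    calc (g : G)⁻¹ * ((g : G)⁻¹ * s1 * g) * g = ((g : G) * g)⁻¹ * s1 * (g * g) := by group
      _ = (s1 : G)⁻¹ := by rw [hgg, sq_inv h'.1, h5]
  have hZ := lemZ (hG.sub K) ((PT_of hB hG hR).sub K) h3 hg4 hgs h5'
  obtain ⟨hwK, hw⟩ := mem_RK.1 h6
  have h7 : Commute (f1 * s1 * f1 * (s1 : G)⁻¹) (s1 : G) := congrArg Subtype.val (hZ _ hw).eq
  have h8 : (f1 * s1 * f1 * (s1 : G)⁻¹) ^ 3 = 1 := by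
    have h9 : (f1 * s1 * f1 * (s1 : G)⁻¹ * s1) ^ 3 = 1 := by
      rw [inv_mul_cancel_right]
      have := conj_pow_one (g := f1) (coe_eq_one h3)
      rwa [sq_inv hf1s] at this
    rw [h7.mul_pow, coe_eq_one h3, mul_one] at h9
    exact h9
  have h9 := eq_one_43 (RK_pow h6) h8
  apply hN
  rw [mul_inv_eq_one] at h9
  exact (comm_iff_c hf1s).2 h9

theorem noA4 (hB : BF G) (hG : E12 G) (hR : Rad 4 G = ⊥) : NoA4 G := by
  intro t x h
  by_contra ht
  obtain ⟨u, y, b, h1, h2, h3, -, h5⟩ := step_a hB hG hR h ht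
  exact step_b hB hG hR h1 h2 h3 h5

end Pool.Agent.W629.Tw
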