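import Mathlib
import Pool.Agent.W629.Tw.Task1

set_option autoImplicit false

/-!
# Groups without alternating subgroups of degree four: `3`-elements inverted by `2`-elements
-/

namespace Pool.Agent.W629.Tw

open Pool.Agent.W629 Subgroup
open scoped commutatorElement

variable {K : Type} [Group K]

/-- an alternating group of degree four lifts through a normal subgroup of exponent three -/
theorem NoA4.quo [Finite K] (hK : E12 K) (h : NoA4 K) (N : Subgroup K) [N.Normal]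
    (hN : ∀ x ∈ N, x ^ 3 = 1) : NoA4 (K ⧸ N) := by
  intro t1 x1 hA
  obtain ⟨t2, ht2⟩ : ∃ t2, t2 = x1⁻¹ * t1 * x1 := ⟨_, rfl⟩
  have c12 : Commute t1 t2 := by rw [ht2]; exact hA.comm
  have hA2 := hA.conj
  rw [← ht2] at hA2
  obtain ⟨w, hw⟩ := QuotientGroup.mk_surjective t1
  obtain ⟨a, ha⟩ : ∃ a, a = w ^ 3 := ⟨_, rfl⟩
  have cube2 : ∀ u : K ⧸ N, u ^ 2 = 1 → u ^ 3 = u := fun u hu => by
    rw [pow_succ, hu, one_mul]
  have sq_lift : ∀ v : K, (v : K ⧸ N) ^ 2 = 1 → (v ^ 3) ^ 2 = 1 := fun v hv => by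
    rw [← QuotientGroup.mk_pow, QuotientGroup.eq_one_iff] at hv
    rw [← pow_mul, mul_comm, pow_mul]
    exact hN _ hv
  have ha2 : a ^ 2 = 1 := by rw [ha]; exact sq_lift w (by rw [hw]; exact hA.1)
  have ham : (a : K ⧸ N) = t1 := by rw [ha, QuotientGroup.mk_pow, hw, cube2 _ hA.1]
  obtain ⟨w2, hw2, hw2m⟩ := lift2 N hN ha2 (u := t2) (by rw [ham]; exact c12.symm)
  obtain ⟨b, hb⟩ : ∃ b, b = w2 ^ 3 := ⟨_, rfl⟩
  have hb2 : b ^ 2 = 1 := by rw [hb]; exact sq_lift w2 (by rw [hw2m]; exact hA2.1)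
  have hbm : (b : K ⧸ N) = t2 := by rw [hb, QuotientGroup.mk_pow, hw2m, cube2 _ hA2.1]
  have hab : Commute b a := by rw [hb]; exact hw2.pow_left 3
  obtain ⟨w1, hw1, hw1m⟩ := lift2c N hN ha2 hb2 (u := x1) (by rw [ham, hbm, ht2])
  have habs : (a * b) ^ 2 = 1 := by rw [hab.symm.mul_pow, ha2, hb2, one_mul]
  have e3 : x1⁻¹ * t2 * x1 = t1 * t2 := by
    rw [ht2, conj_conj hA.2.1, hA.e3]
  obtain ⟨n, hn, hn'⟩ := conj_lift (k := 1) Nat.prime_two (N ⊓ centralizer {b})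
    (ndvd2 _ (fun x hx => hN x hx.1)) (s := w1⁻¹ * b * w1) (s' := a * b)
    (by simpa using conj_pow_one' hb2) (by simpa using habs) (by
      intro n hn
      rw [mem_inf, mem_cent] at hn ⊢
      have h5 : Commute (w1⁻¹ * b * w1) b := by
        nth_rw 2 [← hw1]
        change w1⁻¹ * b * w1 * (w1⁻¹ * a * w1) = w1⁻¹ * a * w1 * (w1⁻¹ * b * w1)
        have := hab.eq
        calc w1⁻¹ * b * w1 * (w1⁻¹ * a * w1) = w1⁻¹ * (b * a) * w1 := by group
          _ = w1⁻¹ * (a * b) * w1 := by rw [this]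
          _ = w1⁻¹ * a * w1 * (w1⁻¹ * b * w1) := by group
      refine ⟨?_, (h5.mul_left hn.2).mul_left h5.inv_left⟩
      have : N.Normal := inferInstance
      exact this.conj_mem n hn.1 _) (by
      rw [mem_inf, mem_cent]
      constructor
      · rw [← QuotientGroup.eq_one_iff]
        simp only [QuotientGroup.mk_mul, QuotientGroup.mk_inv, ham, hbm, hw1m]
        rw [e3, mul_inv_cancel]
      · have h5 : Commute (w1⁻¹ * b * w1) b := by
          nth_rw 2 [← hw1]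
          change w1⁻¹ * b * w1 * (w1⁻¹ * a * w1) = w1⁻¹ * a * w1 * (w1⁻¹ * b * w1)
          have := hab.eq
          calc w1⁻¹ * b * w1 * (w1⁻¹ * a * w1) = w1⁻¹ * (b * a) * w1 := by group
            _ = w1⁻¹ * (a * b) * w1 := by rw [this]
            _ = w1⁻¹ * a * w1 * (w1⁻¹ * b * w1) := by group
        exact (hab.symm.mul_left (Commute.refl b)).mul_left h5.inv_left)
  rw [mem_inf, mem_cent] at hn
  obtain ⟨hnN, hnb⟩ := hn
  obtain ⟨w3, hw3⟩ : ∃ w3, w3 = w1 * n⁻¹ := ⟨_, rfl⟩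
  have r1 : w3⁻¹ * a * w3 = b := by
    calc w3⁻¹ * a * w3 = n * (w1⁻¹ * a * w1) * n⁻¹ := by rw [hw3]; group
      _ = n * b * n⁻¹ := by rw [hw1]
      _ = b := by rw [hnb.eq]; group
  have r2 : w3⁻¹ * b * w3 = a * b := by
    rw [hn', hw3]; group
  have r3 : w3⁻¹ * (a * b) * w3 = a := by
    calc w3⁻¹ * (a * b) * w3 = (w3⁻¹ * a * w3) * (w3⁻¹ * b * w3) := by group
      _ = b * (a * b) := by rw [r1, r2]
      _ = a * (b * b) := by rw [← mul_assoc, hab.eq, mul_assoc]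
      _ = a := by rw [sq_mul hb2, mul_one]
  have c1 : Commute (w3 ^ 3) a := by
    have h5 : (w3 ^ 3)⁻¹ * a * w3 ^ 3 = a := by
      calc (w3 ^ 3)⁻¹ * a * w3 ^ 3 = w3⁻¹ * (w3⁻¹ * (w3⁻¹ * a * w3) * w3) * w3 := by
            simp only [pow_succ, pow_zero, one_mul]; group
        _ = a := by rw [r1, r2, r3]
    change w3 ^ 3 * a = a * w3 ^ 3
    calc w3 ^ 3 * a = w3 ^ 3 * ((w3 ^ 3)⁻¹ * a * w3 ^ 3) := by rw [h5]
      _ = a * w3 ^ 3 := by group
  have c2 : Commute (w3 ^ 3) b := by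
    have h5 : (w3 ^ 3)⁻¹ * b * w3 ^ 3 = b := by
      calc (w3 ^ 3)⁻¹ * b * w3 ^ 3 = w3⁻¹ * (w3⁻¹ * (w3⁻¹ * b * w3) * w3) * w3 := by
            simp only [pow_succ, pow_zero, one_mul]; group
        _ = b := by rw [r2, r3, r1]
    change w3 ^ 3 * b = b * w3 ^ 3
    calc w3 ^ 3 * b = w3 ^ 3 * ((w3 ^ 3)⁻¹ * b * w3 ^ 3) := by rw [h5]
      _ = b * w3 ^ 3 := by group
  obtain ⟨x, hx⟩ : ∃ x, x = w3 ^ 4 := ⟨_, rfl⟩
  have hx3 : x ^ 3 = 1 := by rw [hx]; exact hK.p4 w3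
  have q1 : x⁻¹ * a * x = b := by
    calc x⁻¹ * a * x = w3⁻¹ * ((w3 ^ 3)⁻¹ * (a * w3 ^ 3)) * w3 := by
          rw [hx, pow_succ]; group
      _ = w3⁻¹ * ((w3 ^ 3)⁻¹ * (w3 ^ 3 * a)) * w3 := by rw [c1.eq]
      _ = b := by rw [inv_mul_cancel_left, r1]
  have q2 : x⁻¹ * b * x = a * b := by
    calc x⁻¹ * b * x = w3⁻¹ * ((w3 ^ 3)⁻¹ * (b * w3 ^ 3)) * w3 := by
          rw [hx, pow_succ]; group
      _ = w3⁻¹ * ((w3 ^ 3)⁻¹ * (w3 ^ 3 * b)) * w3 := by rw [c2.eq]
      _ = a * b := by rw [inv_mul_cancel_left, r2]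
  have q3 : x * a * x⁻¹ = a * b := by
    rw [← conj_conj hx3, q1, q2]
  have q4 : x * b * x⁻¹ = a := by rw [← q1]; group
  have hAx : A4 a x := by
    refine ⟨ha2, hx3, ?_⟩
    calc (a * x) ^ 3 = a * (x * a * x⁻¹) * (x * (x * a * x⁻¹) * x⁻¹) * x ^ 3 := by
          simp only [pow_succ, pow_zero, one_mul]; group
      _ = a * (a * b) * (x * (a * b) * x⁻¹) := by rw [q3, hx3, mul_one]
      _ = a * (a * b) * ((x * a * x⁻¹) * (x * b * x⁻¹)) := by group
      _ = a * (a * b) * (a * b * a) := by rw [q3, q4]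
      _ = (a * a) * b * (a * (b * a)) := by simp only [mul_assoc]
      _ = (a * a) * b * (a * (a * b)) := by rw [hab.eq]
      _ = (a * a) * b * (a * a) * b := by simp only [mul_assoc]
      _ = 1 := by rw [sq_mul ha2, one_mul, mul_one, sq_mul hb2]
  have h5 := h a x hAx
  rw [← ham, h5]
  rfl

/-- the final contradiction: a quaternion group with the elements `i`, `s` acting -/
theorem endgame (hF : E12 K) (hA : NoA4 K) {i s q z : K} (hi : i ^ 4 = 1) (hs : s ^ 3 = 1)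
    (his : i⁻¹ * s * i = s⁻¹) (hq4 : q ^ 4 = 1) (hz4 : z ^ 4 = 1)
    (h123 : q * (s⁻¹ * q * s) * (s * q * s⁻¹) = 1) (hqi : i⁻¹ * q * i = q * z)
    (hzq : Commute z q) (hzq2 : Commute z (s⁻¹ * q * s)) (hzs : Commute z s)
    (hcs : Commute (q ^ 2) s) (hc2 : Commute (q ^ 2) (s⁻¹ * q * s)) : q = 1 := by
  obtain ⟨c, hc⟩ : ∃ c, c = q ^ 2 := ⟨_, rfl⟩
  obtain ⟨q2, hq2⟩ : ∃ q2, q2 = s⁻¹ * q * s := ⟨_, rfl⟩
  obtain ⟨q3, hq3⟩ : ∃ q3, q3 = s * q * s⁻¹ := ⟨_, rfl⟩
  rw [← hc] at hcs hc2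
  rw [← hq2] at hzq2 hc2
  rw [← hq2, ← hq3] at h123
  have hcc : c * c = 1 := by
    rw [hc, ← pow_add]; exact hq4
  have hcinv : c⁻¹ = c := by rw [inv_eq_iff_mul_eq_one, hcc]
  have hq1c : Commute c q := by rw [hc]; exact (Commute.refl q).pow_left 2
  have hcq3 : Commute c q3 := by
    rw [hq3]; exact (hcs.mul_right hq1c).mul_right hcs.inv_right
  have hzq3 : Commute z q3 := by
    rw [hq3]; exact (hzs.mul_right hzq).mul_right hzs.inv_right
  have sq1 : q * q = c := by rw [hc, pow_two]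
  have sq2' : q2 * q2 = c := by
    calc q2 * q2 = s⁻¹ * (q * q) * s := by rw [hq2]; group
      _ = s⁻¹ * (c * s) := by rw [sq1, mul_assoc]
      _ = c := by rw [hcs.eq, inv_mul_cancel_left]
  have sq3' : q3 * q3 = c := by
    calc q3 * q3 = s * (q * q) * s⁻¹ := by rw [hq3]; group
      _ = c * s * s⁻¹ := by rw [sq1, ← hcs.eq]
      _ = c := by group
  have i1 : q⁻¹ = q * c := by
    rw [inv_eq_iff_mul_eq_one, ← mul_assoc, sq1, hcc]
  have i2 : q2⁻¹ = q2 * c := by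
    rw [inv_eq_iff_mul_eq_one, ← mul_assoc, sq2', hcc]
  have e3 : q3 = (q * q2)⁻¹ := by rw [eq_inv_iff_mul_eq_one, mul_eq_one_iff_eq_inv, ← mul_eq_one_iff_inv_eq.1 h123]
  -- `(q q2)^2 = c`
  have e4 : (q * q2) * (q * q2) = c := by
    have : (q3 * q3)⁻¹ = (q * q2) * (q * q2) := by rw [e3]; group
    rw [← this, sq3', hcinv]
  have e5 : q2 * q = q * q2 * c := by
    have h1 : q2 * q = q⁻¹ * ((q * q2) * (q * q2)) * q2⁻¹ := by group
    rw [h1, e4, i1, i2]
    calc q * c * c * (q2 * c) = q * (c * c) * (q2 * c) := by simp only [mul_assoc]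
      _ = q * q2 * c := by rw [hcc, mul_one, mul_assoc]
  by_cases hc1 : c = 1
  · refine hA q s ⟨by rw [← hc, hc1], hs, ?_⟩
    rw [hc1, mul_one] at e5
    calc (q * s) ^ 3 = q * (s * q * s⁻¹) * (s * (s * q * s⁻¹) * s⁻¹) * s ^ 3 := by
          simp only [pow_succ, pow_zero, one_mul]; group
      _ = q * q3 * q2 := by rw [conj_conj' hs, ← hq2, ← hq3, hs, mul_one]
      _ = q * (q * q2)⁻¹ * q2 := by rw [e3]
      _ = q * (q2 * q)⁻¹ * q2 := by rw [e5]
      _ = 1 := by group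
  · exfalso
    have his' : i⁻¹ * s⁻¹ * i = s := by
      calc i⁻¹ * s⁻¹ * i = (i⁻¹ * s * i)⁻¹ := by group
        _ = s := by rw [his, inv_inv]
    have s2 : i⁻¹ * q2 * i = q3 * z := by
      calc i⁻¹ * q2 * i = (i⁻¹ * s⁻¹ * i) * (i⁻¹ * q * i) * (i⁻¹ * s * i) := by rw [hq2]; group
        _ = s * q * (z * s⁻¹) := by rw [his, his', hqi]; simp only [mul_assoc]
        _ = q3 * z := by rw [hzs.inv_right.eq, hq3]; simp only [mul_assoc]
    have s3 : i⁻¹ * q3 * i = q2 * z := by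
      calc i⁻¹ * q3 * i = (i⁻¹ * s * i) * (i⁻¹ * q * i) * (i⁻¹ * s⁻¹ * i) := by rw [hq3]; group
        _ = s⁻¹ * q * (z * s) := by rw [his, his', hqi]; simp only [mul_assoc]
        _ = q2 * z := by rw [hzs.eq, hq2]; simp only [mul_assoc]
    have e6 : q * q3 * q2 = c := by
      have h1 : q2⁻¹ * q⁻¹ = c * (q⁻¹ * q2⁻¹) := by
        have h2 : q2⁻¹ * q⁻¹ = (q * q2)⁻¹ := by group
        have h3 : q * q2 = q2 * q * c := by
          rw [e5, mul_assoc, hcc, mul_one]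
        rw [h2, h3, mul_inv_rev, mul_inv_rev, hcinv]
      rw [e3, mul_inv_rev, h1]
      calc q * (c * (q⁻¹ * q2⁻¹)) * q2 = q * c * q⁻¹ := by group
        _ = c := by rw [← hq1c.eq]; group
    have e7 : c * z ^ 3 = 1 := by
      have h1 : i⁻¹ * (q * q2 * q3) * i = (q * z) * (q3 * z) * (q2 * z) := by
        rw [← hqi, ← s2, ← s3]; group
      rw [h123] at h1
      have h2 : (q * z) * (q3 * z) * (q2 * z) = q * q3 * q2 * z ^ 3 := by
        calc (q * z) * (q3 * z) * (q2 * z) = q * (z * q3) * (z * q2) * z := by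
              simp only [mul_assoc]
          _ = q * (q3 * z) * (q2 * z) * z := by rw [hzq3.eq, hzq2.eq]
          _ = q * q3 * (z * q2) * (z * z) := by simp only [mul_assoc]
          _ = q * q3 * (q2 * z) * (z * z) := by rw [hzq2.eq]
          _ = q * q3 * q2 * z ^ 3 := by
            simp only [pow_succ, pow_zero, one_mul, mul_assoc]
      rw [h2, e6] at h1
      rw [← h1]
      group
    have hz : z = c := by
      have h1 : z ^ 3 = c := by rw [← hcinv, eq_inv_iff_mul_eq_one, mul_eq_one_comm]; exact e7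
      have h2 : z * z ^ 3 = 1 := by rw [← pow_succ', hz4]
      rw [h1, mul_eq_one_iff_eq_inv, hcinv] at h2
      exact h2
    rw [hz] at hqi s2 s3
    have sc : i⁻¹ * c * i = c := by
      calc i⁻¹ * c * i = (i⁻¹ * q * i) * (i⁻¹ * q * i) := by rw [← sq1]; group
        _ = q * (c * q) * c := by rw [hqi]; simp only [mul_assoc]
        _ = (q * q) * (c * c) := by rw [hq1c.eq]; simp only [mul_assoc]
        _ = c := by rw [sq1, hcc, mul_one]
    have ii : i⁻¹ * (i⁻¹ * q * i) * i = q := by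
      calc i⁻¹ * (i⁻¹ * q * i) * i = i⁻¹ * (q * c) * i := by rw [hqi]
        _ = (i⁻¹ * q * i) * (i⁻¹ * c * i) := by group
        _ = q := by rw [hqi, sc, mul_assoc, hcc, mul_one]
    have e8 : q3 * q2 = q := by
      have h1 : q⁻¹ * (q * q3 * q2) = q3 * q2 := by group
      rw [← h1, e6, i1, mul_assoc, hcc, mul_one]
    have e9 : (i * q2) * (i * q2) = i * i * (q * c) := by
      calc (i * q2) * (i * q2) = i * i * ((i⁻¹ * q2 * i) * q2) := by group
        _ = i * i * (q3 * (c * q2)) := by rw [s2]; simp only [mul_assoc]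
        _ = i * i * (q3 * q2 * c) := by rw [hc2.eq]; simp only [mul_assoc]
        _ = i * i * (q * c) := by rw [e8]
    have e10 : (i * q2) ^ 4 = c := by
      have h1 : (q * c) * (i * i) = (i * i) * (q * c) := by
        have h2 : i⁻¹ * (i⁻¹ * (q * c) * i) * i = q * c := by
          calc i⁻¹ * (i⁻¹ * (q * c) * i) * i =
              (i⁻¹ * (i⁻¹ * q * i) * i) * (i⁻¹ * (i⁻¹ * c * i) * i) := by group
            _ = q * c := by rw [ii, sc, sc]
        calc (q * c) * (i * i) = i * i * (i⁻¹ * (i⁻¹ * (q * c) * i) * i) := by group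
          _ = (i * i) * (q * c) := by rw [h2]
      calc (i * q2) ^ 4 = ((i * q2) * (i * q2)) * ((i * q2) * (i * q2)) := by
            simp only [pow_succ, pow_zero, one_mul, mul_assoc]
        _ = i * i * ((q * c) * (i * i)) * (q * c) := by rw [e9]; simp only [mul_assoc]
        _ = i * i * ((i * i) * (q * c)) * (q * c) := by rw [h1]
        _ = i ^ 4 * (q * (c * q) * c) := by
            simp only [pow_succ, pow_zero, one_mul, mul_assoc]
        _ = (q * q) * (c * c) := by rw [hi, hq1c.eq]; simp only [mul_assoc, one_mul]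
        _ = c := by rw [sq1, hcc, mul_one]
    apply hc1
    rw [← e10]
    apply pow_a_of cop43 (hF _)
    rw [e10]
    calc c ^ 4 = (c * c) * (c * c) := by simp only [pow_succ, pow_zero, one_mul, mul_assoc]
      _ = 1 := by rw [hcc, one_mul]

theorem closure_conj {S : Set K} {g : K} (h : ∀ x ∈ S, g⁻¹ * x * g ∈ closure S) :
    ∀ x ∈ closure S, g⁻¹ * x * g ∈ closure S := by
  intro x hx
  induction hx using closure_induction with
  | mem x hx => exact h x hx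
  | one => simp
  | mul x y _ _ hx hy =>
    have : g⁻¹ * (x * y) * g = (g⁻¹ * x * g) * (g⁻¹ * y * g) := by group
    rw [this]
    exact mul_mem hx hy
  | inv x _ hx =>
    have : g⁻¹ * x⁻¹ * g = (g⁻¹ * x * g)⁻¹ := by group
    rw [this]
    exact inv_mem hx

/-- a `3`-element inverted by a `2`-element centralises the `2`-subgroups normalised by both -/
theorem LSplus [Finite K] (hF : E12 K) (hA : NoA4 K) {i s : K} (hi : i ^ 4 = 1) (hs : s ^ 3 = 1)
    (his : i⁻¹ * s * i = s⁻¹) : ∀ n : ℕ, ∀ T : Subgroup K, (∀ x ∈ T, x ^ 4 = 1) →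
    (∀ x ∈ T, i⁻¹ * x * i ∈ T) → (∀ x ∈ T, s⁻¹ * x * s ∈ T) → Nat.card T = n →
    ∀ x ∈ T, Commute x s := by
  have his2 : i * s * i⁻¹ = s⁻¹ := by
    calc i * s * i⁻¹ = i * (i⁻¹ * s * i)⁻¹ * i⁻¹ := by rw [his, inv_inv]
      _ = s⁻¹ := by group
  have icomm : ∀ x, Commute x s → Commute (i⁻¹ * x * i) s := by
    intro x hx
    have h1 : Commute x (i * s * i⁻¹) := by rw [his2]; exact hx.inv_right
    change i⁻¹ * x * i * s = s * (i⁻¹ * x * i)
    calc i⁻¹ * x * i * s = i⁻¹ * (x * (i * s * i⁻¹)) * i := by group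
      _ = i⁻¹ * ((i * s * i⁻¹) * x) * i := by rw [h1.eq]
      _ = s * (i⁻¹ * x * i) := by group
  intro n
  induction n using Nat.strong_induction_on with
  | _ n ih =>
    intro T hT4 hTi hTs hcard
    by_contra hcon
    push Not at hcon
    obtain ⟨q0, hq0, hq0s⟩ := hcon
    have hTi' : ∀ x ∈ T, i * x * i⁻¹ ∈ T := by
      intro x hx
      have h1 : i * x * i⁻¹ = i⁻¹ * (i⁻¹ * (i⁻¹ * x * i) * i) * i := by
        have h2 : i⁻¹ = i * i * i := by
          rw [inv_eq_iff_mul_eq_one]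
          calc i * (i * i * i) = i ^ 4 := by
                simp only [pow_succ, pow_zero, one_mul, mul_assoc]
            _ = 1 := hi
        calc i * x * i⁻¹ = (i⁻¹)⁻¹ * x * i⁻¹ := by rw [inv_inv]
          _ = (i * i * i)⁻¹ * x * (i * i * i) := by rw [← h2]
          _ = i⁻¹ * (i⁻¹ * (i⁻¹ * x * i) * i) * i := by group
      rw [h1]
      exact hTi _ (hTi _ (hTi _ hx))
    have hTs' : ∀ x ∈ T, s * x * s⁻¹ ∈ T := by
      intro x hx
      rw [← conj_conj hs]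
      exact hTs _ (hTs _ hx)
    have IH : ∀ N : Subgroup K, N ≤ T → N ≠ T → (∀ x ∈ N, i⁻¹ * x * i ∈ N) →
        (∀ x ∈ N, s⁻¹ * x * s ∈ N) → ∀ x ∈ N, Commute x s := by
      intro N h1 h2 h3 h4
      refine ih (Nat.card N) ?_ N (fun x hx => hT4 x (h1 hx)) h3 h4 rfl
      rw [← hcard]
      apply lt_of_le_of_ne (Nat.card_mono (Set.toFinite _) h1)
      intro heq
      exact h2 (eq_of_le_of_card_ge h1 heq.ge)
    have hT1 : closure {w | ∃ x ∈ T, w = s * x * s⁻¹ * x⁻¹} = T := by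
      by_contra hne
      have hle : closure {w | ∃ x ∈ T, w = s * x * s⁻¹ * x⁻¹} ≤ T := by
        rw [closure_le]
        rintro w ⟨x, hx, rfl⟩
        exact mul_mem (hTs' x hx) (inv_mem hx)
      have h1 := IH _ hle hne (closure_conj (by
        rintro w ⟨x, hx, rfl⟩
        have h2 : i⁻¹ * (s * x * s⁻¹ * x⁻¹) * i =
            (s * (s⁻¹ * (i⁻¹ * x * i) * s) * s⁻¹ * (s⁻¹ * (i⁻¹ * x * i) * s)⁻¹)⁻¹ := by
          calc i⁻¹ * (s * x * s⁻¹ * x⁻¹) * i =
              (i⁻¹ * s * i) * (i⁻¹ * x * i) * (i⁻¹ * s * i)⁻¹ * (i⁻¹ * x * i)⁻¹ := by group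
            _ = s⁻¹ * (i⁻¹ * x * i) * s⁻¹⁻¹ * (i⁻¹ * x * i)⁻¹ := by rw [his]
            _ = _ := by group
        rw [h2]
        exact inv_mem (subset_closure ⟨_, hTs _ (hTi _ hx), rfl⟩))) (closure_conj (by
        rintro w ⟨x, hx, rfl⟩
        have h2 : s⁻¹ * (s * x * s⁻¹ * x⁻¹) * s =
            s * (s⁻¹ * x * s) * s⁻¹ * (s⁻¹ * x * s)⁻¹ := by group
        rw [h2]
        exact subset_closure ⟨_, hTs _ hx, rfl⟩))
      apply hq0s
      exact coprime_comm (fun x hx => hT4 x (hle hx)) hs h1 (subset_closure ⟨q0, hq0, rfl⟩)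
    obtain ⟨Z, hZd⟩ : ∃ Z, Z = T ⊓ centralizer (T : Set K) ⊓ centralizer {s} := ⟨_, rfl⟩
    have hZ : ∀ x, x ∈ Z ↔ x ∈ T ∧ (∀ y ∈ T, Commute x y) ∧ Commute x s := by
      intro x
      rw [hZd, mem_inf, mem_inf, mem_cent, mem_centralizer_iff, and_assoc]
      refine and_congr_right fun _ => and_congr_left fun _ => ?_
      exact ⟨fun h y hy => (h y hy).symm, fun h y hy => (h y hy).symm⟩
    have hZT : Z ≤ T := fun x hx => ((hZ x).1 hx).1
    have hZi : ∀ x ∈ Z, i⁻¹ * x * i ∈ Z := by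
      intro x hx
      obtain ⟨h1, h2, h3⟩ := (hZ x).1 hx
      refine (hZ _).2 ⟨hTi x h1, fun y hy => ?_, icomm x h3⟩
      have h4 := h2 _ (hTi' y hy)
      change i⁻¹ * x * i * y = y * (i⁻¹ * x * i)
      calc i⁻¹ * x * i * y = i⁻¹ * (x * (i * y * i⁻¹)) * i := by group
        _ = i⁻¹ * ((i * y * i⁻¹) * x) * i := by rw [h4.eq]
        _ = y * (i⁻¹ * x * i) := by group
    have key3 : ∀ N : Subgroup K, N ≤ T → N ≠ T → (∀ x ∈ N, i⁻¹ * x * i ∈ N) →
        (∀ x ∈ N, s⁻¹ * x * s ∈ N) → (∀ x ∈ N, ∀ y ∈ T, y⁻¹ * x * y ∈ N) → N ≤ Z := by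
      intro N h1 h2 h3 h4 h5 x hx
      have h6 := IH N h1 h2 h3 h4
      refine (hZ x).2 ⟨h1 hx, ?_, h6 x hx⟩
      have h7 : T ≤ centralizer {x} := by
        rw [← hT1, closure_le]
        rintro w ⟨y, hy, rfl⟩
        rw [SetLike.mem_coe, mem_cent]
        have h8 := (h6 _ (h5 x hx y hy)).eq
        have h9 : Commute (y * s * y⁻¹) x := by
          change y * s * y⁻¹ * x = x * (y * s * y⁻¹)
          calc y * s * y⁻¹ * x = y * (s * (y⁻¹ * x * y)) * y⁻¹ := by group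
            _ = y * ((y⁻¹ * x * y) * s) * y⁻¹ := by rw [h8]
            _ = x * (y * s * y⁻¹) := by group
        have h10 : s * y * s⁻¹ * y⁻¹ = s * (y * s * y⁻¹)⁻¹ := by group
        rw [h10]
        exact (h6 x hx).symm.mul_left h9.inv_left
      intro y hy
      exact (mem_cent.1 (h7 hy)).symm
    have hcomm : ∀ x ∈ T, ∀ y ∈ T, x * y * x⁻¹ * y⁻¹ ∈ Z := by
      have hle : ⁅T, T⁆ ≤ T := commutator_le.2 fun x hx y hy => by
        rw [commutatorElement_def]
        exact mul_mem (mul_mem (mul_mem hx hy) (inv_mem hx)) (inv_mem hy)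
      have hinv : ∀ g : K, (∀ x ∈ T, g⁻¹ * x * g ∈ T) → ∀ x ∈ ⁅T, T⁆, g⁻¹ * x * g ∈ ⁅T, T⁆ := by
        intro g hg
        rw [Subgroup.commutator_def]
        apply closure_conj
        rintro w ⟨x, hx, y, hy, rfl⟩
        refine subset_closure ⟨g⁻¹ * x * g, hg x hx, g⁻¹ * y * g, hg y hy, ?_⟩
        rw [commutatorElement_def, commutatorElement_def]
        group
      have hne : ⁅T, T⁆ ≠ T := by
        intro heq
        have h1 := nil_aux T T hT4 le_rfl heq.ge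
        rw [h1, mem_bot] at hq0
        rw [hq0] at hq0s
        exact hq0s (Commute.one_left s)
      have h1 := key3 ⁅T, T⁆ hle hne (hinv i hTi) (hinv s hTs) (fun x hx y hy =>
        hinv y (fun x hx => mul_mem (mul_mem (inv_mem hy) hx) hy) x hx)
      intro x hx y hy
      have h2 := commutator_mem_commutator hx hy
      rw [commutatorElement_def] at h2
      exact h1 h2
    have hsq : ∀ x ∈ T, x ^ 2 ∈ Z := by
      by_contra hcon
      push Not at hcon
      obtain ⟨x0, hx0, hx0'⟩ := hcon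
      let Ω : Subgroup K :=
        { carrier := {x | x ∈ T ∧ x ^ 2 ∈ Z}
          one_mem' := ⟨one_mem T, by rw [one_pow]; exact one_mem Z⟩
          mul_mem' := by
            rintro x y ⟨hx, hx'⟩ ⟨hy, hy'⟩
            refine ⟨mul_mem hx hy, ?_⟩
            have h1 : (x * y) ^ 2 = x ^ 2 * (x⁻¹ * y * x⁻¹⁻¹ * y⁻¹) * y ^ 2 := by
              rw [pow_two, pow_two, pow_two]; group
            rw [h1]
            exact mul_mem (mul_mem hx' (hcomm _ (inv_mem hx) _ hy)) hy'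
          inv_mem' := by
            rintro x ⟨hx, hx'⟩
            exact ⟨inv_mem hx, by rw [inv_pow]; exact inv_mem hx'⟩ }
      have hΩ : ∀ x, x ∈ Ω ↔ x ∈ T ∧ x ^ 2 ∈ Z := fun x => Iff.rfl
      have hconj : ∀ g x : K, (g⁻¹ * x * g) ^ 2 = g⁻¹ * x ^ 2 * g := by
        intro g x
        rw [pow_two, pow_two]; group
      have h1 : Ω ≤ Z := by
        apply key3 Ω (fun x hx => ((hΩ x).1 hx).1)
        · intro heq
          rw [← heq] at hx0
          exact hx0' ((hΩ x0).1 hx0).2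
        · intro x hx
          obtain ⟨h1, h2⟩ := (hΩ x).1 hx
          exact (hΩ _).2 ⟨hTi x h1, by rw [hconj]; exact hZi _ h2⟩
        · intro x hx
          obtain ⟨h1, h2⟩ := (hΩ x).1 hx
          refine (hΩ _).2 ⟨hTs x h1, ?_⟩
          rw [hconj, mul_assoc, ((hZ _).1 h2).2.2.eq, inv_mul_cancel_left]
          exact h2
        · intro x hx y hy
          obtain ⟨h1, h2⟩ := (hΩ x).1 hx
          refine (hΩ _).2 ⟨mul_mem (mul_mem (inv_mem hy) h1) hy, ?_⟩
          rw [hconj, mul_assoc, (((hZ _).1 h2).2.1 y hy).eq, inv_mul_cancel_left]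
          exact h2
      apply hx0'
      apply h1
      refine (hΩ _).2 ⟨pow_mem hx0 2, ?_⟩
      rw [← pow_mul, hT4 x0 hx0]
      exact one_mem Z
    have hC : ∀ x ∈ T, Commute x s → x ∈ Z := by
      have h1 : T ⊓ centralizer {s} ≤ Z := by
        apply key3 _ inf_le_left
        · intro heq
          rw [← heq, mem_inf, mem_cent] at hq0
          exact hq0s hq0.2
        · intro x hx
          rw [mem_inf, mem_cent] at hx ⊢
          exact ⟨hTi x hx.1, icomm x hx.2⟩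
        · intro x hx
          rw [mem_inf, mem_cent] at hx ⊢
          rw [mul_assoc, hx.2.eq, inv_mul_cancel_left]
          exact hx
        · intro x hx y hy
          rw [mem_inf, mem_cent] at hx ⊢
          refine ⟨mul_mem (mul_mem (inv_mem hy) hx.1) hy, ?_⟩
          have h2 : y⁻¹ * x * y = y⁻¹ * x * y⁻¹⁻¹ * x⁻¹ * x := by group
          rw [h2]
          exact ((hZ _).1 (hcomm _ (inv_mem hy) _ hx.1)).2.2.mul_left hx.2
      intro x hx hxs
      exact h1 (mem_inf.2 ⟨hx, mem_cent.2 hxs⟩)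
    -- an element fixed by `i` modulo `Z`
    obtain ⟨q, hqT, hqZ, hqi⟩ : ∃ q ∈ T, q ∉ Z ∧ q⁻¹ * (i⁻¹ * q * i) ∈ Z := by
      by_contra hcon
      push Not at hcon
      have hd : ∀ x ∈ T, x⁻¹ * (i⁻¹ * x * i) ∈ T := fun x hx => mul_mem (inv_mem hx) (hTi x hx)
      -- the second difference
      have hdd : ∀ x ∈ T, ∃ z ∈ Z, (x⁻¹ * (i⁻¹ * x * i))⁻¹ * (i⁻¹ * (x⁻¹ * (i⁻¹ * x * i)) * i) =
          x * (i⁻¹ * (i⁻¹ * x * i) * i) * z := by
        intro x hx
        obtain ⟨y, hy⟩ : ∃ y, y = i⁻¹ * x * i := ⟨_, rfl⟩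
        have hyT : y ∈ T := by rw [hy]; exact hTi x hx
        have h1 : x⁻¹ * y⁻¹ * x * y ∈ Z := by
          have := hcomm _ (inv_mem hx) _ (inv_mem hyT)
          rwa [inv_inv, inv_inv] at this
        have h2 : (y ^ 2)⁻¹ ∈ Z := inv_mem (hsq y hyT)
        refine ⟨(x⁻¹ * y⁻¹ * x * y) * (y ^ 2)⁻¹, mul_mem h1 h2, ?_⟩
        have h3 := ((hZ _).1 (mul_mem h1 h2)).2.1 _ (hTi y hyT)
        have h4 : i⁻¹ * (x⁻¹ * y) * i = y⁻¹ * (i⁻¹ * y * i) := by rw [hy]; group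
        rw [← hy, h4, mul_assoc x, ← h3.eq, pow_two]
        group
      have h1 := fun x hx => hcon x hx
      have g1 := hd q0 hq0
      have g2 := hd _ g1
      have g3 := hd _ g2
      have hq0Z : q0 ∉ Z := fun h => hq0s ((hZ _).1 h).2.2
      have n1 := hcon _ hq0 hq0Z
      have n2 := hcon _ g1 n1
      have n3 := hcon _ g2 n2
      have n4 := hcon _ g3 n3
      apply n4
      obtain ⟨z, hz, e1⟩ := hdd q0 hq0
      obtain ⟨z', hz', e2⟩ := hdd _ g2
      rw [e2, e1]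
      obtain ⟨y, hy⟩ : ∃ y, y = i⁻¹ * (i⁻¹ * q0 * i) * i := ⟨_, rfl⟩
      have hyT : y ∈ T := by rw [hy]; exact hTi _ (hTi _ hq0)
      rw [← hy]
      have hzi := hZi _ (hZi _ hz)
      have e3 : i⁻¹ * (i⁻¹ * (q0 * y * z) * i) * i = y * q0 * (i⁻¹ * (i⁻¹ * z * i) * i) := by
        have h2 : i⁻¹ * (i⁻¹ * y * i) * i = q0 := by
          calc i⁻¹ * (i⁻¹ * y * i) * i = (i ^ 4)⁻¹ * q0 * i ^ 4 := by
                rw [hy]; simp only [pow_succ, pow_zero, one_mul]; group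
            _ = q0 := by rw [hi]; group
        calc i⁻¹ * (i⁻¹ * (q0 * y * z) * i) * i = (i⁻¹ * (i⁻¹ * q0 * i) * i) *
              (i⁻¹ * (i⁻¹ * y * i) * i) * (i⁻¹ * (i⁻¹ * z * i) * i) := by group
          _ = _ := by rw [h2, ← hy]
      rw [e3]
      have e4 : q0 * y * z * (y * q0 * (i⁻¹ * (i⁻¹ * z * i) * i)) * z' =
          q0 ^ 2 * (q0⁻¹ * (y ^ 2) * q0⁻¹⁻¹ * (y ^ 2)⁻¹) * y ^ 2 * z *
            (i⁻¹ * (i⁻¹ * z * i) * i) * z' := by
        have h2 := ((hZ _).1 hz).2.1 _ (mul_mem hyT hq0)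
        calc q0 * y * z * (y * q0 * (i⁻¹ * (i⁻¹ * z * i) * i)) * z' =
            q0 * y * (z * (y * q0)) * (i⁻¹ * (i⁻¹ * z * i) * i) * z' := by
              simp only [mul_assoc]
          _ = q0 * y * ((y * q0) * z) * (i⁻¹ * (i⁻¹ * z * i) * i) * z' := by rw [h2.eq]
          _ = _ := by rw [pow_two, pow_two]; group
      rw [e4]
      exact mul_mem (mul_mem (mul_mem (mul_mem (mul_mem (hsq _ hq0)
        (hcomm _ (inv_mem hq0) _ (pow_mem hyT 2))) (hsq _ hyT)) hz) hzi) hz'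
    -- correct `q` by a central element
    obtain ⟨w, hw⟩ : ∃ w, w = q * (s⁻¹ * q * s) * (s * q * s⁻¹) := ⟨_, rfl⟩
    have hq2T := hTs q hqT
    have hq3T := hTs' q hqT
    have hwT : w ∈ T := by rw [hw]; exact mul_mem (mul_mem hqT hq2T) hq3T
    have hws : Commute w s := by
      refine coprime_comm (B := Z) (fun x hx => hT4 x (hZT hx)) hs (fun x hx => ((hZ x).1 hx).2.2) ?_
      have e1 : s * w * s⁻¹ * w⁻¹ = (s * q * s⁻¹) * (q * (s⁻¹ * q * s)) * (s * q * s⁻¹)⁻¹ *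
          (q * (s⁻¹ * q * s))⁻¹ := by
        have e2 : s * w * s⁻¹ = (s * q * s⁻¹) * q * (s * (s * q * s⁻¹) * s⁻¹) := by
          rw [hw]; group
        rw [e2, conj_conj' hs, hw]
        group
      rw [e1]
      exact hcomm _ hq3T _ (mul_mem hqT hq2T)
    have hwZ : w ∈ Z := hC w hwT hws
    have hwc := (hZ w).1 hwZ
    have hw4 : w ^ 4 = 1 := hT4 w hwT
    obtain ⟨p, hp⟩ : ∃ p, p = q * w := ⟨_, rfl⟩
    have hpT : p ∈ T := by rw [hp]; exact mul_mem hqT hwT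
    have hpZ : p ∉ Z := by
      intro h
      apply hqZ
      have : q = p * w⁻¹ := by rw [hp]; group
      rw [this]
      exact mul_mem h (inv_mem hwZ)
    obtain ⟨z, hz⟩ : ∃ z, z = w⁻¹ * (q⁻¹ * (i⁻¹ * q * i)) * (i⁻¹ * w * i) := ⟨_, rfl⟩
    have hzZ : z ∈ Z := by
      rw [hz]; exact mul_mem (mul_mem (inv_mem hwZ) hqi) (hZi w hwZ)
    have hpi : i⁻¹ * p * i = p * z := by
      rw [hz, hp]; group
    have hp123 : p * (s⁻¹ * p * s) * (s * p * s⁻¹) = 1 := by
      have e1 : s⁻¹ * p * s = (s⁻¹ * q * s) * w := by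
        calc s⁻¹ * p * s = s⁻¹ * q * (w * s) := by rw [hp]; group
          _ = s⁻¹ * q * (s * w) := by rw [hws.eq]
          _ = (s⁻¹ * q * s) * w := by group
      have e2 : s * p * s⁻¹ = (s * q * s⁻¹) * w := by
        calc s * p * s⁻¹ = s * q * (w * s⁻¹) := by rw [hp]; group
          _ = s * q * (s⁻¹ * w) := by rw [hws.inv_right.eq]
          _ = (s * q * s⁻¹) * w := by group
      have c2 := (hwc.2.1 _ hq2T).eq
      have c3 := (hwc.2.1 _ hq3T).eq
      rw [e1, e2, hp]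
      calc q * w * (s⁻¹ * q * s * w) * (s * q * s⁻¹ * w) =
          q * (w * (s⁻¹ * q * s)) * (w * (s * q * s⁻¹)) * w := by simp only [mul_assoc]
        _ = q * ((s⁻¹ * q * s) * w) * ((s * q * s⁻¹) * w) * w := by rw [c2, c3]
        _ = q * (s⁻¹ * q * s) * (w * (s * q * s⁻¹)) * w * w := by simp only [mul_assoc]
        _ = q * (s⁻¹ * q * s) * ((s * q * s⁻¹) * w) * w * w := by rw [c3]
        _ = (q * (s⁻¹ * q * s) * (s * q * s⁻¹)) * w * w * w := by simp only [mul_assoc]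
        _ = w * w * w * w := by rw [← hw]
        _ = 1 := by
          rw [← hw4]
          simp only [pow_succ, pow_zero, one_mul]
    have hp2 := (hZ _).1 (hsq p hpT)
    have hzc := (hZ _).1 hzZ
    have h1 := endgame hF hA hi hs his (hT4 p hpT) (hT4 z hzc.1) hp123 hpi (hzc.2.1 p hpT)
      (hzc.2.1 _ (hTs p hpT)) hzc.2.2 hp2.2.2 (hp2.2.1 _ (hTs p hpT))
    apply hpZ
    rw [h1]
    exact one_mem Z

/-- `KL`: `3`-elements inverted by `2`-elements lie in `Rad 3` of finite subgroups -/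
theorem kl_fin [Finite K] (hF : E12 K) (hA : NoA4 K) {i s : K} (hi : i ^ 4 = 1) (hs : s ^ 3 = 1)
    (his : i⁻¹ * s * i = s⁻¹) : s ∈ Rad 3 K := by
  refine hF.mem_rad3 hs fun u hu => ?_
  have h1 := LSplus (hF.quo (Rad 3 K)) (hA.quo hF (Rad 3 K) fun x hx => hx.1)
    (i := (i : K ⧸ Rad 3 K)) (s := (s : K ⧸ Rad 3 K)) (mk_pow_one hi) (mk_pow_one hs)
    (by rw [← QuotientGroup.mk_inv, ← QuotientGroup.mk_mul, ← QuotientGroup.mk_mul, his,
      QuotientGroup.mk_inv]) _ (Rad 4 (K ⧸ Rad 3 K)) (fun x hx => hx.1)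
    (fun x hx => conj_mem_rad' hx _) (fun x hx => conj_mem_rad' hx _) rfl u hu
  exact h1.symm

end Pool.Agent.W629.Tw
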