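import Mathlib
import Pool.Agent.W629.Tw.LS

set_option autoImplicit false

/-!
# The elements inverted by an involution
-/

namespace Pool.Agent.W629.Tw

open Pool.Agent.W629 Subgroup

variable {G : Type} [Group G]

/-- the class of groups in which the second part of the argument takes place -/
structure HH (G : Type) [Group G] : Prop where
  bf : BF G
  e : E12 G
  rad : Rad 3 G = ⊥
  kl : ∀ K : Subgroup G, Finite K → ∀ a s : G, a ∈ K → s ∈ K → a ^ 4 = 1 → s ^ 3 = 1 →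
    a⁻¹ * s * a = s⁻¹ → s ∈ RK 3 K

/-- `s` is an element of order dividing three inverted by the involution `a` -/
def Iv (a s : G) : Prop := s ^ 3 = 1 ∧ a * s * a = s⁻¹

theorem Iv.conj {a s x : G} (h : Iv a s) (hx : Commute x a) : Iv a (x⁻¹ * s * x) := by
  refine ⟨conj_pow_one' h.1, ?_⟩
  have h1 := hx.eq
  have h2 := hx.inv_left.eq
  calc a * (x⁻¹ * s * x) * a = (a * x⁻¹) * s * (x * a) := by simp only [mul_assoc]
    _ = (x⁻¹ * a) * s * (a * x) := by rw [h1, h2]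
    _ = x⁻¹ * (a * s * a) * x := by simp only [mul_assoc]
    _ = (x⁻¹ * s * x)⁻¹ := by rw [h.2]; group

theorem Iv.inv {a s : G} (ha : a ^ 2 = 1) (h : Iv a s) : Iv a s⁻¹ :=
  ⟨by rw [inv_pow, h.1, inv_one], by rw [cinv ha, h.2]⟩

theorem Iv.mul {a s t : G} (ha : a ^ 2 = 1) (h : Iv a s) (h' : Iv a t) (hc : Commute s t) :
    Iv a (s * t) :=
  ⟨by rw [hc.mul_pow, h.1, h'.1, one_mul], by
    rw [cmul ha, h.2, h'.2, ← mul_inv_rev, ← hc.eq]⟩

theorem Iv.one {a : G} (ha : a ^ 2 = 1) : Iv a (1 : G) :=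
  ⟨one_pow _, by rw [mul_one, sq_mul ha, inv_one]⟩

theorem inv_comm_fix {e v v' c : G} (he : e ^ 2 = 1) (hv : e * v * e = v⁻¹)
    (hv' : e * v' * e = v'⁻¹) (hc : c = v⁻¹ * v'⁻¹ * v * v') (h3 : Commute v c)
    (h4 : Commute v' c) : e * c * e = c := by
  have e1 : e * c * e = v * v' * v⁻¹ * v'⁻¹ := by
    conv_lhs => rw [hc]
    rw [cmul he, cmul he, cmul he, cinv he, cinv he, hv, hv', inv_inv, inv_inv]
  have hvv : v * v' = v' * v * c := by rw [hc]; group
  rw [e1, hvv]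
  calc v' * v * c * v⁻¹ * v'⁻¹ = v' * v * (c * v⁻¹) * v'⁻¹ := by simp only [mul_assoc]
    _ = v' * v * (v⁻¹ * c) * v'⁻¹ := by rw [h3.inv_left.eq]
    _ = v' * (c * v'⁻¹) := by group
    _ = v' * (v'⁻¹ * c) := by rw [h4.inv_left.eq]
    _ = c := by group

theorem HH.kl2 (hG : HH G) {K : Subgroup G} (hK : Finite K) {a s : G} (ha : a ^ 2 = 1)
    (haK : a ∈ K) (hsK : s ∈ K) (h : Iv a s) : s ∈ RK 3 K :=
  hG.kl K hK a s haK hsK (four_of_two ha) h.1 (by rw [sq_inv ha, h.2])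

/-- two elements inverted by `a` -/
theorem HH.pair (hG : HH G) {a u v : G} (ha : a ^ 2 = 1) (hu : Iv a u) (hv : Iv a v) :
    ∃ K : Subgroup G, Finite K ∧ a ∈ K ∧ u ∈ RK 3 K ∧ v ∈ RK 3 K := by
  have hsq : ∀ w, Iv a w → (a * w) ^ 2 = 1 := by
    intro w hw
    rw [pow_two]
    calc a * w * (a * w) = (a * w * a) * w := by simp only [mul_assoc]
      _ = 1 := by rw [hw.2, inv_mul_cancel]
  have hK := inv3 hG.bf hG.e ha (hsq u hu) (hsq v hv)
  have haK : a ∈ closure {a, a * u, a * v} := subset_closure (by simp)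
  have hm : ∀ w, a * w ∈ closure {a, a * u, a * v} → w ∈ closure {a, a * u, a * v} := by
    intro w hw
    have : w = a * (a * w) := by rw [← mul_assoc, sq_mul ha, one_mul]
    rw [this]
    exact mul_mem haK hw
  exact ⟨_, hK, haK, hG.kl2 hK ha haK (hm u (subset_closure (by simp))) hu,
    hG.kl2 hK ha haK (hm v (subset_closure (by simp))) hv⟩

theorem HH.pair_cube (hG : HH G) {a u v : G} (ha : a ^ 2 = 1) (hu : Iv a u) (hv : Iv a v) :
    (u * v) ^ 3 = 1 := by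
  obtain ⟨K, -, -, h1, h2⟩ := hG.pair ha hu hv
  exact RK_mul h1 (RK_le h2) hv.1

theorem RK_rel {K : Subgroup G} {u v : G} (hu : u ∈ RK 3 K) (hv : v ∈ RK 3 K) :
    Commute u (u⁻¹ * v⁻¹ * u * v) ∧ Commute v (u⁻¹ * v⁻¹ * u * v) := by
  have h1 : Commute u (v⁻¹ * u * v) := comm_conj (RK_pow hv) (RK_mul hu (RK_le hv) (RK_pow hv))
    (RK_mul hu (RK_le hv) (RK_pow hv)) (by
      rw [mul_assoc]
      exact RK_mul hu (RK_le (mul_mem hu hv)) (RK_pow (mul_mem hu hv))) (Commute.refl u)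
  have h2 : Commute v (u⁻¹ * v * u) := comm_conj (RK_pow hu) (RK_mul hv (RK_le hu) (RK_pow hu))
    (RK_mul hv (RK_le hu) (RK_pow hu)) (by
      rw [mul_assoc]
      exact RK_mul hv (RK_le (mul_mem hv hu)) (RK_pow (mul_mem hv hu))) (Commute.refl v)
  constructor
  · have : u⁻¹ * v⁻¹ * u * v = u⁻¹ * (v⁻¹ * u * v) := by group
    rw [this]
    exact (Commute.refl u).inv_right.mul_right h1
  · have : u⁻¹ * v⁻¹ * u * v = (u⁻¹ * v * u)⁻¹ * v := by group
    rw [this]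
    exact h2.inv_right.mul_right (Commute.refl v)

theorem HH.rad_cent (hG : HH G) {a e : G} (ha : a ^ 2 = 1) (he : e ∈ RK 3 (centralizer {a})) :
    e = 1 := by
  have := T3b hG.bf hG.e ha he
  rwa [hG.rad, mem_bot] at this

theorem comm_of_comm_eq {u v : G} (h : u⁻¹ * v⁻¹ * u * v = 1) : Commute u v := by
  change u * v = v * u
  calc u * v = v * u * (u⁻¹ * v⁻¹ * u * v) := by group
    _ = v * u := by rw [h, mul_one]

/-- `(*)` -/
theorem HH.star (hG : HH G) {a s x : G} (ha : a ^ 2 = 1) (hs : Iv a s) (hx : Commute x a) :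
    Commute s (x⁻¹ * s * x) := by
  have hs' := hs.conj hx
  obtain ⟨e, he⟩ : ∃ e, e = s⁻¹ * (x⁻¹ * s * x)⁻¹ * s * (x⁻¹ * s * x) := ⟨_, rfl⟩
  obtain ⟨K, -, -, h1, h2⟩ := hG.pair ha hs hs'
  obtain ⟨h3, h4⟩ := RK_rel h1 h2
  rw [← he] at h3 h4
  have hea : Commute e a := (comm_iff_c ha).2 (inv_comm_fix ha hs.2 hs'.2 he h3 h4)
  have he3 : e ^ 3 = 1 := by
    have : e ∈ RK 3 K := by
      rw [he]
      exact mul_mem (mul_mem (mul_mem (inv_mem h1) (inv_mem h2)) h1) h2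
    exact RK_pow this
  apply comm_of_comm_eq
  rw [← he]
  apply hG.rad_cent ha
  refine mem_RK.2 ⟨mem_cent.2 hea, Subtype.ext (by simpa using he3), ?_⟩
  rintro ⟨z, hz⟩ hz3
  have hz3' : z ^ 3 = 1 := by simpa using congrArg Subtype.val hz3
  have hza : Commute z a := mem_cent.1 hz
  have hL : Finite (closure {z * a, s * x}) := hG.bf _ _
  obtain ⟨L, hLd⟩ : ∃ L, L = closure {z * a, s * x} := ⟨_, rfl⟩
  rw [← hLd] at hL
  have m1 : z * a ∈ L := by rw [hLd]; exact subset_closure (by simp)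
  have m2 : s * x ∈ L := by rw [hLd]; exact subset_closure (by simp)
  obtain ⟨hzL, haL⟩ := mem_of_mul_pow hz3' (four_of_two ha) hza m1
  have m3 : s⁻¹ * x ∈ L := by
    have : s⁻¹ * x = a * (s * x) * a := by
      rw [cmul ha, hs.2, (comm_iff_c ha).1 hx]
    rw [this]
    exact mul_mem (mul_mem haL m2) haL
  have hsL : s ∈ L := by
    have h5 : s * x * (s⁻¹ * x)⁻¹ = s⁻¹ := by
      calc s * x * (s⁻¹ * x)⁻¹ = s * s := by group
        _ = s⁻¹ := (x_inv hs.1).symm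
    have h6 : s⁻¹ ∈ L := by rw [← h5]; exact mul_mem m2 (inv_mem m3)
    exact (inv_mem_iff).1 h6
  have hxL : x ∈ L := by
    have h5 : x = s⁻¹ * (s * x) := by group
    rw [h5]
    exact mul_mem (inv_mem hsL) m2
  have h5 : s ∈ RK 3 L := hG.kl2 hL ha haL hsL hs
  have h6 : x⁻¹ * s * x ∈ RK 3 L := RK_conj' h5 hxL
  have h7 : e ∈ RK 3 L := by
    rw [he]
    exact mul_mem (mul_mem (mul_mem (inv_mem h5) (inv_mem h6)) h5) h6
  exact Subtype.ext (by simpa using RK_mul h7 hzL hz3')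

/-- `(**)` -/
theorem HH.dstar (hG : HH G) {a u v d : G} (ha : a ^ 2 = 1) (hu : Iv a u) (hv : Iv a v)
    (hd : Iv a d) (h : Commute u v) : Commute u (d⁻¹ * v * d) :=
  comm_conj hd.1 (hG.pair_cube ha hv hd) (hG.pair_cube ha hu hd)
    (hG.pair_cube ha (hu.mul ha hv h) hd) h

/-- the elements inverted by an involution commute -/
theorem HH.comm (hG : HH G) {a u v : G} (ha : a ^ 2 = 1) (hu : Iv a u) (hv : Iv a v) :
    Commute u v := by
  obtain ⟨c, hc⟩ : ∃ c, c = u⁻¹ * v⁻¹ * u * v := ⟨_, rfl⟩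
  obtain ⟨K, -, -, h1, h2⟩ := hG.pair ha hu hv
  obtain ⟨h3, h4⟩ := RK_rel h1 h2
  rw [← hc] at h3 h4
  have hca : Commute c a := (comm_iff_c ha).2 (inv_comm_fix ha hu.2 hv.2 hc h3 h4)
  have hc3 : c ^ 3 = 1 := by
    have : c ∈ RK 3 K := by
      rw [hc]
      exact mul_mem (mul_mem (mul_mem (inv_mem h1) (inv_mem h2)) h1) h2
    exact RK_pow this
  have key : ∀ x, Commute x a → Commute c (x⁻¹ * c * x) := by
    intro x hx
    have hux := hu.conj hx
    have hvx := hv.conj hx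
    have e1 : x⁻¹ * c * x = (x⁻¹ * u * x)⁻¹ * ((x⁻¹ * v * x)⁻¹ * (x⁻¹ * u * x) *
        (x⁻¹ * v * x)) := by rw [hc]; group
    have e2 : x⁻¹ * c * x = ((x⁻¹ * u * x)⁻¹ * (x⁻¹ * v * x) *
        (x⁻¹ * u * x))⁻¹ * (x⁻¹ * v * x) := by rw [hc]; group
    have g1 : Commute u (x⁻¹ * c * x) := by
      rw [e1]
      exact (hG.star ha hu hx).inv_right.mul_right (hG.dstar ha hu hux hvx (hG.star ha hu hx))
    have g2 : Commute v (x⁻¹ * c * x) := by
      rw [e2]
      exact (hG.dstar ha hv hvx hux (hG.star ha hv hx)).inv_right.mul_right (hG.star ha hv hx)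
    nth_rw 1 [hc]
    exact ((g1.inv_left.mul_left g2.inv_left).mul_left g1).mul_left g2
  apply comm_of_comm_eq
  rw [← hc]
  apply hG.rad_cent ha
  refine mem_RK.2 ⟨mem_cent.2 hca, Subtype.ext (by simpa using hc3), ?_⟩
  rintro ⟨z, hz⟩ hz3
  have hz3' : z ^ 3 = 1 := by simpa using congrArg Subtype.val hz3
  have hza : Commute z a := mem_cent.1 hz
  refine Subtype.ext ?_
  rw [coe_pow, coe_mul]
  apply pow_a_of cop34 (hG.e _)
  have k1 : Commute c (z * c * z⁻¹) := by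
    have := key z⁻¹ hza.inv_left
    rwa [inv_inv] at this
  have k2 : Commute c (z * (z * c * z⁻¹) * z⁻¹) := by
    have := key (z * z)⁻¹ (hza.mul_left hza).inv_left
    rw [inv_inv] at this
    convert this using 1
    group
  have k3 : Commute (z * c * z⁻¹) (z * (z * c * z⁻¹) * z⁻¹) := by
    change z * c * z⁻¹ * (z * (z * c * z⁻¹) * z⁻¹) = z * (z * c * z⁻¹) * z⁻¹ * (z * c * z⁻¹)
    have := k1.eq
    calc z * c * z⁻¹ * (z * (z * c * z⁻¹) * z⁻¹) = z * (c * (z * c * z⁻¹)) * z⁻¹ := by group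
      _ = z * ((z * c * z⁻¹) * c) * z⁻¹ := by rw [this]
      _ = _ := by group
  have e1 : (c * z) ^ 3 = c * (z * c * z⁻¹) * (z * (z * c * z⁻¹) * z⁻¹) := by
    calc (c * z) ^ 3 = c * (z * c * z⁻¹) * (z * (z * c * z⁻¹) * z⁻¹) * z ^ 3 := by
          simp only [pow_succ, pow_zero, one_mul]; group
      _ = _ := by rw [hz3', mul_one]
  rw [e1, (k2.mul_left k3).mul_pow, k1.mul_pow, hc3, conj_pow_one hc3,
    conj_pow_one (conj_pow_one hc3)]
  simp

/-- the subgroup of the elements inverted by an involution -/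
def HH.Isub (hG : HH G) {a : G} (ha : a ^ 2 = 1) : Subgroup G where
  carrier := {s | Iv a s}
  one_mem' := Iv.one ha
  mul_mem' := fun hx hy => Iv.mul ha hx hy (hG.comm ha hx hy)
  inv_mem' := fun hx => Iv.inv ha hx

theorem HH.mem_Isub (hG : HH G) {a : G} (ha : a ^ 2 = 1) {s : G} : s ∈ hG.Isub ha ↔ Iv a s :=
  Iff.rfl

end Pool.Agent.W629.Tw
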