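import Mathlib
import Pool.Agent.W629.Tw.Task2

set_option autoImplicit false

/-!
# Centralisers of involutions modulo the involution
-/

namespace Pool.Agent.W629.Tw

open Pool.Agent.W629 Subgroup

variable {G : Type} [Group G]

theorem BF.sub (h : BF G) (K : Subgroup G) : BF K := by
  intro x y
  have h1 : Finite ((closure {x, y}).map K.subtype) := by
    rw [MonoidHom.map_closure, Set.image_pair]
    exact h _ _
  exact Finite.of_injective
    (fun z : closure {x, y} => (⟨K.subtype z, mem_map_of_mem _ z.2⟩ : (closure {x, y}).map K.subtype))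
    (fun z w hzw => by
      have := congrArg Subtype.val hzw
      exact Subtype.ext (Subtype.ext this))

theorem BF.quo (h : BF G) (N : Subgroup G) [N.Normal] : BF (G ⧸ N) := by
  intro x y
  obtain ⟨x, rfl⟩ := QuotientGroup.mk_surjective x
  obtain ⟨y, rfl⟩ := QuotientGroup.mk_surjective y
  have h1 : closure {(x : G ⧸ N), (y : G ⧸ N)} = (closure {x, y}).map (QuotientGroup.mk' N) := by
    rw [MonoidHom.map_closure, Set.image_pair]
    rfl
  rw [h1]
  have := h x y
  exact Finite.of_surjective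
    (fun z : closure {x, y} => (⟨QuotientGroup.mk' N z, mem_map_of_mem _ z.2⟩ :
      (closure {x, y}).map (QuotientGroup.mk' N)))
    (by
      rintro ⟨_, z, hz, rfl⟩
      exact ⟨⟨z, hz⟩, rfl⟩)

/-- the property `kl` passes to subgroups -/
theorem HH.kl_sub (hG : HH G) (C : Subgroup G) (K : Subgroup C) (hK : Finite K) (a s : C)
    (haK : a ∈ K) (hsK : s ∈ K) (ha : a ^ 4 = 1) (hs : s ^ 3 = 1) (has : a⁻¹ * s * a = s⁻¹) :
    s ∈ RK 3 K := by
  have hK' : Finite (K.map C.subtype) :=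
    Finite.of_surjective (fun z : K => (⟨C.subtype z, mem_map_of_mem _ z.2⟩ : K.map C.subtype)) (by
      rintro ⟨_, z, hz, rfl⟩
      exact ⟨⟨z, hz⟩, rfl⟩)
  have h1 := hG.kl _ hK' a s (mem_map_of_mem C.subtype haK) (mem_map_of_mem C.subtype hsK)
    (coe_eq_one ha) (coe_eq_one hs) (by rw [← coe_inv, ← coe_mul, ← coe_mul, has, coe_inv])
  refine mem_RK.2 ⟨hsK, Subtype.ext (by rw [coe_pow]; exact hs), ?_⟩
  rintro ⟨z, hz⟩ hz3
  have hz3' : z ^ 3 = 1 := coe_eq_one hz3
  have h2 := RK_mul h1 (mem_map_of_mem C.subtype hz) (coe_eq_one hz3')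
  exact Subtype.ext (Subtype.ext (by simpa using h2))

section Central

variable {C : Type} [Group C] {c : C}

/-- the subgroup generated by a central involution -/
def Zc (c : C) (hc : c ^ 2 = 1) : Subgroup C where
  carrier := {x | x = 1 ∨ x = c}
  one_mem' := Or.inl rfl
  mul_mem' := by
    rintro x y (rfl | rfl) (rfl | rfl)
    · exact Or.inl (one_mul 1)
    · exact Or.inr (one_mul _)
    · exact Or.inr (mul_one _)
    · exact Or.inl (sq_mul hc)
  inv_mem' := by
    rintro x (rfl | rfl)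
    · exact Or.inl inv_one
    · exact Or.inr (sq_inv hc)

theorem mem_Zc {hc : c ^ 2 = 1} {x : C} : x ∈ Zc c hc ↔ x = 1 ∨ x = c := Iff.rfl

theorem Zc_normal (hc : c ^ 2 = 1) (hz : ∀ x, Commute c x) : (Zc c hc).Normal := by
  refine ⟨?_⟩
  rintro x (rfl | rfl) g
  · left; group
  · right; rw [← (hz g).eq]; group

theorem sq_of_mem {hc : c ^ 2 = 1} {x : C} (h : x ∈ Zc c hc) : x ^ 2 = 1 := by
  rcases h with rfl | rfl
  · exact one_pow 2
  · exact hc

theorem comm_of_mem {hc : c ^ 2 = 1} (hz : ∀ x, Commute c x) {x : C} (h : x ∈ Zc c hc) (y : C) :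
    Commute x y := by
  rcases h with rfl | rfl
  · exact Commute.one_left y
  · exact hz y

/-- `3`-elements of a central extension of a group of exponent three -/
theorem ce (hB : BF C) (hE : E12 C) (hc : c ^ 2 = 1) (hz : ∀ x, Commute c x) (S : Subgroup C)
    (hS : ∀ x ∈ S, x ^ 3 ∈ Zc c hc) {x y : C} (hx : x ∈ S) (hy : y ∈ S) (hx3 : x ^ 3 = 1)
    (hy3 : y ^ 3 = 1) : (x * y) ^ 3 = 1 := by
  have hK : Finite (closure {x, y}) := hB _ _
  obtain ⟨K, hKd⟩ : ∃ K, K = closure {x, y} := ⟨_, rfl⟩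
  rw [← hKd] at hK
  have hxK : x ∈ K := by rw [hKd]; exact subset_closure (by simp)
  have hyK : y ∈ K := by rw [hKd]; exact subset_closure (by simp)
  have hKS : K ≤ S := by
    rw [hKd, closure_le]
    rintro z (rfl | hz)
    · exact hx
    · rw [Set.mem_singleton_iff.1 hz]; exact hy
  have h1 : x ∈ RK 3 K := by
    refine mem_RK.2 ⟨hxK, (hE.sub K).mem_rad3 (Subtype.ext (by simpa using hx3)) ?_⟩
    intro u hu
    obtain ⟨⟨w, hw⟩, rfl⟩ := QuotientGroup.mk_surjective u
    have h2 := hS w (hKS hw)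
    have h3 : Commute (⟨x, hxK⟩ : K) ((⟨w, hw⟩ : K) ^ 3) :=
      Subtype.ext ((comm_of_mem hz h2 x).symm.eq)
    have h4 := mk_comm (N := Rad 3 K) h3
    rw [QuotientGroup.mk_pow] at h4
    have h5 : (((⟨w, hw⟩ : K) : K ⧸ Rad 3 K)) = (((⟨w, hw⟩ : K) : K ⧸ Rad 3 K) ^ 3)⁻¹ := by
      rw [eq_inv_iff_mul_eq_one, ← pow_succ']
      exact hu.1
    rw [h5]
    exact h4.inv_right
  exact RK_mul h1 hyK hy3

/-- the `3`-elements over a subgroup of exponent three of the quotient -/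
def liftN (hB : BF C) (hE : E12 C) (hc : c ^ 2 = 1) (hz : ∀ x, Commute c x) (S : Subgroup C)
    (hS : ∀ x ∈ S, x ^ 3 ∈ Zc c hc) : Subgroup C where
  carrier := {x | x ∈ S ∧ x ^ 3 = 1}
  one_mem' := ⟨one_mem S, one_pow 3⟩
  mul_mem' := fun hx hy => ⟨mul_mem hx.1 hy.1, ce hB hE hc hz S hS hx.1 hy.1 hx.2 hy.2⟩
  inv_mem' := fun hx => ⟨inv_mem hx.1, by rw [inv_pow, hx.2, inv_one]⟩

theorem cube_lift (hE : E12 C) (N : Subgroup C) [N.Normal] {u : C ⧸ N} (hu : u ^ 3 = 1) :
    ∃ x : C, x ^ 3 = 1 ∧ (x : C ⧸ N) = u := by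
  obtain ⟨w, rfl⟩ := QuotientGroup.mk_surjective u
  exact ⟨w ^ 4, hE.p4 w, by rw [QuotientGroup.mk_pow, pow4 hu]⟩

theorem rad_central (hB : BF C) (hE : E12 C) (hR : Rad 3 C = ⊥) (hc : c ^ 2 = 1)
    (hz : ∀ x, Commute c x) [(Zc c hc).Normal] : Rad 3 (C ⧸ Zc c hc) = ⊥ := by
  rw [eq_bot_iff]
  intro u hu
  obtain ⟨s, hs3, rfl⟩ := cube_lift hE (Zc c hc) hu.1
  let S : Subgroup C := (Rad 3 (C ⧸ Zc c hc)).comap (QuotientGroup.mk' (Zc c hc))
  have hSm : ∀ x, x ∈ S ↔ (x : C ⧸ Zc c hc) ∈ Rad 3 (C ⧸ Zc c hc) := fun x => Iff.rfl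
  have hS : ∀ x ∈ S, x ^ 3 ∈ Zc c hc := by
    intro x hx
    rw [hSm] at hx
    rw [← QuotientGroup.eq_one_iff, QuotientGroup.mk_pow]
    exact hx.1
  have hN : (liftN hB hE hc hz S hS).Normal := by
    refine ⟨?_⟩
    rintro x ⟨hx1, hx2⟩ g
    refine ⟨?_, conj_pow_one hx2⟩
    rw [hSm] at hx1 ⊢
    rw [QuotientGroup.mk_mul, QuotientGroup.mk_mul, QuotientGroup.mk_inv]
    exact conj_mem_rad hx1 _
  have h1 : liftN hB hE hc hz S hS ≤ Rad 3 C := le_rad cop34 hE.h34 _ fun x hx => hx.2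
  have h2 : s ∈ Rad 3 C := h1 ⟨hu, hs3⟩
  rw [hR, mem_bot] at h2
  rw [h2]
  exact one_mem _

theorem kl_central (hE : E12 C)
    (hkl : ∀ K : Subgroup C, Finite K → ∀ a s : C, a ∈ K → s ∈ K → a ^ 4 = 1 → s ^ 3 = 1 →
      a⁻¹ * s * a = s⁻¹ → s ∈ RK 3 K) (hc : c ^ 2 = 1)
    (hz : ∀ x, Commute c x) [(Zc c hc).Normal] (K : Subgroup (C ⧸ Zc c hc)) (hK : Finite K)
    (a s : C ⧸ Zc c hc) (haK : a ∈ K) (hsK : s ∈ K) (ha : a ^ 4 = 1) (hs : s ^ 3 = 1)
    (has : a⁻¹ * s * a = s⁻¹) : s ∈ RK 3 K := by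
  obtain ⟨s, hs3, rfl⟩ := cube_lift hE (Zc c hc) hs
  obtain ⟨a, rfl⟩ := QuotientGroup.mk_surjective a
  have ha4 : a ^ 4 = 1 := by
    apply hE.four_of_mem (Zc c hc)
    · intro x hx
      rw [show 4 = 2 * 2 by norm_num, pow_mul, sq_of_mem hx, one_pow]
    · rw [← QuotientGroup.eq_one_iff, QuotientGroup.mk_pow]
      exact ha
  have has' : a⁻¹ * s * a = s⁻¹ := by
    rw [← QuotientGroup.mk_inv, ← QuotientGroup.mk_mul, ← QuotientGroup.mk_mul,
      ← QuotientGroup.mk_inv, QuotientGroup.eq] at has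
    rcases has with h | h
    · exact inv_mul_eq_one.1 h
    · have h2 : s⁻¹ = (a⁻¹ * s * a) * c := by rw [← h]; group
      have h3 : (s⁻¹) ^ 3 = 1 := by rw [inv_pow, hs3, inv_one]
      have h4 : (a⁻¹ * s * a) ^ 3 = 1 := conj_pow_one' hs3
      rw [h2, (hz _).symm.mul_pow, h4, one_mul, pow_succ, hc, one_mul] at h3
      rw [h2, h3, mul_one]
  have hK' : Finite (K.comap (QuotientGroup.mk' (Zc c hc))) := by
    have hZf : Finite (Zc c hc) := by
      have : (Zc c hc : Set C) ⊆ {1, c} := by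
        rintro x (rfl | rfl) <;> simp
      exact (Set.toFinite {1, c}).subset this
    have : Finite ((K.comap (QuotientGroup.mk' (Zc c hc))) ⧸
        (Zc c hc).subgroupOf (K.comap (QuotientGroup.mk' (Zc c hc)))) := by
      refine Finite.of_injective (β := K) (fun q => Quotient.liftOn' q
        (fun z => (⟨QuotientGroup.mk' (Zc c hc) z, z.2⟩ : K)) ?_) ?_
      · intro x y hxy
        rw [QuotientGroup.leftRel_apply, mem_subgroupOf] at hxy
        refine Subtype.ext ?_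
        change (QuotientGroup.mk (x : C) : C ⧸ Zc c hc) = QuotientGroup.mk (y : C)
        rw [QuotientGroup.eq]
        exact hxy
      · intro x y
        induction x using QuotientGroup.induction_on with
        | H x =>
        induction y using QuotientGroup.induction_on with
        | H y =>
        intro hxy
        have h1 := congrArg Subtype.val hxy
        change (QuotientGroup.mk (x : C) : C ⧸ Zc c hc) = QuotientGroup.mk (y : C) at h1
        rw [QuotientGroup.eq] at h1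
        rw [QuotientGroup.eq, mem_subgroupOf]
        exact h1
    have hf : Finite ((Zc c hc).subgroupOf (K.comap (QuotientGroup.mk' (Zc c hc)))) :=
      Finite.of_injective
        (fun x : (Zc c hc).subgroupOf (K.comap (QuotientGroup.mk' (Zc c hc))) =>
          (⟨x.1.1, mem_subgroupOf.1 x.2⟩ : Zc c hc))
        (fun x y hxy => by
          have h := congrArg Subtype.val hxy
          exact Subtype.ext (Subtype.ext h))
    exact Finite.of_subgroup_quotient ((Zc c hc).subgroupOf (K.comap (QuotientGroup.mk' (Zc c hc))))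
  have h1 := hkl _ hK' a s haK hsK ha4 hs3 has'
  refine mem_RK.2 ⟨hsK, Subtype.ext (by simpa using hs), ?_⟩
  rintro ⟨z, hzK⟩ hz3
  have hz3' : z ^ 3 = 1 := coe_eq_one hz3
  obtain ⟨z, hz3'', rfl⟩ := cube_lift hE (Zc c hc) hz3'
  have h2 := RK_mul h1 (z := z) hzK hz3''
  refine Subtype.ext ?_
  rw [coe_pow, coe_mul, coe_one, ← QuotientGroup.mk_mul]
  exact mk_pow_one h2

end Central

/-- the class `HH` is inherited by centralisers of involutions modulo the involution -/
theorem HH.cent (hG : HH G) {c : G} (hc : c ^ 2 = 1) (c' : centralizer {c}) (hc' : (c' : G) = c)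
    (hc2 : c' ^ 2 = 1) [(Zc c' hc2).Normal] : HH (centralizer {c} ⧸ Zc c' hc2) := by
  have hz : ∀ x, Commute c' x := by
    rintro ⟨x, hx⟩
    refine Subtype.ext ?_
    rw [coe_mul, coe_mul, hc']
    exact (mem_cent.1 hx).symm.eq
  have hR : Rad 3 (centralizer {c}) = ⊥ := by
    rw [eq_bot_iff]
    intro x hx
    have h1 : (x : G) ∈ RK 3 (centralizer {c}) := mem_RK.2 ⟨x.2, hx⟩
    have h2 := hG.rad_cent hc h1
    rw [mem_bot]
    exact Subtype.ext h2
  have hB := hG.bf.sub (centralizer {c})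
  have hE := hG.e.sub (centralizer {c})
  exact ⟨hB.quo _, hE.quo _, rad_central hB hE hR hc2 hz,
    kl_central hE (hG.kl_sub (centralizer {c})) hc2 hz⟩

end Pool.Agent.W629.Tw
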