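import Mathlib
import Pool.Agent.W629.Tw.Cent

set_option autoImplicit false

/-!
# The induction over `2`-subgroups
-/

namespace Pool.Agent.W629.Tw

open Pool.Agent.W629 Subgroup

theorem exists_central {G : Type} [Group G] {D : Subgroup G} (hD : Finite D)
    (hD4 : ∀ x ∈ D, x ^ 4 = 1) {a : G} (ha : a ∈ D) (ha1 : a ≠ 1) :
    ∃ c ∈ D, c ^ 2 = 1 ∧ c ≠ 1 ∧ ∀ x ∈ D, Commute c x := by
  have hp : IsPGroup 2 D := by
    intro x
    refine ⟨2, Subtype.ext ?_⟩
    rw [coe_pow]
    exact hD4 x x.2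
  have := Fact.mk Nat.prime_two
  have hn : Nontrivial D := ⟨⟨a, ha⟩, 1, fun h => ha1 (congrArg Subtype.val h)⟩
  have hc := hp.center_nontrivial
  obtain ⟨⟨z, hz⟩, hz1⟩ := exists_ne (1 : center D)
  have hz1' : (z : G) ≠ 1 := fun h => hz1 (Subtype.ext (Subtype.ext h))
  have hzc : ∀ x ∈ D, Commute (z : G) x := by
    intro x hx
    have := (mem_center_iff.1 hz) ⟨x, hx⟩
    exact (congrArg Subtype.val this).symm
  by_cases h2 : (z : G) ^ 2 = 1
  · exact ⟨z, z.2, h2, hz1', hzc⟩
  · refine ⟨z ^ 2, pow_mem z.2 2, ?_, h2, fun x hx => (hzc x hx).pow_left 2⟩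
    rw [← pow_mul]
    exact hD4 z z.2

theorem ind : ∀ n : ℕ, ∀ (G : Type) [Group G], HH G → ∀ (a t s : G) (D : Subgroup G), Finite D →
    (∀ x ∈ D, x ^ 4 = 1) → Nat.card D = n → a ∈ D → t ∈ D → a ^ 2 = 1 → Iv a s →
    ∃ N : Subgroup G, (∀ x ∈ N, x ^ 3 = 1) ∧ s ∈ N ∧ (∀ x ∈ N, t⁻¹ * x * t ∈ N) := by
  intro n
  induction n using Nat.strong_induction_on with
  | _ n ih =>
    intro G _ hG a t s D hD hD4 hcard haD htD ha hs
    by_cases ha1 : a = 1
    · refine ⟨⊥, ?_, ?_, ?_⟩
      · intro x hx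
        rw [mem_bot] at hx
        rw [hx, one_pow]
      · have h1 := hs.2
        rw [ha1, one_mul, mul_one] at h1
        have h2 : s ^ 2 = 1 := by
          rw [pow_two]; nth_rw 1 [h1]; exact inv_mul_cancel s
        rw [mem_bot]
        exact eq_one_43 (four_of_two h2) hs.1
      · intro x hx
        rw [mem_bot] at hx ⊢
        rw [hx]; group
    · obtain ⟨c, hcD, hc2, hc1, hcz⟩ := exists_central hD hD4 haD ha1
      by_cases hca : c = a
      · refine ⟨hG.Isub ha, fun x hx => hx.1, hs, fun x hx => ?_⟩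
        exact Iv.conj hx (by rw [← hca]; exact (hcz t htD).symm)
      · have hcca : Commute c a := hcz a haD
        have hcct : Commute c t := hcz t htD
        -- the decomposition of `s`
        obtain ⟨sc, hscd⟩ : ∃ sc, sc = c * s * c := ⟨_, rfl⟩
        have hsc : Iv a sc := by
          have := hs.conj hcca
          rwa [sq_inv hc2, ← hscd] at this
        have hss : Commute s sc := hG.comm ha hs hsc
        have csc : c * sc * c = s := by rw [hscd, ccc hc2]
        obtain ⟨s1, hs1⟩ : ∃ s1, s1 = (s * sc) * (s * sc) := ⟨_, rfl⟩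
        obtain ⟨s2, hs2⟩ : ∃ s2, s2 = (s * sc⁻¹) * (s * sc⁻¹) := ⟨_, rfl⟩
        have hs1a : Iv a s1 := by
          rw [hs1]
          have h1 := hs.mul ha hsc hss
          exact h1.mul ha h1 (Commute.refl _)
        have hs1c : Commute s1 c := by
          rw [comm_iff_c hc2, hs1, cmul hc2, cmul hc2, ← hscd, csc, hss.eq]
        have hs2c : Iv c s2 := by
          refine ⟨?_, ?_⟩
          · have h1 : (s * sc⁻¹) ^ 3 = 1 := by
              rw [hss.inv_right.mul_pow, hs.1, inv_pow, hsc.1, inv_one, one_mul]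
            rw [hs2, ← pow_two, ← pow_mul, mul_comm, pow_mul, h1, one_pow]
          · rw [hs2, cmul hc2, cmul hc2, cinv hc2, ← hscd, csc, mul_inv_rev, mul_inv_rev, inv_inv]
        have hprod : s2 * s1 = s := by
          have h1 := hss.eq
          have h2 := hss.inv_right.eq
          calc s2 * s1 = s * (sc⁻¹ * s) * (sc⁻¹ * s) * sc * s * sc := by
                rw [hs1, hs2]; simp only [mul_assoc]
            _ = s * (s * sc⁻¹) * (s * sc⁻¹) * sc * s * sc := by rw [h2]
            _ = s * s * (sc⁻¹ * s) * (s * sc) := by group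
            _ = s * s * (s * sc⁻¹) * (sc * s) := by rw [h2, h1]
            _ = s ^ 3 * s := by
              simp only [pow_succ, pow_zero, one_mul]; group
            _ = s := by rw [hs.1, one_mul]
        -- the quotient
        obtain ⟨c', hc'⟩ : ∃ c' : centralizer {c}, (c' : G) = c :=
          ⟨⟨c, mem_cent.2 (Commute.refl c)⟩, rfl⟩
        obtain ⟨a', ha'⟩ : ∃ a' : centralizer {c}, (a' : G) = a :=
          ⟨⟨a, mem_cent.2 hcca.symm⟩, rfl⟩
        obtain ⟨t', ht'⟩ : ∃ t' : centralizer {c}, (t' : G) = t :=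
          ⟨⟨t, mem_cent.2 hcct.symm⟩, rfl⟩
        obtain ⟨s', hs'⟩ : ∃ s' : centralizer {c}, (s' : G) = s1 :=
          ⟨⟨s1, mem_cent.2 hs1c⟩, rfl⟩
        have hc2' : c' ^ 2 = 1 := Subtype.ext (by rw [coe_pow, hc', hc2]; rfl)
        have hz : ∀ x, Commute c' x := by
          rintro ⟨x, hx⟩
          refine Subtype.ext ?_
          rw [coe_mul, coe_mul, hc']
          exact (mem_cent.1 hx).symm.eq
        have hZn : (Zc c' hc2').Normal := Zc_normal hc2' hz
        have hH := hG.cent hc2 c' hc' hc2'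
        have hB := hG.bf.sub (centralizer {c})
        have hE := hG.e.sub (centralizer {c})
        have ha2' : a' ^ 2 = 1 := Subtype.ext (by rw [coe_pow, ha', ha]; rfl)
        have hIv : Iv (a' : centralizer {c} ⧸ Zc c' hc2') (s' : centralizer {c} ⧸ Zc c' hc2') := by
          constructor
          · exact mk_pow_one (Subtype.ext (by rw [coe_pow, hs', hs1a.1]; rfl))
          · rw [← QuotientGroup.mk_mul, ← QuotientGroup.mk_mul, ← QuotientGroup.mk_inv]
            congr 1
            refine Subtype.ext ?_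
            rw [coe_mul, coe_mul, coe_inv, ha', hs', hs1a.2]
        have hDC : ∀ x ∈ D, x ∈ centralizer {c} := fun x hx => mem_cent.2 (hcz x hx).symm
        obtain ⟨D1, hD1⟩ : ∃ D1, D1 = (D.subgroupOf (centralizer {c})).map
          (QuotientGroup.mk' (Zc c' hc2')) := ⟨_, rfl⟩
        let f : D → D1 := fun x => ⟨QuotientGroup.mk' (Zc c' hc2') ⟨x, hDC x x.2⟩, by
          rw [hD1]
          exact mem_map_of_mem _ (mem_subgroupOf.2 x.2)⟩
        have hf : Function.Surjective f := by
          rintro ⟨y, hy⟩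
          rw [hD1] at hy
          obtain ⟨x, hx, rfl⟩ := hy
          exact ⟨⟨x, mem_subgroupOf.1 hx⟩, rfl⟩
        have hD1f : Finite D1 := Finite.of_surjective f hf
        have hlt : Nat.card D1 < n := by
          by_contra hcon
          push Not at hcon
          have h1 := hf.bijective_of_nat_card_le (by rw [hcard]; exact hcon)
          have h2 : f ⟨c, hcD⟩ = f 1 := by
            refine Subtype.ext ?_
            change QuotientGroup.mk' (Zc c' hc2') ⟨c, _⟩ = QuotientGroup.mk' (Zc c' hc2') ⟨1, _⟩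
            have e1 : (⟨c, hDC c hcD⟩ : centralizer {c}) = c' := Subtype.ext hc'.symm
            have e2 : (⟨1, hDC 1 (one_mem D)⟩ : centralizer {c}) = 1 := rfl
            rw [e1, e2, map_one, QuotientGroup.mk'_apply, QuotientGroup.eq_one_iff]
            exact Or.inr rfl
          exact hc1 (congrArg Subtype.val (h1.1 h2))
        have hD14 : ∀ x ∈ D1, x ^ 4 = 1 := by
          intro x hx
          rw [hD1] at hx
          obtain ⟨x, hx, rfl⟩ := hx
          rw [← map_pow]
          have : x ^ 4 = 1 := Subtype.ext (by rw [coe_pow]; exact hD4 _ (mem_subgroupOf.1 hx))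
          rw [this, map_one]
        obtain ⟨N0, hN3, hsN, htN⟩ := ih _ hlt _ hH (a' : centralizer {c} ⧸ Zc c' hc2')
          (t' : centralizer {c} ⧸ Zc c' hc2') (s' : centralizer {c} ⧸ Zc c' hc2') D1 hD1f hD14 rfl
          (by rw [hD1]; exact mem_map_of_mem _ (mem_subgroupOf.2 (by rw [ha']; exact haD)))
          (by rw [hD1]; exact mem_map_of_mem _ (mem_subgroupOf.2 (by rw [ht']; exact htD)))
          (mk_pow_one ha2') hIv
        -- the subgroup `N`
        let S : Subgroup (centralizer {c}) := N0.comap (QuotientGroup.mk' (Zc c' hc2'))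
        have hS : ∀ x ∈ S, x ^ 3 ∈ Zc c' hc2' := by
          intro x hx
          rw [← QuotientGroup.eq_one_iff, QuotientGroup.mk_pow]
          exact hN3 _ hx
        obtain ⟨N2, hN2⟩ : ∃ N2, N2 = (liftN hB hE hc2' hz S hS).map (centralizer {c}).subtype :=
          ⟨_, rfl⟩
        have hN2C : ∀ x ∈ N2, Commute x c := by
          intro x hx
          rw [hN2] at hx
          obtain ⟨x, -, rfl⟩ := hx
          exact mem_cent.1 x.2
        have hN23 : ∀ x ∈ N2, x ^ 3 = 1 := by
          intro x hx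
          rw [hN2] at hx
          obtain ⟨x, hx, rfl⟩ := hx
          rw [← map_pow, hx.2, map_one]
        have hN2t : ∀ x ∈ N2, t⁻¹ * x * t ∈ N2 := by
          intro x hx
          rw [hN2] at hx ⊢
          obtain ⟨x, hx, rfl⟩ := hx
          refine ⟨t'⁻¹ * x * t', ⟨?_, conj_pow_one' hx.2⟩, ?_⟩
          · exact htN _ hx.1
          · rw [map_mul, map_mul, map_inv]
            change (t' : G)⁻¹ * x * t' = t⁻¹ * x * t
            rw [ht']
        have hs1N2 : s1 ∈ N2 := by
          rw [hN2]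
          exact ⟨s', ⟨hsN, Subtype.ext (by rw [coe_pow, hs', hs1a.1]; rfl)⟩, hs'⟩
        have hN12 : ∀ x1 x2, Iv c x1 → x2 ∈ N2 → Iv c (x2 * x1 * x2⁻¹) := by
          intro x1 x2 h1 h2
          have h3 := h1.conj (x := x2⁻¹) (hN2C x2 h2).inv_left
          rwa [inv_inv] at h3
        let N : Subgroup G :=
          { carrier := {x | ∃ x1 x2, Iv c x1 ∧ x2 ∈ N2 ∧ x = x1 * x2}
            one_mem' := ⟨1, 1, Iv.one hc2, one_mem N2, (one_mul 1).symm⟩
            mul_mem' := by
              rintro x y ⟨x1, x2, h1, h2, rfl⟩ ⟨y1, y2, h3, h4, rfl⟩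
              exact ⟨x1 * (x2 * y1 * x2⁻¹), x2 * y2, h1.mul hc2 (hN12 _ _ h3 h2)
                (hG.comm hc2 h1 (hN12 _ _ h3 h2)), mul_mem h2 h4, by group⟩
            inv_mem' := by
              rintro x ⟨x1, x2, h1, h2, rfl⟩
              refine ⟨x2⁻¹ * x1⁻¹ * x2, x2⁻¹, (h1.inv hc2).conj (hN2C x2 h2), inv_mem h2, ?_⟩
              group }
        refine ⟨N, ?_, ⟨s2, s1, hs2c, hs1N2, hprod.symm⟩, ?_⟩
        · rintro x ⟨x1, x2, h1, h2, rfl⟩
          apply pow_a_of cop34 (hG.e _)
          have h3 := hN12 _ _ h1 h2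
          have h4 := hN12 _ _ h3 h2
          have h5 : (x1 * x2) ^ 3 = x1 * (x2 * x1 * x2⁻¹) * (x2 * (x2 * x1 * x2⁻¹) * x2⁻¹) := by
            calc (x1 * x2) ^ 3 = x1 * (x2 * x1 * x2⁻¹) * (x2 * (x2 * x1 * x2⁻¹) * x2⁻¹) *
                  x2 ^ 3 := by
                  simp only [pow_succ, pow_zero, one_mul]; group
              _ = _ := by rw [hN23 x2 h2, mul_one]
          rw [h5]
          have h6 := h1.mul hc2 h3 (hG.comm hc2 h1 h3)
          exact (h6.mul hc2 h4 (hG.comm hc2 h6 h4)).1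
        · rintro x ⟨x1, x2, h1, h2, rfl⟩
          exact ⟨t⁻¹ * x1 * t, t⁻¹ * x2 * t, h1.conj hcct.symm, hN2t x2 h2, by group⟩

end Pool.Agent.W629.Tw
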