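import Mathlib
import Pool.Agent.W629.Tw.Ind

set_option autoImplicit false

/-!
# Groups without normal `2`- and `3`-subgroups are trivial
-/

namespace Pool.Agent.W629.Tw

open Pool.Agent.W629 Subgroup

variable {G : Type} [Group G]

/-- the exact lift of an element inverted by an involution, modulo `Rad 3` -/
theorem lift_inv3 {L : Type} [Group L] (hE : E12 L) {a : L} (ha : a ^ 2 = 1) {r : L ⧸ Rad 3 L}
    (hr : r ^ 3 = 1) (h : (a : L ⧸ Rad 3 L) * r * a = r⁻¹) :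
    ∃ s : L, s ^ 3 = 1 ∧ a * s * a = s⁻¹ ∧ (s : L ⧸ Rad 3 L) = r := by
  obtain ⟨w, rfl⟩ := QuotientGroup.mk_surjective r
  refine ⟨(w⁻¹ * (a * w * a)) ^ 4, hE.p4 _, ?_, ?_⟩
  · rw [cpow ha, cev ha, inv_pow]
  · rw [QuotientGroup.mk_pow, QuotientGroup.mk_mul, QuotientGroup.mk_mul, QuotientGroup.mk_mul,
      QuotientGroup.mk_inv, h, ← x_inv (by rw [inv_pow, hr, inv_one]), inv_inv]
    exact pow4 hr

/-- in a finite group, if the elements inverted by the involution `a` lie in `Rad 3` -/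
theorem inv_mem_rad4 {L : Type} [Group L] [Finite L] (hE : E12 L) {a : L} (ha : a ^ 2 = 1)
    (hkl : ∀ s : L, s ^ 3 = 1 → a * s * a = s⁻¹ → s ∈ Rad 3 L) :
    (a : L ⧸ Rad 3 L) ∈ Rad 4 (L ⧸ Rad 3 L) := by
  by_contra hn
  have hE' := hE.quo (Rad 3 L)
  have ha' : (a : L ⧸ Rad 3 L) ^ 2 = 1 := mk_pow_one ha
  have h2 : ∃ u ∈ Rad 3 ((L ⧸ Rad 3 L) ⧸ Rad 4 (L ⧸ Rad 3 L)),
      ¬ Commute u ((a : L ⧸ Rad 3 L) : (L ⧸ Rad 3 L) ⧸ Rad 4 (L ⧸ Rad 3 L)) := by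
    by_contra hcon
    push Not at hcon
    exact hn (hE'.mem_rad4 (four_of_two ha') fun u hu => (hcon u hu).symm)
  obtain ⟨u, hu, hun⟩ := h2
  have he2 := mk_pow_one (N := Rad 4 (L ⧸ Rad 3 L)) ha'
  obtain ⟨r, hr, hr1, hr2, -⟩ := ev he2 he2 (Commute.refl _) hu hun
  obtain ⟨s, hs, hs1, hs2⟩ := lift_inv hE' ha' hr hr2
  obtain ⟨x, hx, hx1, hx2⟩ := lift_inv3 hE ha hs hs1
  apply hr1
  rw [← hs2, ← hx2, (QuotientGroup.eq_one_iff x).2 (hkl x hx hx1)]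
  rfl

theorem coprime_of {L : Type} [Group L] [Finite L] (P : Subgroup L) [P.Normal]
    (hP : ∀ x ∈ P, x ^ 3 = 1) (hQ : ∀ x : L ⧸ P, x ^ 4 = 1) :
    Nat.Coprime (Nat.card P) P.index := by
  apply Nat.coprime_of_dvd
  intro p hp h1 h2
  have h3 : p ∣ 3 := by
    by_contra hcon
    exact not_dvd_card hp ((Nat.Prime.coprime_iff_not_dvd hp).2 hcon) P hP h1
  have h4 : p ∣ 4 := by
    by_contra hcon
    have h5 := not_dvd_card hp ((Nat.Prime.coprime_iff_not_dvd hp).2 hcon)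
      (⊤ : Subgroup (L ⧸ P)) (fun x _ => hQ x)
    apply h5
    rw [card_top]
    exact h2
  have h5 := Nat.dvd_gcd h3 h4
  norm_num at h5
  rw [h5] at hp
  exact Nat.not_prime_one hp

/-- conjugation into a common `2`-subgroup -/
theorem exists_two {L : Type} [Group L] [Finite L] (P : Subgroup L) [hPn : P.Normal]
    (hP : ∀ x ∈ P, x ^ 3 = 1) (hQ : ∀ x : L ⧸ P, x ^ 4 = 1) {a t : L} (ha : a ^ 4 = 1)
    (ht : t ^ 4 = 1) : ∃ x ∈ P, ∃ D : Subgroup L, (∀ y ∈ D, y ^ 4 = 1) ∧ t ∈ D ∧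
      x⁻¹ * a * x ∈ D := by
  obtain ⟨D0, hD0⟩ := exists_right_complement'_of_coprime (coprime_of P hP hQ)
  have hD4 : ∀ y ∈ D0, y ^ 4 = 1 := by
    intro y hy
    have h1 : y ^ 4 ∈ P := by
      rw [← QuotientGroup.eq_one_iff, QuotientGroup.mk_pow]
      exact hQ _
    exact (disjoint_def.1 hD0.disjoint) h1 (pow_mem hy 4)
  have key : ∀ y : L, y ^ 4 = 1 → ∃ n ∈ P, n⁻¹ * y * n ∈ D0 := by
    intro y hy
    have h1 : y ∈ P ⊔ D0 := by rw [hD0.sup_eq_top]; exact mem_top y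
    obtain ⟨p, hp, d, hd, rfl⟩ := mem_sup_of_normal_left.1 h1
    obtain ⟨n, hn, hn'⟩ := conj_lift (k := 2) Nat.prime_two P (ndvd2 P hP) (s := d)
      (s' := p * d) (by simpa using hD4 d hd) (by simpa using hy)
      (fun n hn => hPn.conj_mem n hn d) (by rwa [mul_inv_cancel_right])
    refine ⟨n, hn, ?_⟩
    rw [hn']
    have : n⁻¹ * (n * d * n⁻¹) * n = d := by group
    rw [this]
    exact hd
  obtain ⟨n1, hn1, h1⟩ := key t ht
  obtain ⟨n2, hn2, h2⟩ := key a ha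
  refine ⟨n2 * n1⁻¹, mul_mem hn2 (inv_mem hn1), D0.map (MulAut.conj n1).toMonoidHom, ?_, ?_, ?_⟩
  · rintro _ ⟨y, hy, rfl⟩
    rw [← map_pow, hD4 y hy, map_one]
  · refine ⟨n1⁻¹ * t * n1, h1, ?_⟩
    simp only [MulEquiv.coe_toMonoidHom, MulAut.conj_apply]
    group
  · refine ⟨n2⁻¹ * a * n2, h2, ?_⟩
    simp only [MulEquiv.coe_toMonoidHom, MulAut.conj_apply]
    group

theorem HH.cube_comm (hG : HH G) {a s t : G} (ha : a ^ 2 = 1) (hs : Iv a s) (ht : t ^ 4 = 1) :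
    (s⁻¹ * (t⁻¹ * s * t)) ^ 3 = 1 := by
  have hL : Finite (closure {a, t}) := hG.bf _ _
  obtain ⟨L, hLd⟩ : ∃ L, L = closure {a, t} := ⟨_, rfl⟩
  rw [← hLd] at hL
  have haL : a ∈ L := by rw [hLd]; exact subset_closure (by simp)
  have htL : t ∈ L := by rw [hLd]; exact subset_closure (by simp)
  obtain ⟨a', ha'⟩ : ∃ a' : L, (a' : G) = a := ⟨⟨a, haL⟩, rfl⟩
  obtain ⟨t', ht'⟩ : ∃ t' : L, (t' : G) = t := ⟨⟨t, htL⟩, rfl⟩
  have ha2 : a' ^ 2 = 1 := Subtype.ext (by rw [coe_pow, ha', ha]; rfl)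
  have ht4 : t' ^ 4 = 1 := Subtype.ext (by rw [coe_pow, ht', ht]; rfl)
  have hE := hG.e.sub L
  have hmem := inv_mem_rad4 hE ha2 (by
    rintro ⟨x, hx⟩ hx3 hax
    have h1 : x ∈ RK 3 L := hG.kl2 hL ha haL hx ⟨by simpa using congrArg Subtype.val hx3, by
      have := congrArg Subtype.val hax
      simpa [ha'] using this⟩
    exact (mem_RK.1 h1).2)
  -- all elements of the quotient have exponent four
  have hE' := hE.quo (Rad 3 L)
  have hQ : ∀ x : L ⧸ Rad 3 L, x ^ 4 = 1 := by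
    intro x
    apply hE'.four_of_mem (Rad 4 (L ⧸ Rad 3 L)) (fun x hx => hx.1)
    rw [← QuotientGroup.eq_one_iff, QuotientGroup.mk_pow]
    obtain ⟨⟨y, hy⟩, rfl⟩ := QuotientGroup.mk_surjective x
    let θ : L →* (L ⧸ Rad 3 L) ⧸ Rad 4 (L ⧸ Rad 3 L) :=
      (QuotientGroup.mk' _).comp (QuotientGroup.mk' _)
    have h1 : ∀ y (hy : y ∈ L), θ ⟨y, hy⟩ ∈ zpowers (θ t') := by
      have h2 : L ≤ ((zpowers (θ t')).comap θ).map L.subtype := by
        conv_lhs => rw [hLd]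
        rw [closure_le]
        rintro z (rfl | hz)
        · refine ⟨a', ?_, ha'⟩
          rw [SetLike.mem_coe, mem_comap]
          have : θ a' = 1 := (QuotientGroup.eq_one_iff _).2 hmem
          rw [this]
          exact one_mem _
        · rw [Set.mem_singleton_iff] at hz
          rw [hz]
          exact ⟨t', mem_zpowers _, ht'⟩
      intro y hy
      obtain ⟨z, hz, hz'⟩ := h2 hy
      have : (⟨y, hy⟩ : L) = z := Subtype.ext hz'.symm
      rw [this]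
      exact hz
    obtain ⟨k, hk⟩ := mem_zpowers_iff.1 (h1 y hy)
    have h3 : θ ⟨y, hy⟩ ^ 4 = 1 := by
      rw [← hk, ← zpow_natCast, ← zpow_mul, mul_comm, zpow_mul, zpow_natCast, ← map_pow, ht4,
        map_one, one_zpow]
    exact h3
  obtain ⟨x, hx, D, hD4, htD, haD⟩ := exists_two (Rad 3 L) (fun x hx => hx.1) hQ
    (four_of_two ha2) ht4
  have hx3 : (x : G) ^ 3 = 1 := coe_eq_one hx.1
  -- `x = y v`
  obtain ⟨v, hv⟩ : ∃ v, v = (x : G)⁻¹ * (a * x * a) := ⟨_, rfl⟩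
  have hv3 : v ^ 3 = 1 := by
    have h1 : x⁻¹ * (a' * x * a') ∈ Rad 3 L := mul_mem (inv_mem hx) (c_mem_rad ha2 hx)
    have h2 := coe_eq_one h1.1
    rw [hv, ← ha']
    simpa using h2
  have hva : Iv a v := ⟨hv3, by rw [hv, cev ha]⟩
  obtain ⟨y, hy⟩ : ∃ y, y = (x : G) * v⁻¹ := ⟨_, rfl⟩
  have hya : Commute y a := by
    rw [comm_iff_c ha, hy, cmul ha, cinv ha, hva.2, inv_inv]
    have h1 : a * x * a = x * v := by rw [hv]; group
    rw [h1, mul_assoc, ← x_inv hv3]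
  have hxy : (x : G) = y * v := by rw [hy]; group
  have hconj : (x : G)⁻¹ * a * x = v⁻¹ * a * v := by
    calc (x : G)⁻¹ * a * x = v⁻¹ * (y⁻¹ * (a * y)) * v := by rw [hxy]; group
      _ = v⁻¹ * a * v := by rw [← hya.eq, inv_mul_cancel_left]
  have hsv : Commute s v := hG.comm ha hs hva
  have hsx : Iv ((x : G)⁻¹ * a * x) s := by
    refine ⟨hs.1, ?_⟩
    rw [hconj]
    have h1 : v * s * v⁻¹ = s := by rw [← hsv.eq]; group
    calc v⁻¹ * a * v * s * (v⁻¹ * a * v) = v⁻¹ * (a * (v * s * v⁻¹) * a) * v := by group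
      _ = v⁻¹ * (s⁻¹ * v) := by rw [h1, hs.2, mul_assoc]
      _ = s⁻¹ := by rw [hsv.inv_left.eq, inv_mul_cancel_left]
  have hDf : Finite (D.map L.subtype) :=
    Finite.of_surjective (fun z : D => (⟨L.subtype z, mem_map_of_mem _ z.2⟩ : D.map L.subtype)) (by
      rintro ⟨_, z, hz, rfl⟩
      exact ⟨⟨z, hz⟩, rfl⟩)
  obtain ⟨N, hN3, hsN, htN⟩ := ind _ G hG ((x : G)⁻¹ * a * x) t s (D.map L.subtype) hDf
    (by
      rintro _ ⟨z, hz, rfl⟩
      rw [← map_pow, hD4 z hz, map_one]) rfl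
    (by
      refine ⟨_, haD, ?_⟩
      rw [← ha']
      rfl)
    ⟨t', htD, ht'⟩ (conj_pow_one' ha) hsx
  exact hN3 _ (mul_mem (inv_mem hsN) (htN s hsN))

theorem HH.inv_trivial (hG : HH G) {a s : G} (ha : a ^ 2 = 1) (hs : Iv a s) : s = 1 := by
  rw [← mem_bot, ← hG.rad]
  refine ⟨hs.1, fun z hz => ?_⟩
  have hK : Finite (closure {s, z}) := hG.bf _ _
  obtain ⟨K, hKd⟩ : ∃ K, K = closure {s, z} := ⟨_, rfl⟩
  rw [← hKd] at hK
  have hsK : s ∈ K := by rw [hKd]; exact subset_closure (by simp)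
  have hzK : z ∈ K := by rw [hKd]; exact subset_closure (by simp)
  have h1 : s ∈ RK 3 K := by
    refine mem_RK.2 ⟨hsK, (hG.e.sub K).mem_rad3 (Subtype.ext (by simpa using hs.1)) ?_⟩
    intro u hu
    obtain ⟨w, rfl⟩ := QuotientGroup.mk_surjective u
    have h2 : ((w ^ 9 : K) : K ⧸ Rad 3 K) = w := by rw [QuotientGroup.mk_pow, pow9 hu.1]
    have h3 := hG.cube_comm ha hs (t := ((w ^ 9 : K) : G)) (coe_eq_one ((hG.e.sub K).p9 w))
    have h4 : ((⟨s, hsK⟩ : K)⁻¹ * ((w ^ 9)⁻¹ * ⟨s, hsK⟩ * w ^ 9)) ^ 3 = 1 :=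
      Subtype.ext (by simpa using h3)
    have h5 := mk_pow_one (N := Rad 3 K) h4
    rw [QuotientGroup.mk_mul, QuotientGroup.mk_mul, QuotientGroup.mk_mul, QuotientGroup.mk_inv,
      QuotientGroup.mk_inv, h2] at h5
    exact (comm_of_pow cop43 hu h5).symm
  exact RK_mul h1 hzK hz

/-- groups without normal `2`- and `3`-subgroups are trivial -/
theorem trivial_of (hB : BF G) (hE : E12 G) (h3 : Rad 3 G = ⊥) (h4 : Rad 4 G = ⊥) (x : G) :
    x = 1 := by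
  have hA := noA4 hB hE h4
  have hA' : ∀ K : Subgroup G, NoA4 K := by
    intro K t x h
    exact Subtype.ext (hA t x ⟨coe_eq_one h.1, coe_eq_one h.2.1, by
      rw [← coe_mul]; exact coe_eq_one h.2.2⟩)
  have hG : HH G := by
    refine ⟨hB, hE, h3, fun K hK a s haK hsK ha hs has => ?_⟩
    exact mem_RK.2 ⟨hsK, kl_fin (hE.sub K) (hA' K) (i := ⟨a, haK⟩)
      (Subtype.ext (by simpa using ha)) (Subtype.ext (by simpa using hs))
      (Subtype.ext (by simpa using has))⟩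
  have hinv : ∀ a : G, a ^ 2 = 1 → a = 1 := by
    intro a ha
    by_contra ha1
    obtain ⟨s, hs, hs1, has⟩ := L1 hB hE ha (by rw [h4, mem_bot]; exact ha1)
    exact hs1 (hG.inv_trivial ha ⟨hs, has⟩)
  have hx3 : ∀ x : G, x ^ 3 = 1 := by
    intro x
    apply hinv
    rw [← pow_mul]
    apply hinv
    rw [← pow_mul]
    exact hE x
  rw [← mem_bot, ← h3]
  exact ⟨hx3 x, fun z _ => hx3 _⟩

end Pool.Agent.W629.Tw
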