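import Mathlib
import Pool.Agent.W629.Tw.Fin

set_option autoImplicit false

/-!
# Local finiteness of groups of exponent twelve with finite two-generator subgroups
-/

namespace Pool.Agent.W629.Tw

open Pool.Agent.W629 Subgroup
open Pool.Agent.H32BU (LF LocFin x_SCH x_LFS x_L34 x_LFD)

variable {G : Type} [Group G]

theorem lf_closure {K : Subgroup G} (h : LF K) (S : Finset G) (hS : ∀ x ∈ S, x ∈ K) :
    Finite (closure (S : Set G)) := by
  classical
  have h1 := h (S.attach.image fun x => (⟨x.1, hS x.1 x.2⟩ : K))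
  have h2 : closure (S : Set G) = (closure ((S.attach.image fun x =>
      (⟨x.1, hS x.1 x.2⟩ : K) : Finset K) : Set K)).map K.subtype := by
    rw [MonoidHom.map_closure]
    congr 1
    ext x
    constructor
    · intro hx
      exact ⟨⟨x, hS x hx⟩, by simpa using hx, rfl⟩
    · rintro ⟨y, hy, rfl⟩
      simp only [Finset.coe_image, Set.mem_image, Finset.mem_coe, Finset.mem_attach, true_and,
        Subtype.exists] at hy
      obtain ⟨a, ha, rfl⟩ := hy
      exact ha
  rw [h2]
  exact Finite.of_surjective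
    (fun z : closure ((S.attach.image fun x => (⟨x.1, hS x.1 x.2⟩ : K) : Finset K) : Set K) =>
      (⟨K.subtype z, mem_map_of_mem _ z.2⟩ : (closure ((S.attach.image fun x =>
        (⟨x.1, hS x.1 x.2⟩ : K) : Finset K) : Set K)).map K.subtype))
    (by
      rintro ⟨_, z, hz, rfl⟩
      exact ⟨⟨z, hz⟩, rfl⟩)

/-- the locally finite radical -/
def LR (G : Type) [Group G] : Subgroup G where
  carrier := {x | ∃ N : Subgroup G, N.Normal ∧ LF N ∧ x ∈ N}
  one_mem' := ⟨⊥, inferInstance, fun _ => inferInstance, one_mem _⟩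
  mul_mem' := by
    rintro x y ⟨N, h1, h2, h3⟩ ⟨M, h4, h5, h6⟩
    exact ⟨N ⊔ M, sup_normal N M, x_LFS.2.2 G N M h1 h4 h2 h5,
      mul_mem (le_sup_left (a := N) (b := M) h3) (le_sup_right (a := N) (b := M) h6)⟩
  inv_mem' := by
    rintro x ⟨N, h1, h2, h3⟩
    exact ⟨N, h1, h2, inv_mem h3⟩

instance LR_normal : (LR G).Normal := by
  refine ⟨?_⟩
  rintro x ⟨N, h1, h2, h3⟩ g
  exact ⟨N, h1, h2, h1.conj_mem x h3 g⟩

theorem lf_LR : LF (LR G) := by
  classical
  intro S
  have h1 : ∀ T : Finset (LR G), ∃ N : Subgroup G, N.Normal ∧ LF N ∧ ∀ x ∈ T, (x : G) ∈ N := by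
    intro T
    induction T using Finset.induction_on with
    | empty => exact ⟨⊥, inferInstance, fun _ => inferInstance, by simp⟩
    | insert a T _ ih =>
      obtain ⟨N, h1, h2, h3⟩ := ih
      obtain ⟨M, h4, h5, h6⟩ := a.2
      refine ⟨N ⊔ M, sup_normal N M, x_LFS.2.2 G N M h1 h4 h2 h5, ?_⟩
      intro x hx
      rcases Finset.mem_insert.1 hx with rfl | hx
      · exact le_sup_right (a := N) (b := M) h6
      · exact le_sup_left (a := N) (b := M) (h3 x hx)
  obtain ⟨N, -, hN, hS⟩ := h1 S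
  have h2 : LF (N.subgroupOf (LR G)) := by
    refine x_LFS.2.1 _ N
      { toFun := fun x => ⟨x.1.1, mem_subgroupOf.1 x.2⟩
        map_one' := rfl
        map_mul' := fun _ _ => rfl } ?_ hN
    intro x y hxy
    have := congrArg Subtype.val hxy
    exact Subtype.ext (Subtype.ext this)
  exact lf_closure h2 S fun x hx => mem_subgroupOf.2 (hS x hx)

theorem rad_LR {r : ℕ} (hr : LocFin r) : Rad r (G ⧸ LR G) = ⊥ := by
  rw [eq_bot_iff]
  intro u hu
  obtain ⟨w, rfl⟩ := QuotientGroup.mk_surjective u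
  let M : Subgroup G := (Rad r (G ⧸ LR G)).comap (QuotientGroup.mk' (LR G))
  let φ : M →* Rad r (G ⧸ LR G) :=
    { toFun := fun x => ⟨QuotientGroup.mk' (LR G) x, x.2⟩
      map_one' := rfl
      map_mul' := fun _ _ => rfl }
  have h1 : LF (Rad r (G ⧸ LR G)) := hr _ fun x => Subtype.ext (by rw [coe_pow]; exact x.2.1)
  have h2 : LF (M ⧸ φ.ker) :=
    x_LFS.2.1 _ _ (QuotientGroup.kerLift φ) (QuotientGroup.kerLift_injective φ) h1
  have h3 : LF φ.ker := by
    refine x_LFS.2.1 _ (LR G)
      { toFun := fun x => ⟨x.1.1, ?_⟩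
        map_one' := rfl
        map_mul' := fun _ _ => rfl } ?_ lf_LR
    · have := congrArg Subtype.val (MonoidHom.mem_ker.1 x.2)
      exact (QuotientGroup.eq_one_iff _).1 this
    · intro x y hxy
      have := congrArg Subtype.val hxy
      exact Subtype.ext (Subtype.ext this)
  have h4 : LF M := x_SCH M φ.ker h3 h2
  have hM : M.Normal := inferInstance
  rw [mem_bot, QuotientGroup.eq_one_iff]
  exact ⟨M, hM, h4, hu⟩

/-- groups of exponent twelve with finite two-generator subgroups are locally finite -/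
theorem lf_twelve (G : Type) [Group G] (hB : BF G) (hE : E12 G) : LF G := by
  have h1 := trivial_of (hB.quo (LR G)) (hE.quo (LR G)) (rad_LR x_L34.1) (rad_LR x_L34.2)
  intro S
  refine lf_closure lf_LR S fun x _ => ?_
  have := h1 (x : G ⧸ LR G)
  rwa [QuotientGroup.eq_one_iff] at this

end Pool.Agent.W629.Tw
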